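import Pool.Agent.DERVR.GSUB
import Pool.Agent.DERV.P3A
import Pool.Agent.DERV.DER

/-!
# Project DERV, part I: ADJ : the adjoint module, simplicity, nondegeneracy
-/

set_option autoImplicit false

universe u w

open Finset

namespace Pool.Agent.DERVR

open Pool.Agent.VOAut Pool.Agent.DERV

variable {V : Type u} [AddCommGroup V] [Module ℂ V] {A : VOA V}

section modules

variable {M : Type u} [AddCommGroup M] [Module ℂ M] (X : AdmissibleModule A M)

/-- The span of all `v_m x`. -/
def gen (x : M) : Submodule ℂ M := Submodule.span ℂ {y | ∃ (v : V) (m : ℤ), y = X.Y v m x}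

theorem mem_gen (x : M) (v : V) (m : ℤ) : X.Y v m x ∈ gen X x :=
  Submodule.subset_span ⟨v, m, rfl⟩

theorem self_mem_gen (x : M) : x ∈ gen X x := by
  have h := mem_gen X x A.vac (-1)
  rwa [X.vacuum, if_pos rfl] at h

/-- Products of two modes acting on `x` reduce to single modes. -/
theorem gen_two (x : M) (u v : V) (m n : ℤ) : X.Y u m (X.Y v n x) ∈ gen X x := by
  obtain ⟨N, hN⟩ := X.trunc v x
  obtain ⟨K, hK⟩ := X.trunc u x
  have key : ∀ (d : ℕ) (n : ℤ), N ≤ n + d → ∀ m : ℤ, X.Y u m (X.Y v n x) ∈ gen X x := by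
    intro d
    induction d with
    | zero =>
      intro n hn m
      rw [hN n (by simpa using hn), map_zero]
      exact zero_mem _
    | succ d ih =>
      intro n hn m
      have h1 := X.jacobi u v x (m - K) K n
      have h2 : (∑ᶠ i : ℕ, ((Ring.choose K i : ℤ) : ℂ) • X.Y (A.Y u (m - K + i) v) (K + n - i) x) ∈
          gen X x := by
        exact finsum_induction (· ∈ gen X x) (zero_mem _) (fun _ _ ha hb => add_mem ha hb)
          (fun i => Submodule.smul_mem _ _ (mem_gen X x _ _))
      rw [h1] at h2
      have h3 : ∀ i : ℕ, ((-1 : ℂ) ^ i * ((Ring.choose (m - K) i : ℤ) : ℂ)) •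
          (X.Y u (K + (m - K) - i) (X.Y v (n + i) x) -
            (-1 : ℂ) ^ (m - K) • X.Y v (n + (m - K) - i) (X.Y u (K + i) x)) =
          ((-1 : ℂ) ^ i * ((Ring.choose (m - K) i : ℤ) : ℂ)) •
            X.Y u (m - i) (X.Y v (n + i) x) := by
        intro i
        have e1 : K + (m - K) - i = m - i := by ring
        rw [hK (K + i) (by omega), map_zero, smul_zero, sub_zero, e1]
      rw [finsum_congr h3] at h2
      have hfin : (Function.support fun i : ℕ =>
          ((-1 : ℂ) ^ i * ((Ring.choose (m - K) i : ℤ) : ℂ)) •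
            X.Y u (m - i) (X.Y v (n + i) x)).Finite := by
        apply (Set.finite_lt_nat (N - n).toNat).subset
        intro i hi
        rw [Function.mem_support] at hi
        show i < (N - n).toNat
        by_contra hc
        apply hi
        rw [hN (n + i) (by omega), map_zero, smul_zero]
      rw [finsum_eq_sum_of_support_subset (s := Finset.range ((N - n).toNat + 1)) _ (by
        intro i hi
        rw [Function.mem_support] at hi
        rw [Finset.coe_range, Set.mem_Iio]
        by_contra hc
        apply hi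
        rw [hN (n + i) (by omega), map_zero, smul_zero]), Finset.sum_range_succ'] at h2
      have h4 : (∑ k ∈ Finset.range (N - n).toNat,
          ((-1 : ℂ) ^ (k + 1) * ((Ring.choose (m - K) (k + 1) : ℤ) : ℂ)) •
            X.Y u (m - ((k + 1 : ℕ) : ℤ)) (X.Y v (n + ((k + 1 : ℕ) : ℤ)) x)) ∈ gen X x := by
        refine sum_mem fun k _ => Submodule.smul_mem _ _ ?_
        apply ih
        push_cast at hn ⊢
        omega
      have h5 := (Submodule.add_mem_iff_right _ h4).1 h2
      simpa using h5
  obtain ⟨d, hd⟩ : ∃ d : ℕ, N ≤ n + d := ⟨(N - n).toNat, by omega⟩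
  exact key d n hd m

theorem gen_stable (x : M) (u : V) (m : ℤ) (y : M) (hy : y ∈ gen X x) : X.Y u m y ∈ gen X x := by
  refine Submodule.span_induction (p := fun y _ => X.Y u m y ∈ gen X x) ?_ ?_ ?_ ?_ hy
  · rintro y ⟨v, n, rfl⟩
    exact gen_two X x u v m n
  · rw [map_zero]
    exact zero_mem _
  · intro a b _ _ ha hb
    rw [map_add]
    exact add_mem ha hb
  · intro c a _ ha
    rw [map_smul]
    exact Submodule.smul_mem _ _ ha

/-- The submodule generated by a homogeneous vector. -/
theorem gen_isSub (i : ℤ) (x : M) (hx : x ∈ X.gr i) : X.IsSub (gen X x) := by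
  rw [X.isSub_iff]
  refine ⟨fun u n y hy => gen_stable X x u n y hy, ?_⟩
  intro n y hy
  refine Submodule.span_induction (p := fun y _ => hcomp X.internal n y ∈ gen X x) ?_ ?_ ?_ ?_ hy
  · rintro y ⟨v, m, rfl⟩
    refine hom_ind A (P := fun v => hcomp X.internal n (X.Y v m x) ∈ gen X x) v ?_ ?_ ?_
    · rw [map_zero]
      simp
    · intro a b ha hb
      rw [map_add]
      show hcomp X.internal n (X.Y a m x + X.Y b m x) ∈ gen X x
      rw [map_add]
      exact add_mem ha hb
    intro a v hv
    rw [hcomp_of_mem X.internal n _ _ (X.graded a m i v x hv hx)]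
    split_ifs
    · exact mem_gen X x v m
    · exact zero_mem _
  · rw [map_zero]
    exact zero_mem _
  · intro a b _ _ ha hb
    rw [map_add]
    exact add_mem ha hb
  · intro c a _ ha
    rw [map_smul]
    exact Submodule.smul_mem _ _ ha

theorem gen_le (N : Submodule ℂ M) (hN : X.IsSub N) (x : M) (hx : x ∈ N) : gen X x ≤ N := by
  refine Submodule.span_le.2 ?_
  rintro y ⟨v, m, rfl⟩
  exact hN.1 v m x hx

/-- Irreducible submodules are generated by each of their homogeneous vectors. -/
theorem gen_irr (N : Submodule ℂ M) (hN : X.IsIrr N) (i : ℤ) (x : M) (hx : x ∈ X.gr i)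
    (hxN : x ∈ N) (h0 : x ≠ 0) : gen X x = N := by
  rcases hN.2.2 _ (gen_le X N hN.1 x hxN) (gen_isSub X i x hx) with h | h
  · exfalso
    apply h0
    have := self_mem_gen X x
    rwa [h, Submodule.mem_bot] at this
  · exact h

end modules

/-- The vertex operator algebra as a module over itself. -/
def adj (h : CFT A) : AdmissibleModule A V where
  Y := A.Y
  gr := A.gr
  trunc := A.trunc
  vacuum := A.vacuum
  jacobi := A.jacobi
  internal := A.internal
  nonneg := h.neg
  graded := A.graded

/-- Graded submodules of `V`. -/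
theorem adj_simple (h : CFT A) (hR : A.Rational) (N : Submodule ℂ V) (hN : (adj h).IsSub N) :
    N = ⊥ ∨ N = ⊤ := by
  obtain ⟨ι, K, hK, hind, htop⟩ := hR V (adj h)
  -- the vacuum lies in one of the pieces
  have h1 : ∃ i, A.vac ∈ K i := by
    by_contra hc
    push Not at hc
    have h2 : A.vac ∈ ⨆ i, K i := by rw [htop]; exact Submodule.mem_top
    have h3 : ∀ y ∈ ⨆ i, K i, hcomp A.internal 0 y = 0 := by
      intro y hy
      refine Submodule.iSup_induction K (motive := fun y => hcomp A.internal 0 y = 0) hy ?_ ?_ ?_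
      · intro i y hy
        have h4 : hcomp A.internal 0 y ∈ K i :=
          (((adj h).isSub_iff (K i)).1 (hK i).1).2 0 y hy
        have h5 := al0_spec h y
        have h6 : hcomp A.internal 0 y = al0 A y • A.vac := h5
        by_cases h7 : al0 A y = 0
        · rw [h6, h7, zero_smul]
        · exfalso
          apply hc i
          rw [h6] at h4
          have := Submodule.smul_mem (K i) (al0 A y)⁻¹ h4
          rwa [smul_smul, inv_mul_cancel₀ h7, one_smul] at this
      · rw [map_zero]
      · intro a b ha hb
        rw [map_add, ha, hb, add_zero]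
    have h4 := h3 A.vac h2
    rw [hcomp_of_mem A.internal 0 0 A.vac (by rw [h.zero]; exact Submodule.mem_span_singleton_self _),
      if_pos rfl] at h4
    exact h.nt h4
  obtain ⟨i, hi⟩ := h1
  have h2 : K i = ⊤ := by
    rw [eq_top_iff]
    intro v _
    have h3 := (hK i).1.1 v (-1) A.vac hi
    have h4 : (adj h).Y v (-1) A.vac = v := A.creation_neg_one v
    rwa [h4] at h3
  have h3 := (hK i).2.2 N (by rw [h2]; exact le_top) hN
  rw [h2] at h3
  exact h3

/-- Nondegeneracy. -/
theorem nondeg (h : CFT A) (hR : A.Rational) (w : V)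
    (hw : ∀ (n : ℤ) (v : V), al0 A (A.Y w n v) = 0) : w = 0 := by
  -- homogeneous components have the same property
  have h1 : ∀ (a : ℤ) (n : ℤ) (v : V), al0 A (A.Y (pr A a w) n v) = 0 := by
    intro a n v
    refine hom_ind A (P := fun v => al0 A (A.Y (pr A a w) n v) = 0) v ?_ ?_ ?_
    · simp
    · intro x y hx hy
      rw [map_add, map_add, hx, hy, add_zero]
    intro b v hv
    by_cases hn : n = a + b - 1
    · have h2 := hw n v
      have h3 : A.Y w n v = ∑ᶠ c : ℤ, A.Y (pr A c w) n v := by
        conv_lhs => rw [← hcomp_sum A.internal w]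
        have h4 : ∀ w : V, A.Y w n v =
            (((LinearMap.proj n : (ℤ → Module.End ℂ V) →ₗ[ℂ] Module.End ℂ V) ∘ₗ A.Y).flip v) w :=
          fun _ => rfl
        rw [h4, map_finsum _ (hcomp_fin A.internal w)]
        rfl
      have hfin : (Function.support fun c : ℤ => A.Y (pr A c w) n v).Finite := by
        apply (hcomp_fin A.internal w).subset
        intro c hc
        rw [Function.mem_support] at hc
        show hcomp A.internal c w ≠ 0
        intro h5
        apply hc
        show A.Y (hcomp A.internal c w) n v = 0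
        rw [h5]
        simp
      rw [h3, map_finsum _ hfin, finsum_eq_single _ a] at h2
      · exact h2
      · intro c hc
        exact al0_of_mem h (b + c - n - 1) (by omega) _
          (A.graded c n b _ v (hcomp_mem A.internal c w) hv)
    · exact al0_of_mem h (b + a - n - 1) (by omega) _
        (A.graded a n b _ v (hcomp_mem A.internal a w) hv)
  have h2 : ∀ a : ℤ, pr A a w = 0 := by
    intro a
    have hm : pr A a w ∈ A.gr a := hcomp_mem A.internal a w
    have h3 := gen_isSub (adj h) a (pr A a w) hm
    rcases adj_simple h hR _ h3 with h4 | h4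
    · have h5 := self_mem_gen (adj h) (pr A a w)
      rwa [h4, Submodule.mem_bot] at h5
    · exfalso
      have h5 : ∀ y ∈ gen (adj h) (pr A a w), al0 A y = 0 := by
        intro y hy
        refine Submodule.span_induction (p := fun y _ => al0 A y = 0) ?_ ?_ ?_ ?_ hy
        · rintro y ⟨v, m, rfl⟩
          show al0 A (A.Y v m (pr A a w)) = 0
          refine hom_ind A (P := fun v => al0 A (A.Y v m (pr A a w)) = 0) v ?_ ?_ ?_
          · simp
          · intro x y hx hy
            have : A.Y (x + y) m (pr A a w) = A.Y x m (pr A a w) + A.Y y m (pr A a w) := by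
              rw [map_add]
              rfl
            rw [this, map_add, hx, hy, add_zero]
          intro b v hv
          rw [p3_al0_skew h, h1, mul_zero]
        · rw [map_zero]
        · intro a b _ _ ha hb
          rw [map_add, ha, hb, add_zero]
        · intro c a _ ha
          rw [map_smul, ha, smul_zero]
      have h6 := h5 A.vac (by rw [h4]; exact Submodule.mem_top)
      rw [al0_vac h] at h6
      exact one_ne_zero h6
  rw [← hcomp_sum A.internal w]
  have h3 : (fun n : ℤ => hcomp A.internal n w) = fun _ => 0 := funext h2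
  rw [h3, finsum_zero]

theorem exists_adj (h : CFT A) : ∃ X : AdmissibleModule A V, X.Y = A.Y ∧ X.gr = A.gr :=
  ⟨adj h, rfl, rfl⟩

/-- Subspaces stable under `L(0)` are graded. -/
theorem adj_graded (N : Submodule ℂ V) (hN : ∀ v ∈ N, A.Y A.om 1 v ∈ N) (s : Finset ℤ) :
    ∀ f : ℤ → V, (∀ n, f n ∈ A.gr n) → ∑ n ∈ s, f n ∈ N → ∀ n ∈ s, f n ∈ N := by
  induction s using Finset.induction_on with
  | empty => intro f _ _ n hn; simp at hn
  | insert m s hm ih =>
    intro f hf hs
    have h1 : ∑ n ∈ s, ((n : ℂ) - m) • f n ∈ N := by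
      have h2 := N.sub_mem (hN _ hs) (N.smul_mem (m : ℂ) hs)
      rw [map_sum, Finset.smul_sum, ← Finset.sum_sub_distrib, Finset.sum_insert hm] at h2
      have h3 : ∀ n, A.Y A.om 1 (f n) - (m : ℂ) • f n = ((n : ℂ) - m) • f n := by
        intro n
        rw [(A.mem_gr n (f n)).1 (hf n), sub_smul]
      rw [h3 m, sub_self, zero_smul, zero_add, Finset.sum_congr rfl (fun n _ => h3 n)] at h2
      exact h2
    have h4 : ∀ n ∈ s, f n ∈ N := by
      intro n hn
      have h5 := ih (fun n => ((n : ℂ) - m) • f n) (fun n => (A.gr n).smul_mem _ (hf n)) h1 n hn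
      have h6 : ((n : ℂ) - m) ≠ 0 := by
        rw [sub_ne_zero]
        intro h7
        have h8 : n = m := by exact_mod_cast h7
        exact hm (h8 ▸ hn)
      have h7 := N.smul_mem (((n : ℂ) - m)⁻¹) h5
      rwa [smul_smul, inv_mul_cancel₀ h6, one_smul] at h7
    intro n hn
    rw [Finset.mem_insert] at hn
    rcases hn with rfl | hn
    · rw [Finset.sum_insert hm] at hs
      exact (N.add_mem_iff_left (N.sum_mem h4)).1 hs
    · exact h4 n hn

/-- `V` is simple. -/
theorem simple (h : CFT A) (hr : A.Rational) (N : Submodule ℂ V)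
    (hN : ∀ (u : V) (n : ℤ) (v : V), v ∈ N → A.Y u n v ∈ N) : N = ⊥ ∨ N = ⊤ := by
  apply adj_simple h hr
  rw [(adj h).isSub_iff]
  refine ⟨hN, fun n x hx => ?_⟩
  have hfin := hcomp_fin A.internal x
  have h1 : ∑ n ∈ hfin.toFinset, hcomp A.internal n x = x := by
    conv_rhs => rw [← hcomp_sum A.internal x]
    rw [finsum_eq_sum_of_support_toFinset_subset _ hfin subset_rfl]
    rfl
  show hcomp A.internal n x ∈ N
  by_cases hn : n ∈ hfin.toFinset
  · exact adj_graded N (fun v hv => hN _ _ _ hv) hfin.toFinset (fun n => hcomp A.internal n x)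
      (fun n => hcomp_mem A.internal n x) (by rw [h1]; exact hx) n hn
  · have h2 : hcomp A.internal n x = 0 := by
      by_contra h3
      apply hn
      rw [Set.Finite.mem_toFinset]
      exact h3
    rw [h2]
    exact N.zero_mem

theorem adj_trace (h : CFT A) (f : Module.End ℂ V) (c : ℂ)
    (hf : pr A 0 (f A.vac) = c • A.vac) : trg (adj h) 0 f = c := by
  have hz : A.gr 0 = Submodule.span ℂ {A.vac} := h.zero
  have hfr : Module.finrank ℂ (A.gr 0) = 1 := by
    rw [hz]
    exact finrank_span_singleton h.nt
  unfold trg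
  have h1 : ((hcomp (adj h).internal 0) ∘ₗ f ∘ₗ ((adj h).gr 0).subtype).codRestrict ((adj h).gr 0)
      (fun _ => hcomp_mem (adj h).internal 0 _) = c • LinearMap.id := by
    apply LinearMap.ext
    rintro ⟨x, hx⟩
    apply Subtype.ext
    have hx2 : x ∈ Submodule.span ℂ {A.vac} := by
      rw [← hz]
      exact hx
    obtain ⟨d, rfl⟩ := Submodule.mem_span_singleton.1 hx2
    show hcomp A.internal 0 (f (d • A.vac)) = c • d • A.vac
    rw [map_smul, map_smul, smul_comm c d]
    congr 1
  have hfd : FiniteDimensional ℂ ((adj h).gr 0) := A.findim 0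
  rw [h1, map_smul, LinearMap.trace_id]
  have h2 : Module.finrank ℂ ((adj h).gr 0) = 1 := hfr
  rw [h2]
  simp

theorem exists_vac_tmod (h : CFT A) {D : Module.End ℂ V} (hD : IsDer A D) :
    ∃ t : TMod A D, t.h = 0 ∧ ∀ v, trg t.X 0 (zm t.X v) = al0 A v := by
  refine ⟨{ M := V, X := adj h, fd := A.findim, h := 0, L0 := ?_, DM := D,
            DM_gr := fun n x hx => D_gr hD n x hx, DM_der := fun u n x => hD.leib u n x },
    rfl, ?_⟩
  · intro n x hx
    rw [zero_add]
    exact (A.mem_gr n x).1 hx
  · intro v
    apply adj_trace h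
    refine hom_ind A (P := fun v => pr A 0 (zm (adj h) v A.vac) = al0 A v • A.vac) v ?_ ?_ ?_
    · rw [← zmL_apply, map_zero, map_zero, LinearMap.zero_apply, map_zero, zero_smul]
    · intro x y hx hy
      rw [← zmL_apply, map_add, LinearMap.add_apply, map_add, zmL_apply, zmL_apply, hx, hy, map_add,
        add_smul]
    · intro a x hx
      rw [zm_of_mem (adj h) a x hx]
      show pr A 0 (A.Y x (a - 1) A.vac) = _
      by_cases ha : a = 0
      · subst ha
        rw [show (0 : ℤ) - 1 = -1 by norm_num, A.creation_neg_one]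
        exact al0_spec h x
      · rw [al0_of_mem h a ha x hx, zero_smul]
        by_cases h1 : a < 0
        · rw [h.neg a h1, Submodule.mem_bot] at hx
          rw [hx, map_zero, Pi.zero_apply, LinearMap.zero_apply, map_zero]
        · rw [A.creation x (a - 1) (by omega), map_zero]

end Pool.Agent.DERVR
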