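import Pool.Agent.DERVR.RB

/-!
# Project DERV, part I: RC : levels
-/

set_option autoImplicit false

universe u w

open Finset

namespace Pool.Agent.DERVR

open Pool.Agent.VOAut Pool.Agent.DERV

variable {V : Type u} [AddCommGroup V] [Module ℂ V]

section RC

theorem rc_xne : (xL - 1 : LaurentSeries ℂ) ≠ 0 := by
  intro h
  have h1 := congrArg (fun f : LaurentSeries ℂ => f.coeff 1) h
  simp only [xL, HahnSeries.coeff_sub, HahnSeries.coeff_single_same, HahnSeries.coeff_zero] at h1
  rw [show (1 : LaurentSeries ℂ).coeff 1 = 0 from by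
    rw [HahnSeries.coeff_one, if_neg (by norm_num)]] at h1
  norm_num at h1

theorem rc_xLne : (xL : LaurentSeries ℂ) ≠ 0 := by
  unfold xL
  exact HahnSeries.single_ne_zero one_ne_zero

/-- `∑_i (-1)^(M-i) C(M,i) y^(n+i) (y-1)^(-M) = y^n`. -/
theorem rc_ident (n : ℤ) (M : ℕ) :
    ∑ i ∈ range (M + 1), cc ((-1 : ℂ) ^ (M - i) * ((M.choose i : ℕ) : ℂ)) * fy (n + i) M =
      xL ^ n := by
  have h1 : ∀ i ∈ range (M + 1), cc ((-1 : ℂ) ^ (M - i) * ((M.choose i : ℕ) : ℂ)) * fy (n + i) M =
      xL ^ n * ((xL ^ i * (-1) ^ (M - i) * ((M.choose i : ℕ) : LaurentSeries ℂ)) *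
        ((xL - 1)⁻¹) ^ M) := by
    intro i _
    unfold fy
    rw [zpow_add₀ rc_xLne, zpow_natCast]
    have : cc ((-1 : ℂ) ^ (M - i) * ((M.choose i : ℕ) : ℂ)) =
        (-1) ^ (M - i) * ((M.choose i : ℕ) : LaurentSeries ℂ) := by
      rw [map_mul, map_pow, map_neg, map_one, map_natCast]
    rw [this]
    ring
  rw [Finset.sum_congr rfl h1, ← Finset.mul_sum, ← Finset.sum_mul]
  have h2 : ∑ i ∈ range (M + 1), xL ^ i * (-1) ^ (M - i) * ((M.choose i : ℕ) : LaurentSeries ℂ) =
      (xL - 1) ^ M := by
    rw [sub_eq_add_neg, add_pow]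
  rw [h2, inv_pow, mul_inv_cancel₀ (pow_ne_zero _ rc_xne), mul_one]

theorem rc_test (n k d : ℤ) : ∃ F ∈ DgT d, F ∈ Finsupp.supported ℂ ℂ {p : ℤ × ℕ | n ≤ p.1} ∧
    ∀ s < k, (eyT F).coeff s = if s = n then 1 else 0 := by
  set N := (k - n).toNat with hN
  set M := N + (n + N - d).toNat with hM
  set c : ℕ → ℂ := fun i => (-1 : ℂ) ^ (M - i) * ((M.choose i : ℕ) : ℂ) with hc
  refine ⟨∑ i ∈ range N, c i • Finsupp.single (n + (i : ℤ), M) (1 : ℂ), ?_, ?_, ?_⟩
  · refine Submodule.sum_mem _ fun i hi => Submodule.smul_mem _ _ ?_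
    refine Finsupp.single_mem_supported ℂ _ ?_
    rw [Finset.mem_range] at hi
    show n + (i : ℤ) - (M : ℤ) ≤ d
    omega
  · refine Submodule.sum_mem _ fun i hi => Submodule.smul_mem _ _ ?_
    refine Finsupp.single_mem_supported ℂ _ ?_
    show n ≤ n + (i : ℤ)
    omega
  · intro s hs
    have h1 : eyT (∑ i ∈ range N, c i • Finsupp.single (n + (i : ℤ), M) (1 : ℂ)) =
        ∑ i ∈ range N, cc (c i) * fy (n + i) M := by
      rw [map_sum]
      refine Finset.sum_congr rfl fun i _ => ?_
      rw [map_smul, eyT, Finsupp.linearCombination_single, one_smul, cc_mul]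
    have h2 := congrArg (fun f : LaurentSeries ℂ => f.coeff s) (rc_ident n M)
    have h3 : (∑ i ∈ range (M + 1), cc (c i) * fy (n + i) M).coeff s =
        (∑ i ∈ range N, cc (c i) * fy (n + i) M).coeff s := by
      rw [HahnSeries.coeff_sum, HahnSeries.coeff_sum]
      symm
      refine Finset.sum_subset (Finset.range_subset_range.2 (by omega)) ?_
      intro i _ hi
      rw [Finset.mem_range, not_lt] at hi
      rw [coeff_cc_mul, fy_coeff, if_pos (by omega), mul_zero]
    rw [h1, ← h3]
    refine h2.trans ?_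
    show (xL ^ n : LaurentSeries ℂ).coeff s = _
    rw [xL_zpow, HahnSeries.coeff_single]
    split_ifs <;> rfl

theorem rc_hd (i : ℕ) (m : ℤ) (M : ℕ) :
    hdT i (Finsupp.single (m, M) 1) ∈ Finsupp.supported ℂ ℂ {p : ℤ × ℕ | m - i ≤ p.1} := by
  unfold hdT
  rw [Finsupp.linearCombination_single, one_smul]
  refine Submodule.sum_mem _ fun j hj => Submodule.smul_mem _ _ ?_
  refine Finsupp.single_mem_supported ℂ _ ?_
  rw [Finset.mem_range] at hj
  show m - (i : ℤ) ≤ m - (j : ℤ)
  omega

theorem rc_mul (x y : ℤ) (F G : TF) (hF : F ∈ Finsupp.supported ℂ ℂ {p : ℤ × ℕ | x ≤ p.1})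
    (hG : G ∈ Finsupp.supported ℂ ℂ {p : ℤ × ℕ | y ≤ p.1}) :
    mulT F G ∈ Finsupp.supported ℂ ℂ {p : ℤ × ℕ | x + y ≤ p.1} := by
  rw [Finsupp.mem_supported] at hF hG
  have hF' : F = F.sum fun p c => Finsupp.single p c := (Finsupp.sum_single F).symm
  have hG' : G = G.sum fun p c => Finsupp.single p c := (Finsupp.sum_single G).symm
  unfold mulT
  rw [Finsupp.linearCombination_apply, Finsupp.sum, LinearMap.sum_apply]
  refine Submodule.sum_mem _ fun p hp => ?_
  rw [LinearMap.smul_apply]
  refine Submodule.smul_mem _ _ ?_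
  rw [hG', Finsupp.sum, map_sum]
  refine Submodule.sum_mem _ fun q hq => ?_
  rw [Finsupp.lmapDomain_apply, Finsupp.mapDomain_single]
  refine Finsupp.single_mem_supported ℂ _ ?_
  have h1 : x ≤ p.1 := hF hp
  have h2 : y ≤ q.1 := hG hq
  show x + y ≤ (p + q).1
  rw [Prod.fst_add]
  omega

variable (A : VOA V)

theorem rc_kill (r a : ℤ) (v u : V) (hv : v ∈ A.gr a) (β : Module.Dual ℂ V) (hβ : β ∈ GG A r)
    (H : TF) (h1 : H ∈ DgT (a - 2)) (h2 : H ∈ Finsupp.supported ℂ ℂ {p : ℤ × ℕ | a + r ≤ p.1}) :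
    β (rs A (exT H) v u) = 0 := by
  unfold DgT at h1
  rw [Finsupp.mem_supported] at h1 h2
  rw [← rsL_apply, exT, Finsupp.linearCombination_apply, Finsupp.sum, map_sum,
    LinearMap.sum_apply, LinearMap.sum_apply, map_sum]
  refine Finset.sum_eq_zero fun p hp => ?_
  rw [map_smul, LinearMap.smul_apply, LinearMap.smul_apply, map_smul, rsL_apply,
    hβ a v hv u p.1 p.2 (h2 hp) (h1 hp), smul_zero]

theorem rc_finsum {W : Type*} [AddCommGroup W] [Module ℂ W] (β : Module.Dual ℂ W) (f : ℕ → W)
    (h : ∀ i, β (f i) = 0) : β (∑ᶠ i : ℕ, f i) = 0 := by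
  by_cases hf : (Function.support f).Finite
  · rw [finsum_eq_sum f hf, map_sum]
    exact Finset.sum_eq_zero fun i _ => h i
  · rw [finsum_of_infinite_support hf, map_zero]

theorem ac_level (r b n : ℤ) (w : V) (hw : w ∈ A.gr b) (β : Module.Dual ℂ V) (hβ : β ∈ GG A r) :
    ac A r b n w β ∈ GG A (r + b - n - 1) := by
  -- downward induction on `n`
  have key : ∀ j : ℕ, ∀ n : ℤ, b + r ≤ n + j → ac A r b n w β ∈ GG A (r + b - n - 1) := by
    intro j
    induction j using Nat.strong_induction_on with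
    | _ j ih =>
      intro n hn
      by_cases hge : b + r ≤ n
      · rw [ac_zero A r b n w hge, LinearMap.zero_apply]
        exact Submodule.zero_mem _
      · have hge' : n < b + r := not_le.1 hge
        intro a v hv u m M hm hM
        set K : ℕ := (a + r - m).toNat with hK
        have hK1 : a + r ≤ m + K := by omega
        set F : TF := Finsupp.single (m + K, M) 1 with hF
        have hexF : exT F = ft (m + K) M := by
          rw [hF, exT, Finsupp.linearCombination_single, one_smul]
        have hF1 : F ∈ DgT (a - 2 + K) := by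
          refine Finsupp.single_mem_supported ℂ _ ?_
          show m + (K : ℤ) - (M : ℤ) ≤ a - 2 + K
          omega
        have hF0 : ∀ s < a + r, (eyT F).coeff s = 0 := by
          intro s hs
          rw [hF, eyT, Finsupp.linearCombination_single, one_smul, fy_coeff, if_pos (by
            show s < m + (K : ℤ)
            omega)]
        obtain ⟨G, hG1, hG2, hG3⟩ := rc_test n (b + r) (b - 2)
        have tp := two_pt A r a b n K v w hv hw β hβ F G hF1 hF0 hG1 hG3 u
        rw [rc_finsum β _ ?_] at tp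
        · -- right side
          obtain ⟨N, hN⟩ : ∃ N : ℕ, (b + r - n).toNat = N + 1 :=
            ⟨(b + r - n).toNat - 1, by omega⟩
          rw [hN, Finset.sum_range_succ'] at tp
          rw [Finset.sum_eq_zero ?_, zero_add] at tp
          · rw [hexF, pft] at tp
            have e1 : (-(K : ℤ) - ((0 : ℕ) : ℤ)) = -(K : ℤ) := by simp
            rw [e1, show m + (K : ℤ) + -(K : ℤ) = m from by ring] at tp
            simpa using tp.symm
          · intro k hk
            rw [hexF, pft]
            have hlev := ih (j - (k + 1)) (by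
              have : 0 < j := by omega
              omega) (n + ((k + 1 : ℕ) : ℤ)) (by
              push_cast
              rw [Finset.mem_range] at hk
              omega)
            rw [hlev a v hv u (m + K + (-(K : ℤ) - ((k + 1 : ℕ) : ℤ))) M (by push_cast; omega)
              (by push_cast; omega), mul_zero]
        · intro i
          rw [← ex_hd, ← ex_mul]
          have hwt : A.Y v (-(K : ℤ) + i) w ∈ A.gr (b + a - (-(K : ℤ) + i) - 1) :=
            A.graded a _ b v w hv hw
          refine rc_kill A r _ _ u hwt β hβ _ ?_ ?_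
          · have h1 := mul_Dg _ _ _ _ (hd_Dg i _ F hF1) hG1
            refine Finsupp.supported_mono ?_ h1
            intro p hp
            have hp' : p.1 - (p.2 : ℤ) ≤ a - 2 + K - i + (b - 2) := hp
            show p.1 - (p.2 : ℤ) ≤ b + a - (-(K : ℤ) + i) - 1 - 2
            omega
          · have h1 := rc_mul _ _ _ _ (rc_hd i (m + K) M) hG2
            refine Finsupp.supported_mono ?_ h1
            intro p hp
            have hp' : m + (K : ℤ) - i + n ≤ p.1 := hp
            show b + a - (-(K : ℤ) + i) - 1 + r ≤ p.1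
            omega
  exact key (b + r - n).toNat n (by omega)

end RC

end Pool.Agent.DERVR
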