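import Pool.Agent.DERVR.SERI

/-!
# Project DERV, part I: SERT : test functions
-/

set_option autoImplicit false

universe u w

open Finset

namespace Pool.Agent.DERVR

open Pool.Agent.VOAut Pool.Agent.DERV

section SERT

theorem ft_mul (m m' : ℤ) (M M' : ℕ) : ft m M * ft m' M' = ft (m + m') (M + M') := by
  unfold ft
  rw [zpow_add₀ y_ne, pow_add]
  ring

theorem fy_mul (m m' : ℤ) (M M' : ℕ) : fy m M * fy m' M' = fy (m + m') (M + M') := by
  unfold fy
  rw [zpow_add₀ xL_ne, pow_add]
  ring

/-- `y^m x^(-M) = y^(m+1) x^(-M-1) - y^m x^(-M-1)`. -/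
theorem ft_rec (m : ℤ) (M : ℕ) : ft m M = ft (m + 1) (M + 1) - ft m (M + 1) := by
  unfold ft
  rw [zpow_add_one₀ y_ne, pow_succ]
  linear_combination (-(1 + xL) ^ m * (xL⁻¹) ^ M) * mul_inv_cancel₀ xL_ne

theorem xft (m : ℤ) (M i : ℕ) : xL ^ (-(i : ℤ)) * ft m M = ft m (M + i) := by
  unfold ft
  rw [zpow_neg, zpow_natCast, ← inv_pow, pow_add]
  ring

theorem pft (s m : ℤ) (M : ℕ) : (1 + xL) ^ s * ft m M = ft (m + s) M := by
  unfold ft
  rw [zpow_add₀ y_ne]
  ring

theorem sert_LD_w : LD 0 (1 - xL) := by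
  constructor
  · exact LD_one.1.sub (OG_xL.mono (by norm_num))
  · rw [HahnSeries.coeff_sub]
    unfold xL
    rw [HahnSeries.coeff_single_of_ne (by norm_num), sub_zero, HahnSeries.coeff_one, if_pos rfl]

theorem sert_w_ne : (1 - xL : LaurentSeries ℂ) ≠ 0 := sert_LD_w.ne

theorem sert_z_ne : (xL - 1 : LaurentSeries ℂ) ≠ 0 := by
  intro h
  apply sert_w_ne
  rw [← neg_sub, h, neg_zero]

theorem sert_cc_neg : cc (-1) = (-1 : LaurentSeries ℂ) := by
  rw [map_neg, map_one]

theorem sert_z_inv : (xL - 1 : LaurentSeries ℂ)⁻¹ = cc (-1) * (1 - xL)⁻¹ := by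
  apply inv_eq_of_mul_eq_one_right
  rw [sert_cc_neg]
  linear_combination mul_inv_cancel₀ sert_w_ne

theorem sert_OG_fy (m : ℤ) (M : ℕ) : OG m (fy m M) := by
  unfold fy
  have h1 : OG m (xL ^ m) := by
    rw [xL_zpow]
    exact OG_single m 1
  have h2 : OG 0 ((xL - 1)⁻¹ ^ M) := by
    rw [sert_z_inv, mul_pow, ← map_pow]
    have h3 := (sert_LD_w.inv.pow M).1
    refine OG.cc _ (h3.mono ?_)
    simp
  exact (h1.mul h2).mono (by omega)

theorem sert_fy_succ (m : ℤ) (M : ℕ) : (xL - 1) * fy m (M + 1) = fy m M := by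
  unfold fy
  rw [pow_succ]
  linear_combination (xL ^ m * (xL - 1)⁻¹ ^ M) * mul_inv_cancel₀ sert_z_ne

theorem sert_xc (f : LaurentSeries ℂ) (s : ℤ) : (xL * f).coeff s = f.coeff (s - 1) := by
  unfold xL
  rw [HahnSeries.coeff_single_mul, one_mul]

theorem fy_coeff (m : ℤ) (M : ℕ) (s : ℤ) : (fy m M).coeff s =
    if s < m then 0 else (-1 : ℂ) ^ M * (((M + (s - m).toNat - 1).choose (s - m).toNat : ℕ) : ℂ) := by
  split_ifs with hs
  · exact sert_OG_fy m M s hs
  obtain ⟨k, rfl⟩ : ∃ k : ℕ, s = m + k := ⟨(s - m).toNat, by omega⟩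
  have e : (m + (k : ℤ) - m).toNat = k := by omega
  rw [e]
  clear hs e
  induction M generalizing k with
  | zero =>
    unfold fy
    rw [pow_zero, mul_one, xL_zpow, pow_zero, one_mul]
    cases k with
    | zero => simp
    | succ k =>
      rw [HahnSeries.coeff_single_of_ne (by push_cast; omega), Nat.choose_eq_zero_of_lt (by omega)]
      simp
  | succ M ih =>
    induction k with
    | zero =>
      have h1 := ih 0
      rw [← sert_fy_succ, sub_mul, one_mul, HahnSeries.coeff_sub, sert_xc,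
        sert_OG_fy m (M + 1) _ (by push_cast; omega), zero_sub] at h1
      rw [← neg_neg ((fy m (M + 1)).coeff _), h1, pow_succ]
      simp
    | succ k ihk =>
      have h1 := ih (k + 1)
      rw [← sert_fy_succ, sub_mul, one_mul, HahnSeries.coeff_sub, sert_xc] at h1
      have e1 : m + ((k + 1 : ℕ) : ℤ) - 1 = m + k := by push_cast; ring
      rw [e1, ihk] at h1
      have e2 : M + (k + 1) - 1 = M + k := by omega
      have e3 : M + 1 + k - 1 = M + k := by omega
      have e4 : M + 1 + (k + 1) - 1 = (M + k) + 1 := by omega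
      rw [e2, e3, pow_succ] at h1
      rw [e4, Nat.choose_succ_succ', pow_succ, Nat.cast_add ((M + k).choose k)]
      linear_combination -h1

theorem sert_exT_single (p : ℤ × ℕ) (c : ℂ) : exT (Finsupp.single p c) = cc c * ft p.1 p.2 := by
  unfold exT
  rw [Finsupp.linearCombination_single, cc_mul]

theorem sert_eyT_single (p : ℤ × ℕ) (c : ℂ) : eyT (Finsupp.single p c) = cc c * fy p.1 p.2 := by
  unfold eyT
  rw [Finsupp.linearCombination_single, cc_mul]

theorem sert_mulT_single (p q : ℤ × ℕ) (c d : ℂ) :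
    mulT (Finsupp.single p c) (Finsupp.single q d) = Finsupp.single (p + q) (c * d) := by
  unfold mulT
  rw [Finsupp.linearCombination_single, LinearMap.smul_apply, Finsupp.lmapDomain_apply,
    Finsupp.mapDomain_single, Finsupp.smul_single, smul_eq_mul]

theorem ex_mul (F G : TF) : exT (mulT F G) = exT F * exT G := by
  induction F using Finsupp.induction_linear with
  | zero => simp only [map_zero, LinearMap.zero_apply, zero_mul]
  | add F F' h1 h2 => simp only [map_add, LinearMap.add_apply, h1, h2, add_mul]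
  | single p c =>
    induction G using Finsupp.induction_linear with
    | zero => simp only [map_zero, mul_zero]
    | add F F' h1 h2 => simp only [map_add, h1, h2, mul_add]
    | single q d =>
      rw [sert_mulT_single, sert_exT_single, sert_exT_single, sert_exT_single, map_mul,
        Prod.fst_add, Prod.snd_add, ← ft_mul]
      ring

theorem ey_mul (F G : TF) : eyT (mulT F G) = eyT F * eyT G := by
  induction F using Finsupp.induction_linear with
  | zero => simp only [map_zero, LinearMap.zero_apply, zero_mul]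
  | add F F' h1 h2 => simp only [map_add, LinearMap.add_apply, h1, h2, add_mul]
  | single p c =>
    induction G using Finsupp.induction_linear with
    | zero => simp only [map_zero, mul_zero]
    | add F F' h1 h2 => simp only [map_add, h1, h2, mul_add]
    | single q d =>
      rw [sert_mulT_single, sert_eyT_single, sert_eyT_single, sert_eyT_single, map_mul,
        Prod.fst_add, Prod.snd_add, ← fy_mul]
      ring

theorem sert_Dg_span (d : ℤ) : DgT d = Submodule.span ℂ
    ((fun p : ℤ × ℕ => (Finsupp.single p (1 : ℂ) : TF)) '' {p : ℤ × ℕ | p.1 - p.2 ≤ d}) :=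
  Finsupp.supported_eq_span_single ℂ _

theorem sert_single_mem (d : ℤ) (p : ℤ × ℕ) (c : ℂ) (h : p.1 - p.2 ≤ d) :
    (Finsupp.single p c : TF) ∈ DgT d :=
  Finsupp.single_mem_supported ℂ c h

theorem mul_Dg (d e : ℤ) (F G : TF) (hF : F ∈ DgT d) (hG : G ∈ DgT e) : mulT F G ∈ DgT (d + e) := by
  rw [sert_Dg_span] at hF hG
  induction hF using Submodule.span_induction with
  | zero => rw [map_zero, LinearMap.zero_apply]; exact Submodule.zero_mem _
  | add x y _ _ h1 h2 => rw [map_add, LinearMap.add_apply]; exact Submodule.add_mem _ h1 h2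
  | smul c x _ h1 => rw [map_smul, LinearMap.smul_apply]; exact Submodule.smul_mem _ c h1
  | mem x hx =>
    obtain ⟨p, hp, rfl⟩ := hx
    induction hG using Submodule.span_induction with
    | zero => rw [map_zero]; exact Submodule.zero_mem _
    | add x y _ _ h1 h2 => rw [map_add]; exact Submodule.add_mem _ h1 h2
    | smul c x _ h1 => rw [map_smul]; exact Submodule.smul_mem _ c h1
    | mem y hy =>
      obtain ⟨q, hq, rfl⟩ := hy
      simp only
      rw [sert_mulT_single]
      apply sert_single_mem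
      simp only [Set.mem_ofPred_eq] at hp hq
      rw [Prod.fst_add, Prod.snd_add]
      push_cast
      omega

/-- Hasse derivatives of integer powers of a series whose derivatives are those of `x + c`. -/
theorem sert_hd_zpow (P : LaurentSeries ℂ) (hP : P ≠ 0)
    (h1 : LaurentSeries.hasseDeriv ℂ 1 P = 1)
    (h2 : ∀ k : ℕ, 2 ≤ k → LaurentSeries.hasseDeriv ℂ k P = 0) (n : ℤ) (k : ℕ) :
    LaurentSeries.hasseDeriv ℂ k (P ^ n) = cc ((Ring.choose n k : ℤ) : ℂ) * P ^ (n - k) := by
  have h0 : ∀ f : LaurentSeries ℂ, LaurentSeries.hasseDeriv ℂ 0 f = f := by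
    intro f
    rw [LaurentSeries.hasseDeriv_zero]
    rfl
  have hs : ∀ (f : LaurentSeries ℂ) (k : ℕ), LaurentSeries.hasseDeriv ℂ (k + 1) (f * P) =
      LaurentSeries.hasseDeriv ℂ (k + 1) f * P + LaurentSeries.hasseDeriv ℂ k f := by
    intro f k
    rw [hd_mul, Finset.sum_range_succ, Finset.sum_range_succ, Finset.sum_eq_zero, zero_add]
    · have e1 : k + 1 - k = 1 := by omega
      have e2 : k + 1 - (k + 1) = 0 := by omega
      rw [e1, e2, h1, h0, mul_one, add_comm]
    · intro j hj
      rw [Finset.mem_range] at hj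
      rw [h2 _ (by omega), mul_zero]
  induction n generalizing k with
  | zero =>
    rw [zpow_zero]
    cases k with
    | zero => rw [h0]; simp
    | succ k =>
      rw [Ring.choose_zero_succ]
      ext i
      rw [LaurentSeries.hasseDeriv_coeff, HahnSeries.coeff_one]
      by_cases h : i + ((k + 1 : ℕ) : ℤ) = 0
      · rw [h, Ring.choose_zero_succ]
        simp
      · rw [if_neg h]
        simp
  | succ n ih =>
    cases k with
    | zero => rw [h0]; simp
    | succ k =>
      rw [zpow_add_one₀ hP, hs, ih, ih, Ring.choose_succ_succ]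
      have e1 : (n : ℤ) + 1 - ((k + 1 : ℕ) : ℤ) = n - k := by push_cast; ring
      have e2 : (P ^ ((n : ℤ) - ((k + 1 : ℕ) : ℤ))) * P = P ^ ((n : ℤ) - k) := by
        rw [← zpow_add_one₀ hP]
        congr 1
        push_cast
        ring
      rw [e1, mul_assoc, e2]
      push_cast
      rw [map_add]
      ring
  | pred n ih =>
    induction k with
    | zero => rw [h0]; simp
    | succ k ihk =>
      have h3 := hs (P ^ (-(n : ℤ) - 1)) k
      rw [← zpow_add_one₀ hP, sub_add_cancel, ih, ihk] at h3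
      apply mul_right_cancel₀ hP
      have h4 := Ring.choose_succ_succ (-(n : ℤ) - 1) k
      rw [sub_add_cancel] at h4
      rw [h4] at h3
      have e1 : -(n : ℤ) - ((k + 1 : ℕ) : ℤ) = -(n : ℤ) - 1 - k := by push_cast; ring
      have e2 : (P ^ (-(n : ℤ) - 1 - ((k + 1 : ℕ) : ℤ))) * P = P ^ (-(n : ℤ) - 1 - k) := by
        rw [← zpow_add_one₀ hP]
        congr 1
        push_cast
        ring
      rw [mul_assoc, e2]
      rw [e1] at h3
      push_cast at h3
      rw [map_add] at h3
      linear_combination -h3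

theorem sert_hd_xL_one : LaurentSeries.hasseDeriv ℂ 1 xL = 1 := by
  unfold xL
  rw [LaurentSeries.hasseDeriv_single]
  simp

theorem sert_choose_big (n : ℤ) (h0 : 0 ≤ n) (k : ℕ) (hk : n < k) : Ring.choose n k = 0 := by
  obtain ⟨m, rfl⟩ := Int.eq_ofNat_of_zero_le h0
  rw [Ring.choose_natCast, Nat.choose_eq_zero_of_lt (by exact_mod_cast hk)]
  rfl

theorem sert_hd_xL_ge (k : ℕ) (hk : 2 ≤ k) : LaurentSeries.hasseDeriv ℂ k xL = 0 := by
  unfold xL
  rw [LaurentSeries.hasseDeriv_single, sert_choose_big 1 (by norm_num) k (by exact_mod_cast hk)]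
  simp

theorem sert_hd_one (k : ℕ) (hk : 1 ≤ k) : LaurentSeries.hasseDeriv ℂ k (1 : LaurentSeries ℂ) = 0 := by
  have h : (1 : LaurentSeries ℂ) = HahnSeries.single 0 1 := rfl
  rw [h, LaurentSeries.hasseDeriv_single, sert_choose_big 0 le_rfl k (by exact_mod_cast hk)]
  simp

theorem sert_hd_y (m : ℤ) (k : ℕ) : LaurentSeries.hasseDeriv ℂ k ((1 + xL) ^ m) =
    cc ((Ring.choose m k : ℤ) : ℂ) * (1 + xL) ^ (m - k) := by
  apply sert_hd_zpow _ y_ne
  · rw [map_add, sert_hd_one 1 le_rfl, sert_hd_xL_one, zero_add]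
  · intro k hk
    rw [map_add, sert_hd_one k (by omega), sert_hd_xL_ge k hk, zero_add]

theorem sert_hd_z (m : ℤ) (k : ℕ) : LaurentSeries.hasseDeriv ℂ k ((xL - 1) ^ m) =
    cc ((Ring.choose m k : ℤ) : ℂ) * (xL - 1) ^ (m - k) := by
  apply sert_hd_zpow _ sert_z_ne
  · rw [map_sub, sert_hd_one 1 le_rfl, sert_hd_xL_one, sub_zero]
  · intro k hk
    rw [map_sub, sert_hd_one k (by omega), sert_hd_xL_ge k hk, sub_zero]

theorem sert_hd_x (m : ℤ) (k : ℕ) : LaurentSeries.hasseDeriv ℂ k (xL ^ m) =
    cc ((Ring.choose m k : ℤ) : ℂ) * xL ^ (m - k) :=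
  sert_hd_zpow _ xL_ne sert_hd_xL_one sert_hd_xL_ge m k

theorem sert_ft_zpow (m : ℤ) (M : ℕ) : ft m M = (1 + xL) ^ m * xL ^ (-(M : ℤ)) := by
  unfold ft
  rw [zpow_neg, zpow_natCast, ← inv_pow]

theorem sert_fy_zpow (m : ℤ) (M : ℕ) : fy m M = xL ^ m * (xL - 1) ^ (-(M : ℤ)) := by
  unfold fy
  rw [zpow_neg, zpow_natCast, ← inv_pow]

theorem sert_hdT_single (i : ℕ) (p : ℤ × ℕ) (c : ℂ) :
    hdT i (Finsupp.single p c) = ∑ j ∈ range (i + 1), (Finsupp.single
      (p.1 - (j : ℤ), p.2 + (i - j)) (c * (((Ring.choose p.1 j : ℤ) : ℂ) *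
      ((Ring.choose (-(p.2 : ℤ)) (i - j) : ℤ) : ℂ))) : TF) := by
  unfold hdT
  rw [Finsupp.linearCombination_single, Finset.smul_sum]
  apply Finset.sum_congr rfl
  intro j _
  rw [smul_smul, Finsupp.smul_single, smul_eq_mul, mul_one]

theorem ex_hd (i : ℕ) (F : TF) : exT (hdT i F) = LaurentSeries.hasseDeriv ℂ i (exT F) := by
  induction F using Finsupp.induction_linear with
  | zero => simp only [map_zero]
  | add F F' h1 h2 => simp only [map_add, h1, h2]
  | single p c =>
    rw [sert_hdT_single, map_sum, sert_exT_single, seri_hd_cc_mul, sert_ft_zpow, hd_mul,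
      Finset.mul_sum]
    apply Finset.sum_congr rfl
    intro j hj
    rw [Finset.mem_range] at hj
    rw [sert_exT_single, sert_hd_y, sert_hd_x, sert_ft_zpow, map_mul, map_mul]
    have e : (-(p.2 : ℤ) - ((i - j : ℕ) : ℤ)) = -((p.2 + (i - j) : ℕ) : ℤ) := by push_cast; ring
    rw [e]
    ring

theorem ey_hd (i : ℕ) (F : TF) : eyT (hdT i F) = LaurentSeries.hasseDeriv ℂ i (eyT F) := by
  induction F using Finsupp.induction_linear with
  | zero => simp only [map_zero]
  | add F F' h1 h2 => simp only [map_add, h1, h2]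
  | single p c =>
    rw [sert_hdT_single, map_sum, sert_eyT_single, seri_hd_cc_mul, sert_fy_zpow, hd_mul,
      Finset.mul_sum]
    apply Finset.sum_congr rfl
    intro j hj
    rw [Finset.mem_range] at hj
    rw [sert_eyT_single, sert_hd_z, sert_hd_x, sert_fy_zpow, map_mul, map_mul]
    have e : (-(p.2 : ℤ) - ((i - j : ℕ) : ℤ)) = -((p.2 + (i - j) : ℕ) : ℤ) := by push_cast; ring
    rw [e]
    ring

theorem hd_Dg (i : ℕ) (d : ℤ) (F : TF) (hF : F ∈ DgT d) : hdT i F ∈ DgT (d - i) := by
  rw [sert_Dg_span] at hF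
  induction hF using Submodule.span_induction with
  | zero => rw [map_zero]; exact Submodule.zero_mem _
  | add x y _ _ h1 h2 => rw [map_add]; exact Submodule.add_mem _ h1 h2
  | smul c x _ h1 => rw [map_smul]; exact Submodule.smul_mem _ c h1
  | mem x hx =>
    obtain ⟨p, hp, rfl⟩ := hx
    simp only
    rw [sert_hdT_single]
    apply Submodule.sum_mem
    intro j hj
    rw [Finset.mem_range] at hj
    apply sert_single_mem
    simp only [Set.mem_ofPred_eq] at hp
    simp only
    omega

/-- Approximation of `y ^ m` up to order `k` by test functions of arbitrarily small degree. -/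
theorem exists_test (m k d : ℤ) : ∃ F ∈ DgT d, ∀ s < k, (eyT F).coeff s = if s = m then 1 else 0 := by
  set K : ℕ := (k - m).toNat with hK
  set M : ℕ := K + (m + K - d).toNat with hM
  set P : LaurentSeries ℂ := ∑ i ∈ range K, cc ((-1) ^ i * ((M.choose i : ℕ) : ℂ)) *
    xL ^ (i : ℤ) with hP
  refine ⟨∑ i ∈ range K, (Finsupp.single (m + (i : ℤ), M)
    ((-1) ^ M * ((-1) ^ i * ((M.choose i : ℕ) : ℂ))) : TF), ?_, ?_⟩
  · apply Submodule.sum_mem
    intro i hi
    rw [Finset.mem_range] at hi
    apply sert_single_mem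
    simp only
    omega
  · intro s hs
    have h1 : eyT (∑ i ∈ range K, (Finsupp.single (m + (i : ℤ), M)
        ((-1) ^ M * ((-1) ^ i * ((M.choose i : ℕ) : ℂ))) : TF)) =
        xL ^ m * ((1 - xL)⁻¹ ^ M * P) := by
      rw [map_sum, hP, Finset.mul_sum, Finset.mul_sum]
      apply Finset.sum_congr rfl
      intro i _
      rw [sert_eyT_single]
      unfold fy
      have e1 : cc ((-1) ^ M) * cc (-1) ^ M = 1 := by
        rw [← map_pow, ← map_mul, ← mul_pow]; simp
      rw [sert_z_inv, mul_pow, zpow_add₀ xL_ne, map_mul]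
      linear_combination (xL ^ m * xL ^ (i : ℤ) * (1 - xL)⁻¹ ^ M *
        cc ((-1) ^ i * ((M.choose i : ℕ) : ℂ))) * e1
    have h2 : OG K ((1 - xL) ^ M - P) := by
      have e1 : (1 - xL : LaurentSeries ℂ) ^ M = ∑ i ∈ range (M + 1),
          cc ((-1) ^ i * ((M.choose i : ℕ) : ℂ)) * xL ^ (i : ℤ) := by
        have e2 : (1 - xL : LaurentSeries ℂ) = cc (-1) * xL + 1 := by
          rw [sert_cc_neg]; ring
        rw [e2, add_pow]
        apply Finset.sum_congr rfl
        intro i _
        rw [one_pow, mul_one, mul_pow, zpow_natCast, map_mul, map_pow, map_natCast]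
        ring
      rw [e1, hP, ← Finset.sum_range_add_sum_Ico _ (show K ≤ M + 1 by omega),
        add_sub_cancel_left]
      apply OG.sum
      intro i hi
      rw [Finset.mem_Ico] at hi
      apply OG.cc
      rw [xL_zpow]
      exact (OG_single (i : ℤ) 1).mono (by exact_mod_cast hi.1)
    have h3 : OG (m + K) (xL ^ m * ((1 - xL)⁻¹ ^ M * P) - xL ^ m) := by
      have e1 : xL ^ m * ((1 - xL)⁻¹ ^ M * P) - xL ^ m =
          xL ^ m * ((1 - xL)⁻¹ ^ M * -((1 - xL) ^ M - P)) := by
        have e2 : (1 - xL : LaurentSeries ℂ)⁻¹ ^ M * (1 - xL) ^ M = 1 := by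
          rw [← mul_pow, inv_mul_cancel₀ sert_w_ne, one_pow]
        linear_combination (xL ^ m) * e2
      rw [e1]
      have h4 : OG m (xL ^ m) := by
        rw [xL_zpow]
        exact OG_single m 1
      have h5 : OG 0 ((1 - xL : LaurentSeries ℂ)⁻¹ ^ M) :=
        (sert_LD_w.inv.pow M).1.mono (by simp)
      exact (h4.mul (h5.mul h2.neg)).mono (by omega)
    have h4 := h3 s (by omega)
    rw [HahnSeries.coeff_sub, sub_eq_zero] at h4
    rw [h1, h4, xL_zpow]
    by_cases h : s = m
    · subst h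
      rw [if_pos rfl, HahnSeries.coeff_single_same]
    · rw [if_neg h, HahnSeries.coeff_single_of_ne h]

end SERT

end Pool.Agent.DERVR
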