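import Pool.Agent.DERVR.FDA
import Pool.Agent.DERVR.SERT

/-!
# Project DERV, part I: FDB : `𝒢_r` is finite dimensional
-/

set_option autoImplicit false

universe u w

open Finset

namespace Pool.Agent.DERVR

open Pool.Agent.VOAut Pool.Agent.DERV

variable {V : Type u} [AddCommGroup V] [Module ℂ V]

section FDB

variable {A : VOA V}

/-- Graded version of `CC`. -/
def fdbT (A : VOA V) (M : ℕ) (n : ℤ) : Submodule ℂ V :=
  Submodule.span ℂ {x : V | ∃ (a b : ℤ) (p q : V), p ∈ A.gr a ∧ q ∈ A.gr b ∧
      a + b + M - 1 = n ∧ x = A.Y p (-(M : ℤ)) q}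

theorem fdb_proj (M : ℕ) (n : ℤ) (x : V) (hx : x ∈ CC A M) : pr A n x ∈ fdbT A M n := by
  unfold CC at hx
  induction hx using Submodule.span_induction with
  | mem x hx =>
    obtain ⟨u, v, rfl⟩ := hx
    refine hom_ind A (P := fun u => ∀ v, pr A n (A.Y u (-(M : ℤ)) v) ∈ fdbT A M n) u ?_ ?_ ?_ v
    · intro v
      rw [map_zero, Pi.zero_apply, LinearMap.zero_apply, map_zero]
      exact Submodule.zero_mem _
    · intro x y hx hy v
      rw [map_add, Pi.add_apply, LinearMap.add_apply, map_add]
      exact Submodule.add_mem _ (hx v) (hy v)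
    · intro a p hp v
      refine hom_ind A (P := fun v => pr A n (A.Y p (-(M : ℤ)) v) ∈ fdbT A M n) v ?_ ?_ ?_
      · rw [map_zero, map_zero]
        exact Submodule.zero_mem _
      · intro x y hx hy
        rw [map_add, map_add]
        exact Submodule.add_mem _ hx hy
      · intro b q hq
        have h1 := A.graded a (-(M : ℤ)) b p q hp hq
        show hcomp A.internal n (A.Y p (-(M : ℤ)) q) ∈ fdbT A M n
        rw [hcomp_of_mem A.internal n _ _ h1]
        split_ifs with h
        · exact Submodule.subset_span ⟨a, b, p, q, hp, hq, by omega, rfl⟩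
        · exact Submodule.zero_mem _
  | zero => rw [map_zero]; exact Submodule.zero_mem _
  | add x y _ _ hx hy => rw [map_add]; exact Submodule.add_mem _ hx hy
  | smul c x _ hx => rw [map_smul]; exact Submodule.smul_mem _ _ hx

theorem fdb_ld (m : ℤ) (M : ℕ) : LD (-(M : ℤ)) (ft m M) := by
  have h := (LD_y_zpow m).mul (LD_xL.inv.pow M)
  have e : (0 : ℤ) + (M : ℤ) * -1 = -(M : ℤ) := by ring
  rw [e] at h
  exact h

/-- The vectors killed by `𝒢_r`. -/
def fdbK (A : VOA V) (M : ℕ) : Submodule ℂ V :=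
  Submodule.span ℂ {x : V | ∃ (a : ℤ) (v u : V), v ∈ A.gr a ∧ x = rs A (ft (a + M - 2) M) v u}

theorem fdb_lead (M : ℕ) (S : Submodule ℂ V) (hK : fdbK A M ≤ S) (a b : ℤ) (p q : V)
    (hp : p ∈ A.gr a) (hq : q ∈ A.gr b) (hS : ∀ m < a + b + M - 1, A.gr m ≤ S) :
    A.Y p (-(M : ℤ)) q ∈ S := by
  have h1 : rs A (ft (a + M - 2) M) p q ∈ S := hK (Submodule.subset_span ⟨a, p, q, hp, rfl⟩)
  have hld := fdb_ld (a + M - 2) M
  set f := ft (a + M - 2) M with hf
  have h2 : rs A f p q = A.Y p (-(M : ℤ)) q + rs A (f - HahnSeries.single (-(M : ℤ)) 1) p q := by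
    have e1 := rs_add_f A (HahnSeries.single (-(M : ℤ)) 1) (f - HahnSeries.single (-(M : ℤ)) 1) p q
    rw [rs_single, one_smul, add_sub_cancel] at e1
    exact e1
  have h3 : rs A (f - HahnSeries.single (-(M : ℤ)) 1) p q ∈ S := by
    unfold rs
    apply finsum_induction (fun y => y ∈ S) S.zero_mem (fun y z => S.add_mem)
    intro i
    by_cases hi : i ≤ -(M : ℤ)
    · have h4 : (f - HahnSeries.single (-(M : ℤ)) 1).coeff i = 0 := by
        rw [HahnSeries.coeff_sub]
        rcases lt_or_eq_of_le hi with h5 | h5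
        · rw [hld.1 i h5, HahnSeries.coeff_single_of_ne (ne_of_lt h5), sub_zero]
        · rw [h5, hld.2, HahnSeries.coeff_single_same, sub_self]
      rw [h4, zero_smul]
      exact S.zero_mem
    · apply S.smul_mem
      exact hS _ (by omega) (A.graded a i b p q hp hq)
  rw [h2] at h1
  exact (S.add_mem_iff_left h3).1 h1

theorem fdb_span (hc : C2 A) (M : ℕ) (hM : 2 ≤ M) : ∃ N : ℤ, ∀ S : Submodule ℂ V,
    fdbK A M ≤ S → (∀ m < N, A.gr m ≤ S) → S = ⊤ := by
  obtain ⟨N, hN⟩ := CC_large hc M hM
  refine ⟨N, fun S hK hS => ?_⟩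
  have h1 : ∀ k : ℕ, ∀ m < N + k, A.gr m ≤ S := by
    intro k
    induction k with
    | zero =>
      intro m hm
      exact hS m (by simpa using hm)
    | succ k ih =>
      intro m hm
      by_cases hm1 : m < N + k
      · exact ih m hm1
      · have hm2 : m = N + k := by push_cast at hm; omega
        intro x hx
        have h2 : x ∈ CC A M := hN m (by omega) hx
        have h3 := fdb_proj M m x h2
        have hpx : pr A m x = x := by
          show hcomp A.internal m x = x
          rw [hcomp_of_mem A.internal m m x hx, if_pos rfl]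
        rw [hpx] at h3
        have h4 : fdbT A M m ≤ S := by
          unfold fdbT
          rw [Submodule.span_le]
          rintro y ⟨a, b, p, q, hp, hq, hab, rfl⟩
          exact fdb_lead M S hK a b p q hp hq (fun m' hm' => ih m' (by omega))
        exact h4 h3
  rw [eq_top_iff, ← A.internal.submodule_iSup_eq_top]
  apply iSup_le
  intro n
  exact h1 (n - N + 1).toNat n (by omega)

theorem GG_findim (h : CFT A) (hc : C2 A) (r : ℤ) : FiniteDimensional ℂ (GG A r) := by
  set M : ℕ := (max r 0).toNat + 2 with hM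
  obtain ⟨N, hN⟩ := fdb_span hc M (by omega)
  haveI : ∀ n, FiniteDimensional ℂ (A.gr n) := A.findim
  set W : Submodule ℂ V := (Finset.Ico (0 : ℤ) N).sup A.gr with hW
  haveI : FiniteDimensional ℂ W := by
    rw [hW]
    exact Submodule.finiteDimensional_finset_sup _ _
  have hgr : ∀ m < N, A.gr m ≤ W := by
    intro m hm
    by_cases h0 : m < 0
    · rw [h.neg m h0]
      exact bot_le
    · exact Finset.le_sup (f := A.gr) (Finset.mem_Ico.2 ⟨not_lt.1 h0, hm⟩)
  have hker : ∀ β ∈ GG A r, ∀ x ∈ fdbK A M, β x = 0 := by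
    intro β hβ x hx
    unfold fdbK at hx
    induction hx using Submodule.span_induction with
    | mem x hx =>
      obtain ⟨a, v, u, hv, rfl⟩ := hx
      exact hβ a v hv u _ M (by rw [hM]; push_cast; omega) (by omega)
    | zero => rw [map_zero]
    | add x y _ _ hx hy => rw [map_add, hx, hy, add_zero]
    | smul c x _ hx => rw [map_smul, hx, smul_zero]
  let φ : GG A r →ₗ[ℂ] Module.Dual ℂ W := (W.subtype.dualMap) ∘ₗ (GG A r).subtype
  apply FiniteDimensional.of_injective φ
  rw [← LinearMap.ker_eq_bot, LinearMap.ker_eq_bot']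
  intro β hβ
  have h1 : ∀ x ∈ W, (β : Module.Dual ℂ V) x = 0 := by
    intro x hx
    exact congrArg (fun g : Module.Dual ℂ W => g ⟨x, hx⟩) hβ
  have h2 : fdbK A M ⊔ W = ⊤ := hN _ le_sup_left (fun m hm => (hgr m hm).trans le_sup_right)
  apply Subtype.ext
  apply LinearMap.ext
  intro x
  have hx : x ∈ fdbK A M ⊔ W := by rw [h2]; exact Submodule.mem_top
  obtain ⟨y, hy, z, hz, rfl⟩ := Submodule.mem_sup.1 hx
  rw [map_add, hker _ β.2 y hy, h1 z hz, add_zero]
  rfl

theorem reg_findim (h : CFT A) (hc : C2 A) (X : AdmissibleModule A (RM A)) (hX : IsReg A X)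
    (r : ℤ) : Module.Finite ℂ (X.gr r) := by
  haveI := GG_findim h hc r
  let φ : X.gr r →ₗ[ℂ] GG A r :=
    { toFun := fun y => ⟨rv A y.1 r, rv_mem A y.1 r⟩
      map_add' := fun x y => by
        apply Subtype.ext
        show rv A (x.1 + y.1) r = rv A x.1 r + rv A y.1 r
        rw [map_add]
        rfl
      map_smul' := fun c x => by
        apply Subtype.ext
        show rv A (c • x.1) r = c • rv A x.1 r
        rw [map_smul]
        rfl }
  apply Module.Finite.of_injective φ
  intro x y hxy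
  have h1 : rv A x.1 r = rv A y.1 r := congrArg Subtype.val hxy
  apply Subtype.ext
  apply rv_inj A
  rw [(hX.gr r x.1).1 x.2, (hX.gr r y.1).1 y.2, h1]

end FDB

end Pool.Agent.DERVR
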