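import Pool.Agent.DERVR.RDefs
import Pool.Agent.DERV.BRV

/-!
# Project DERV, part I: GSUB : generated submodules of admissible modules
-/

set_option autoImplicit false

universe u w

open Finset

namespace Pool.Agent.DERVR

open Pool.Agent.VOAut Pool.Agent.DERV

variable {V : Type u} [AddCommGroup V] [Module ℂ V]

section GSUB

variable {A : VOA V} {M : Type u} [AddCommGroup M] [Module ℂ M] (X : AdmissibleModule A M)

theorem gsub_mem (U : Submodule ℂ M) (v : V) (n : ℤ) (y : M) (hy : y ∈ U) :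
    X.Y v n y ∈ gsub X U :=
  Submodule.subset_span ⟨v, n, y, hy, rfl⟩

theorem le_gsub (U : Submodule ℂ M) : U ≤ gsub X U := by
  intro x hx
  have h := gsub_mem X U A.vac (-1) x hx
  rwa [X.vacuum, if_pos rfl] at h

/-- Products of two modes acting on `x` reduce to single modes. -/
theorem gsub_two (U : Submodule ℂ M) (x : M) (hx : x ∈ U) (u v : V) (m n : ℤ) :
    X.Y u m (X.Y v n x) ∈ gsub X U := by
  obtain ⟨N, hN⟩ := X.trunc v x
  obtain ⟨K, hK⟩ := X.trunc u x
  have key : ∀ (d : ℕ) (n : ℤ), N ≤ n + d → ∀ m : ℤ, X.Y u m (X.Y v n x) ∈ gsub X U := by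
    intro d
    induction d with
    | zero =>
      intro n hn m
      rw [hN n (by simpa using hn), map_zero]
      exact zero_mem _
    | succ d ih =>
      intro n hn m
      have h1 := X.jacobi u v x (m - K) K n
      have h2 : (∑ᶠ i : ℕ, ((Ring.choose K i : ℤ) : ℂ) • X.Y (A.Y u (m - K + i) v) (K + n - i) x) ∈
          gsub X U :=
        finsum_induction (· ∈ gsub X U) (zero_mem _) (fun _ _ ha hb => add_mem ha hb)
          (fun i => Submodule.smul_mem _ _ (gsub_mem X U _ _ _ hx))
      rw [h1] at h2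
      have h3 : ∀ i : ℕ, ((-1 : ℂ) ^ i * ((Ring.choose (m - K) i : ℤ) : ℂ)) •
          (X.Y u (K + (m - K) - i) (X.Y v (n + i) x) -
            (-1 : ℂ) ^ (m - K) • X.Y v (n + (m - K) - i) (X.Y u (K + i) x)) =
          ((-1 : ℂ) ^ i * ((Ring.choose (m - K) i : ℤ) : ℂ)) •
            X.Y u (m - i) (X.Y v (n + i) x) := by
        intro i
        have e1 : K + (m - K) - i = m - i := by ring
        rw [hK (K + i) (by omega), map_zero, smul_zero, sub_zero, e1]
      rw [finsum_congr h3] at h2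
      rw [finsum_eq_sum_of_support_subset (s := Finset.range ((N - n).toNat + 1)) _ (by
        intro i hi
        rw [Function.mem_support] at hi
        rw [Finset.coe_range, Set.mem_Iio]
        by_contra hc
        apply hi
        rw [hN (n + i) (by omega), map_zero, smul_zero]), Finset.sum_range_succ'] at h2
      have h4 : (∑ k ∈ Finset.range (N - n).toNat,
          ((-1 : ℂ) ^ (k + 1) * ((Ring.choose (m - K) (k + 1) : ℤ) : ℂ)) •
            X.Y u (m - ((k + 1 : ℕ) : ℤ)) (X.Y v (n + ((k + 1 : ℕ) : ℤ)) x)) ∈ gsub X U := by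
        refine sum_mem fun k _ => Submodule.smul_mem _ _ ?_
        apply ih
        push_cast at hn ⊢
        omega
      have h5 := (Submodule.add_mem_iff_right _ h4).1 h2
      simpa using h5
  obtain ⟨d, hd⟩ : ∃ d : ℕ, N ≤ n + d := ⟨(N - n).toNat, by omega⟩
  exact key d n hd m

/-- Products of modes reduce to single modes, so `gsub` is stable. -/
theorem gsub_stable (U : Submodule ℂ M) (v : V) (n : ℤ) (x : M) (hx : x ∈ gsub X U) :
    X.Y v n x ∈ gsub X U := by
  refine Submodule.span_induction (p := fun x _ => X.Y v n x ∈ gsub X U) ?_ ?_ ?_ ?_ hx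
  · rintro x ⟨w, m, y, hy, rfl⟩
    exact gsub_two X U y hy v w n m
  · rw [map_zero]
    exact zero_mem _
  · intro a b _ _ ha hb
    rw [map_add]
    exact add_mem ha hb
  · intro c a _ ha
    rw [map_smul]
    exact Submodule.smul_mem _ _ ha

/-- Homogeneous components of elements of `gsub`. -/
theorem gsub_hcomp (U : Submodule ℂ M) (i : ℤ) (hU : U ≤ X.gr i) (j : ℤ) (x : M)
    (hx : x ∈ gsub X U) :
    hcomp X.internal j x ∈ Submodule.span ℂ {z | ∃ (a : ℤ) (v : V) (y : M), v ∈ A.gr a ∧ y ∈ U ∧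
      z = X.Y v (a - 1 + (i - j)) y} := by
  refine Submodule.span_induction (p := fun x _ => hcomp X.internal j x ∈
    Submodule.span ℂ {z | ∃ (a : ℤ) (v : V) (y : M), v ∈ A.gr a ∧ y ∈ U ∧
      z = X.Y v (a - 1 + (i - j)) y}) ?_ ?_ ?_ ?_ hx
  · rintro x ⟨v, n, y, hy, rfl⟩
    refine hom_ind A (P := fun v => hcomp X.internal j (X.Y v n y) ∈
      Submodule.span ℂ {z | ∃ (a : ℤ) (v : V) (y : M), v ∈ A.gr a ∧ y ∈ U ∧
        z = X.Y v (a - 1 + (i - j)) y}) v ?_ ?_ ?_
    · rw [map_zero]
      simp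
    · intro a b ha hb
      rw [map_add]
      show hcomp X.internal j (X.Y a n y + X.Y b n y) ∈ _
      rw [map_add]
      exact add_mem ha hb
    intro a v hv
    rw [hcomp_of_mem X.internal j _ _ (X.graded a n i v y hv (hU hy))]
    split_ifs with hj
    · refine Submodule.subset_span ⟨a, v, y, hv, hy, ?_⟩
      have e : n = a - 1 + (i - j) := by omega
      rw [← e]
    · exact zero_mem _
  · rw [map_zero]
    exact zero_mem _
  · intro a b _ _ ha hb
    rw [map_add]
    exact add_mem ha hb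
  · intro c a _ ha
    rw [map_smul]
    exact Submodule.smul_mem _ _ ha

theorem gsub_isSub (U : Submodule ℂ M) (i : ℤ) (hU : U ≤ X.gr i) : X.IsSub (gsub X U) := by
  rw [X.isSub_iff]
  refine ⟨fun u n x hx => gsub_stable X U u n x hx, ?_⟩
  intro j x hx
  refine Submodule.span_le.2 ?_ (gsub_hcomp X U i hU j x hx)
  rintro z ⟨a, v, y, _, hy, rfl⟩
  exact gsub_mem X U _ _ _ hy

/-- The piece of degree `j` of the submodule generated by a subspace of degree `i`. -/
theorem gsub_gr (U : Submodule ℂ M) (i : ℤ) (hU : U ≤ X.gr i) (j : ℤ) (x : M)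
    (hx : x ∈ gsub X U) (hj : x ∈ X.gr j) :
    x ∈ Submodule.span ℂ {z | ∃ (a : ℤ) (v : V) (y : M), v ∈ A.gr a ∧ y ∈ U ∧
      z = X.Y v (a - 1 + (i - j)) y} := by
  have h := gsub_hcomp X U i hU j x hx
  rwa [hcomp_of_mem X.internal j j x hj, if_pos rfl] at h

/-- If the zero modes preserve `U ≤ gr i`, the piece of degree `i` of `gsub U` is `U`. -/
theorem gsub_top (U : Submodule ℂ M) (i : ℤ) (hU : U ≤ X.gr i)
    (hst : ∀ v, ∀ y ∈ U, zm X v y ∈ U) : gsub X U ⊓ X.gr i = U := by
  apply le_antisymm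
  · rintro x ⟨hx, hj⟩
    refine Submodule.span_le.2 ?_ (gsub_gr X U i hU i x hx hj)
    rintro z ⟨a, v, y, hv, hy, rfl⟩
    have h := hst v y hy
    rw [zm_of_mem X a v hv] at h
    rw [sub_self, add_zero]
    exact h
  · exact le_inf (le_gsub X U) hU

theorem gsub_le (U N : Submodule ℂ M) (hN : X.IsSub N) (hU : U ≤ N) : gsub X U ≤ N := by
  refine Submodule.span_le.2 ?_
  rintro z ⟨v, n, y, hy, rfl⟩
  exact hN.1 v n y (hU hy)

/-- Irreducible submodules are generated by any nonzero homogeneous vector. -/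
theorem irr_gen (N : Submodule ℂ M) (hN : X.IsIrr N) (i : ℤ) (x : M) (hx : x ∈ N) (hi : x ∈ X.gr i)
    (h0 : x ≠ 0) : gsub X (Submodule.span ℂ {x}) = N := by
  have h1 : Submodule.span ℂ {x} ≤ X.gr i := (Submodule.span_singleton_le_iff_mem x _).2 hi
  have h2 : Submodule.span ℂ {x} ≤ N := (Submodule.span_singleton_le_iff_mem x _).2 hx
  rcases hN.2.2 _ (gsub_le X _ N hN.1 h2) (gsub_isSub X _ i h1) with h | h
  · exfalso
    apply h0
    have h3 := le_gsub X (Submodule.span ℂ {x}) (Submodule.mem_span_singleton_self x)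
    rwa [h, Submodule.mem_bot] at h3
  · exact h

/-- The piece of degree `0` of an irreducible submodule is irreducible for the zero modes. -/
theorem irr_top (N : Submodule ℂ M) (hN : X.IsIrr N) (W : Submodule ℂ M) (hW : W ≤ N ⊓ X.gr 0)
    (hst : ∀ v, ∀ y ∈ W, zm X v y ∈ W) : W = ⊥ ∨ W = N ⊓ X.gr 0 := by
  by_cases h0 : W = ⊥
  · exact Or.inl h0
  · right
    have h1 : W ≤ X.gr 0 := hW.trans inf_le_right
    rcases hN.2.2 _ (gsub_le X W N hN.1 (hW.trans inf_le_left)) (gsub_isSub X W 0 h1) with h | h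
    · exfalso
      apply h0
      rw [eq_bot_iff, ← h]
      exact le_gsub X W
    · rw [← h, gsub_top X W 0 h1 hst]

end GSUB

end Pool.Agent.DERVR
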