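import Pool.Agent.DERVR.RA
import Pool.Agent.DERV.BRV

/-!
# Project DERV, part I: RH : levels 0 and 1 of the regular representation
-/

set_option autoImplicit false

universe u w

open Finset

namespace Pool.Agent.DERVR

open Pool.Agent.VOAut Pool.Agent.DERV

variable {V : Type u} [AddCommGroup V] [Module ℂ V]

section RH

variable {A : VOA V}

theorem rh_pho (a : ℤ) : (1 + xL) ^ (a - 1) * pho = ft a 2 := by
  unfold pho ft
  rw [mul_assoc (1 + xL), ← mul_assoc, ← zpow_add_one₀ y_ne, sub_add_cancel, pow_two]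

theorem rh_succ (m : ℤ) (M : ℕ) : ft (m + 1) (M + 1) = ft m (M + 1) + ft m M := by
  rw [ft_rec m M]
  ring

theorem rh_coeff (m : ℤ) (M : ℕ) (i : ℤ) : (ft m M).coeff i =
    if i + M < 0 then 0 else ((Ring.choose m (i + M).toNat : ℤ) : ℂ) := by
  have e : ft m M = xL ^ (-(M : ℤ)) * (1 + xL) ^ m := by
    unfold ft
    rw [zpow_neg, zpow_natCast, inv_pow, mul_comm]
  rw [e, xmul_coeff, pw_coeff]
  have e2 : i - -(M : ℤ) = i + M := by ring
  rw [e2]

theorem rh_rs_sub (f g : LaurentSeries ℂ) (u v : V) :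
    rs A (f - g) u v = rs A f u v - rs A g u v := by
  rw [← rsL_apply, ← rsL_apply, ← rsL_apply, map_sub, LinearMap.sub_apply, LinearMap.sub_apply]

theorem rh_rs_cc (c : ℂ) (f : LaurentSeries ℂ) (u v : V) :
    rs A (cc c * f) u v = c • rs A f u v := by
  rw [cc_mul, rs_smul_f]

theorem rh_dL (m : ℤ) (M : ℕ) : dL (ft m M) = cc (m : ℂ) * ft (m - 1) M -
    cc (M : ℂ) * ft m (M + 1) := by
  have e : ∀ N : ℕ, ft m N = (1 + xL) ^ m * xL ^ (-(N : ℤ)) := by
    intro N
    unfold ft
    rw [zpow_neg, zpow_natCast, inv_pow]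
  have e' : ft (m - 1) M = (1 + xL) ^ (m - 1) * xL ^ (-(M : ℤ)) := by
    unfold ft
    rw [zpow_neg, zpow_natCast, inv_pow]
  rw [e, e', e, dL_mul, dL_y_zpow, dL_zpow _ xL_ne, dL_xL, mul_one]
  have e3 : -(M : ℤ) - 1 = -((M + 1 : ℕ) : ℤ) := by push_cast; ring
  rw [e3]
  push_cast
  rw [map_neg]
  ring

theorem rh_step (β : Module.Dual ℂ V) (h : ∀ u v, β (WW A pho u v) = 0) (k : ℕ) :
    ∀ (a : ℤ) (v : V), v ∈ A.gr a → ∀ u, β (rs A (ft a (2 + k)) v u) = 0 := by
  induction k with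
  | zero =>
    intro a v hv u
    have h1 := h v u
    rw [WW_of_mem A _ a v u hv, rh_pho] at h1
    exact h1
  | succ k ih =>
    intro a v hv u
    have hL : A.Y A.om 0 v ∈ A.gr (a + 1) := by
      have := A.graded 2 0 a A.om v (om_mem A) hv
      have e : a + 2 - 0 - 1 = a + 1 := by ring
      rwa [e] at this
    have h1 := ih (a + 1) _ hL u
    rw [rs_L1, rh_dL, map_neg, rh_rs_sub, rh_rs_cc, rh_rs_cc, add_sub_cancel_right, map_sub,
      map_smul, map_smul, ih a v hv u, smul_zero, zero_sub, neg_neg] at h1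
    have h2 : rs A (ft (a + 1) (2 + k + 1)) v u = rs A (ft a (2 + k + 1)) v u +
        rs A (ft a (2 + k)) v u := by
      rw [rh_succ, rs_add_f]
    rw [h2, map_add, ih a v hv u, add_zero, smul_eq_mul] at h1
    have h3 : (((2 + k : ℕ) : ℕ) : ℂ) ≠ 0 := by
      norm_cast
      omega
    rcases mul_eq_zero.1 h1 with h4 | h4
    · exact absurd h4 h3
    · exact h4

theorem rh_all (β : Module.Dual ℂ V) (h : ∀ u v, β (WW A pho u v) = 0) (a : ℤ) (v : V)
    (hv : v ∈ A.gr a) (u : V) (j : ℕ) : ∀ k : ℕ, β (rs A (ft (a + j) (j + 2 + k)) v u) = 0 := by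
  induction j with
  | zero =>
    intro k
    have := rh_step β h k a v hv u
    rw [Nat.cast_zero, add_zero, zero_add]
    exact this
  | succ j ih =>
    intro k
    have e : ft (a + ((j + 1 : ℕ) : ℤ)) (j + 1 + 2 + k) =
        ft (a + j) (j + 2 + (k + 1)) + ft (a + j) (j + 2 + k) := by
      have h1 := rh_succ (a + j) (j + 2 + k)
      have e1 : a + ((j + 1 : ℕ) : ℤ) = a + j + 1 := by push_cast; ring
      have e2 : j + 1 + 2 + k = j + 2 + k + 1 := by ring
      have e3 : j + 2 + (k + 1) = j + 2 + k + 1 := by ring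
      rw [e1, e2, e3]
      exact h1
    rw [e, rs_add_f, map_add, ih (k + 1), ih k, add_zero]

theorem mem_GG0 (β : Module.Dual ℂ V) : β ∈ GG A 0 ↔ ∀ u v, β (WW A pho u v) = 0 := by
  constructor
  · intro hβ u v
    refine hom_ind A (P := fun u => β (WW A pho u v) = 0) u ?_ ?_ ?_
    · rw [← WWL_apply, map_zero, LinearMap.zero_apply]
      simp
    · intro x y hx hy
      rw [WW_add_u, map_add, hx, hy, add_zero]
    · intro a x hx
      rw [WW_of_mem A _ a x v hx, rh_pho]
      exact hβ a x hx v a 2 (by omega) (by push_cast; omega)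
  · intro h a v hv u m M h1 h2
    obtain ⟨j, hj⟩ : ∃ j : ℕ, m = a + j := ⟨(m - a).toNat, by omega⟩
    obtain ⟨k, hk⟩ : ∃ k : ℕ, M = j + 2 + k := ⟨M - (j + 2), by omega⟩
    rw [hj, hk]
    exact rh_all β h a v hv u j k

theorem rh_al0_rs (h : CFT A) (f : LaurentSeries ℂ) (a b : ℤ) (u v : V) (hu : u ∈ A.gr a)
    (hv : v ∈ A.gr b) : al0 A (rs A f u v) = f.coeff (a + b - 1) * al0 A (A.Y u (a + b - 1) v) := by
  have hfin := rs_fin A f u v
  unfold rs
  rw [finsum_eq_sum_of_support_subset (s := hfin.toFinset ∪ {a + b - 1}) _ (by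
    intro i hi
    simp only [Finset.coe_union, Set.mem_union, Set.Finite.coe_toFinset]
    exact Or.inl hi), map_sum, Finset.sum_eq_single (a + b - 1)]
  · rw [map_smul, smul_eq_mul]
  · intro i _ hi
    rw [map_smul, al0_of_mem h (b + a - i - 1) (by omega) _ (A.graded a i b u v hu hv), smul_zero]
  · intro h'
    exact absurd (by simp) h'

theorem rh_neg (h : CFT A) (a : ℤ) (ha : a < 0) (u : V) (hu : u ∈ A.gr a) : u = 0 := by
  rw [h.neg a ha] at hu
  exact (Submodule.mem_bot ℂ).1 hu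

theorem al0_mem (h : CFT A) : al0 A ∈ GG A 0 := by
  rw [mem_GG0]
  intro u v
  refine hom_ind A (P := fun u => al0 A (WW A pho u v) = 0) u ?_ ?_ ?_
  · rw [← WWL_apply, map_zero, LinearMap.zero_apply]
    simp
  · intro x y hx hy
    rw [WW_add_u, map_add, hx, hy, add_zero]
  · intro a x hx
    refine hom_ind A (P := fun v => al0 A (WW A pho x v) = 0) v ?_ ?_ ?_
    · rw [← WWL_apply, map_zero, map_zero]
    · intro y z hy hz
      rw [WW_add_v, map_add, hy, hz, add_zero]
    · intro b y hy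
      rw [WW_of_mem A _ a x y hx, rh_pho, rh_al0_rs h _ a b x y hx hy, rh_coeff]
      rcases lt_or_ge a 0 with ha | ha
      · rw [rh_neg h a ha x hx, map_zero, Pi.zero_apply, LinearMap.zero_apply, map_zero, mul_zero]
      rcases lt_or_ge b 0 with hb | hb
      · rw [rh_neg h b hb y hy, map_zero, map_zero, mul_zero]
      rw [if_neg (by push_cast; omega)]
      obtain ⟨n, rfl⟩ : ∃ n : ℕ, a = n := ⟨a.toNat, by omega⟩
      rw [Ring.choose_natCast, Nat.choose_eq_zero_of_lt (by push_cast; omega)]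
      simp

theorem rh_ac0 (a : ℤ) (v : V) (β : Module.Dual ℂ V) (u : V) :
    ac A 0 a (a - 1) v β u = β (rs A (ft (a - 1) 1) v u) := by
  rw [ac_apply]
  have e1 : (a + 0 - (a - 1)).toNat = 1 := by
    have : a + 0 - (a - 1) = 1 := by ring
    rw [this]
    rfl
  rw [e1, Finset.sum_range_one]
  simp

theorem rh_ac1 (a : ℤ) (v : V) (β : Module.Dual ℂ V) (u : V) :
    ac A 1 a a v β u = -(β (rs A (ft a 2) v u)) := by
  rw [ac_apply]
  have e1 : (a + 1 - a).toNat = 1 := by
    have : a + 1 - a = 1 := by ring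
    rw [this]
    rfl
  rw [e1, Finset.sum_range_one]
  have e2 : ((1 : ℤ) + 1).toNat = 2 := rfl
  rw [e2]
  simp

theorem rh_vac (m : ℤ) (v : V) : rs A (ft m 1) v A.vac = v := by
  unfold rs
  rw [finsum_eq_single _ (-1)]
  · rw [A.creation_neg_one, rh_coeff, if_neg (by norm_num)]
    simp
  · intro i hi
    rcases lt_or_ge i 0 with h | h
    · rw [rh_coeff, if_pos (by push_cast; omega), zero_smul]
    · rw [A.creation v i h, smul_zero]

theorem reg_zm (X : AdmissibleModule A (RM A)) (hX : IsReg A X) (y : RM A) (hy : y ∈ X.gr 0)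
    (v : V) : rv A (zm X v y) 0 A.vac = rv A y 0 v := by
  rw [← zmL_apply]
  refine hom_ind A (P := fun v => rv A (zmL X v y) 0 A.vac = rv A y 0 v) v ?_ ?_ ?_
  · simp
  · intro a b ha hb
    rw [map_add, LinearMap.add_apply, map_add, Finsupp.add_apply, LinearMap.add_apply, ha, hb,
      map_add]
  · intro a x hx
    rw [zmL_apply, zm_of_mem X a x hx,
      hX.act a 0 (a - 1) x (rv A y 0) y hx ((hX.gr 0 y).1 hy)]
    have e : 0 + a - (a - 1) - 1 = 0 := by ring
    rw [e, Finsupp.single_eq_same, rh_ac0, rh_vac]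

theorem reg_one (X : AdmissibleModule A (RM A)) (hX : IsReg A X) (y : RM A) (hy : y ∈ X.gr 1)
    (a : ℤ) (v : V) (hv : v ∈ A.gr a) (u : V) :
    rv A (X.Y v a y) 0 u = -(rv A y 1 (rs A ((1 + xL) ^ a * xL ^ (-2 : ℤ)) v u)) := by
  rw [hX.act a 1 a v (rv A y 1) y hv ((hX.gr 1 y).1 hy)]
  have e : 1 + a - a - 1 = 0 := by ring
  rw [e, Finsupp.single_eq_same, rh_ac1]
  have e2 : ft a 2 = (1 + xL) ^ a * xL ^ (-2 : ℤ) := by
    unfold ft
    rw [inv_pow]
    rfl
  rw [e2]

theorem rh_al0_ac (h : CFT A) (a : ℤ) (v : V) (hv : v ∈ A.gr a) :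
    ac A 0 a (a - 1) v (al0 A) = al0 A v • al0 A := by
  ext u
  rw [rh_ac0, LinearMap.smul_apply, smul_eq_mul]
  refine hom_ind A (P := fun u => al0 A (rs A (ft (a - 1) 1) v u) = al0 A v * al0 A u) u ?_ ?_ ?_
  · rw [← rsL_apply, map_zero, map_zero, mul_zero]
  · intro x y hx hy
    rw [rs_add_v, map_add, hx, hy, map_add, mul_add]
  · intro b x hx
    rw [rh_al0_rs h _ a b v x hv hx, rh_coeff]
    rcases lt_trichotomy a 0 with ha | ha | ha
    · rw [rh_neg h a ha v hv, map_zero, Pi.zero_apply, LinearMap.zero_apply, map_zero, mul_zero,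
        zero_mul]
    · subst ha
      have h0 := hv
      rw [h.zero] at h0
      obtain ⟨c, rfl⟩ := Submodule.mem_span_singleton.1 h0
      rw [map_smul, Pi.smul_apply, LinearMap.smul_apply, A.vacuum, map_smul, map_smul,
        al0_vac h]
      by_cases hb : b = 0
      · subst hb
        have e1 : ¬ ((0 : ℤ) + 0 - 1 + ((1 : ℕ) : ℤ) < 0) := by norm_num
        have e2 : (0 : ℤ) + 0 - 1 = -1 := by norm_num
        rw [if_neg e1, if_pos e2]
        simp
      · have e2 : ¬ ((0 : ℤ) + b - 1 = -1) := by omega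
        rw [if_neg e2, map_zero, al0_of_mem h b hb x hx]
        simp
    · rcases lt_or_ge b 0 with hb | hb
      · rw [rh_neg h b hb x hx, map_zero, map_zero, mul_zero, mul_zero]
      rw [if_neg (by push_cast; omega), al0_of_mem h a (by omega) v hv, zero_mul]
      obtain ⟨n, hn⟩ : ∃ n : ℕ, a - 1 = n := ⟨(a - 1).toNat, by omega⟩
      rw [hn, Ring.choose_natCast, Nat.choose_eq_zero_of_lt (by push_cast; omega)]
      simp

/-- `al0` spans a submodule of degree zero for the zero modes. -/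
theorem reg_al0 (h : CFT A) (X : AdmissibleModule A (RM A)) (hX : IsReg A X) (y : RM A)
    (hy : rv A y = Finsupp.single 0 (al0 A)) (v : V) :
    zm X v y = al0 A v • y := by
  rw [← zmL_apply]
  refine hom_ind A (P := fun v => zmL X v y = al0 A v • y) v ?_ ?_ ?_
  · simp
  · intro a b ha hb
    rw [map_add, LinearMap.add_apply, ha, hb, map_add, add_smul]
  · intro a x hx
    apply rv_inj A
    rw [zmL_apply, zm_of_mem X a x hx, hX.act a 0 (a - 1) x (al0 A) y hx hy, map_smul, hy,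
      rh_al0_ac h a x hx]
    have e : 0 + a - (a - 1) - 1 = 0 := by ring
    rw [e, Finsupp.smul_single]

/-- Zero modes vanish exactly on the vectors on which all elements of `𝒢_0` vanish. -/
theorem reg_ker (X : AdmissibleModule A (RM A)) (hX : IsReg A X) (v : V)
    (hv : ∀ y ∈ X.gr 0, zm X v y = 0) (β : Module.Dual ℂ V) (hβ : β ∈ GG A 0) : β v = 0 := by
  obtain ⟨y, hy⟩ := rv_surj A (Finsupp.single 0 β) (by
    intro r
    by_cases hr : r = 0
    · subst hr
      rw [Finsupp.single_eq_same]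
      exact hβ
    · rw [Finsupp.single_eq_of_ne hr]
      exact (GG A r).zero_mem)
  have h0 : y ∈ X.gr 0 := by
    rw [hX.gr 0 y, hy, Finsupp.single_eq_same]
  have h1 := reg_zm X hX y h0 v
  rw [hv y h0, hy, Finsupp.single_eq_same, map_zero (rv A)] at h1
  exact h1.symm

end RH

end Pool.Agent.DERVR
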