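import Pool.Agent.DERVR.SERI
import Pool.Agent.DERV.BRV
import Pool.Agent.DERV.TRM

/-!
# Project DERV, part I: ZA : zero modes on the lowest piece
-/

set_option autoImplicit false

universe u w

open Finset

namespace Pool.Agent.DERVR

open Pool.Agent.VOAut Pool.Agent.DERV

variable {V : Type u} [AddCommGroup V] [Module ℂ V]

section ZA

variable {A : VOA V} {M : Type u} [AddCommGroup M] [Module ℂ M] (X : AdmissibleModule A M)

/-- Bilinear induction over homogeneous vectors. -/
theorem za_ind (P : V → V → Prop) (h0 : ∀ v, P 0 v) (h0' : ∀ u, P u 0)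
    (hadd : ∀ x y v, P x v → P y v → P (x + y) v)
    (hadd' : ∀ u x y, P u x → P u y → P u (x + y))
    (hh : ∀ (a b : ℤ) (u v : V), u ∈ A.gr a → v ∈ A.gr b → P u v) (u v : V) : P u v := by
  refine hom_ind A (P := fun u => P u v) u (h0 v) (fun x y => hadd x y v) ?_
  intro a x hx
  refine hom_ind A (P := fun v => P x v) v (h0' x) (fun y z => hadd' x y z) ?_
  intro b y hy
  exact hh a b x y hx hy

theorem zm_star (u v : V) (x : M) (hx : x ∈ X.gr 0) :
    zm X (WW A phs u v) x = zm X u (zm X v x) := by
  refine za_ind (A := A) (fun u v => zm X (WW A phs u v) x = zm X u (zm X v x))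
    ?_ ?_ ?_ ?_ ?_ u v
  · intro v
    rw [← zmL_apply, ← WWL_apply, ← zmL_apply X 0]
    simp
  · intro u
    rw [← zmL_apply, ← WWL_apply, ← zmL_apply X 0]
    simp
  · intro y z v h1 h2
    simp only [← zmL_apply, ← WWL_apply] at h1 h2 ⊢
    rw [map_add, LinearMap.add_apply, map_add, map_add, LinearMap.add_apply, h1, h2,
      LinearMap.add_apply]
  · intro y z v h1 h2
    simp only [← zmL_apply, ← WWL_apply] at h1 h2 ⊢
    rw [map_add, map_add, map_add, LinearMap.add_apply, LinearMap.add_apply, h1, h2, map_add]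
  · intro a b u v hu hv
    have h := zm_phs X a b u v hu hv 0 x (by exact_mod_cast hx)
    rw [h]
    simp

theorem zm_circ (u v : V) (x : M) (hx : x ∈ X.gr 0) : zm X (WW A pho u v) x = 0 := by
  refine za_ind (A := A) (fun u v => zm X (WW A pho u v) x = 0)
    ?_ ?_ ?_ ?_ ?_ u v
  · intro v
    rw [← zmL_apply, ← WWL_apply]
    simp
  · intro u
    rw [← zmL_apply, ← WWL_apply]
    simp
  · intro y z v h1 h2
    simp only [← zmL_apply, ← WWL_apply] at h1 h2 ⊢
    rw [map_add, LinearMap.add_apply, map_add, LinearMap.add_apply, h1, h2, add_zero]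
  · intro y z v h1 h2
    simp only [← zmL_apply, ← WWL_apply] at h1 h2 ⊢
    rw [map_add, map_add, LinearMap.add_apply, h1, h2, add_zero]
  · intro a b u v hu hv
    have h := zm_pho X a b u v hu hv 0 x (by exact_mod_cast hx)
    rw [h]
    simp

theorem zm_zero (u v : V) (x : M) (hx : x ∈ X.gr 0) :
    zm X (WW A 1 u v) x = zm X u (zm X v x) - zm X v (zm X u x) := by
  have _ := hx
  refine za_ind (A := A) (fun u v => zm X (WW A 1 u v) x = zm X u (zm X v x) - zm X v (zm X u x))
    ?_ ?_ ?_ ?_ ?_ u v
  · intro v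
    rw [← zmL_apply, ← WWL_apply, ← zmL_apply X 0]
    simp
  · intro u
    rw [← zmL_apply, ← WWL_apply, ← zmL_apply X 0]
    simp
  · intro y z v h1 h2
    simp only [← zmL_apply, ← WWL_apply] at h1 h2 ⊢
    rw [map_add, LinearMap.add_apply, map_add, map_add, LinearMap.add_apply, h1, h2,
      LinearMap.add_apply, LinearMap.add_apply, map_add]
    abel
  · intro y z v h1 h2
    simp only [← zmL_apply, ← WWL_apply] at h1 h2 ⊢
    rw [map_add, map_add, map_add, LinearMap.add_apply, LinearMap.add_apply, h1, h2, map_add,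
      LinearMap.add_apply]
    abel
  · intro a b u v hu hv
    have h := zm_comm X a b 0 u v hu hv x
    rw [zpow_zero] at h
    rw [← h, zm_of_mem X a u hu, zm_of_mem X b v hv, add_zero, sub_zero]

theorem zm_vac (x : M) : zm X A.vac x = x := by
  rw [zm_of_mem X 0 A.vac (vac_mem A), X.vacuum, if_pos (by norm_num)]

end ZA

end Pool.Agent.DERVR
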