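import Pool.Agent.DERVR.RDefs

/-!
# Project DERV, part I: ZB : linear algebra, a basis containing a given vector from a spanning family
-/

set_option autoImplicit false

universe u w

open Finset

namespace Pool.Agent.DERVR

open Pool.Agent.VOAut Pool.Agent.DERV

section ZB

theorem exists_basis_of_span {F : Type*} [AddCommGroup F] [Module ℂ F] (T : Submodule ℂ F)
    {ι : Type*} (f : ι → F) (hT : T ≤ Submodule.span ℂ (Set.range f)) (hf : ∀ i, f i ∈ T)
    (hfin : FiniteDimensional ℂ T) (x : F) (hx : x ∈ T) (hx0 : x ≠ 0) :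
    ∃ (n : ℕ) (g : Fin (n + 1) → F), g 0 = x ∧ (∀ j, j ≠ 0 → ∃ i, g j = f i) ∧
      LinearIndependent ℂ g ∧ T ≤ Submodule.span ℂ (Set.range g) := by
  classical
  have hs : LinearIndepOn ℂ (id : F → F) {x} := by
    rw [linearIndepOn_singleton_iff]
    exact hx0
  obtain ⟨b, hb1, hb2, hb3, hb4⟩ := exists_linearIndepOn_extension (v := (id : F → F)) hs
    (t := insert x (Set.range f)) (by
      intro y hy
      rw [Set.mem_singleton_iff] at hy
      rw [hy]
      exact Set.mem_insert _ _)
  have hbT : ∀ y ∈ b, y ∈ T := by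
    intro y hy
    rcases hb1 hy with h | ⟨i, rfl⟩
    · rw [h]; exact hx
    · exact hf i
  have hbfin : b.Finite := by
    have h1 : LinearIndependent ℂ (fun y : b => (⟨y.1, hbT y.1 y.2⟩ : T)) := by
      have h2 : LinearIndependent ℂ (fun y : b => (y : F)) := hb4
      exact LinearIndependent.of_comp T.subtype h2
    exact Set.finite_coe_iff.1 h1.finite
  have hxb : x ∈ b := hb2 rfl
  obtain ⟨n, e, he⟩ : ∃ (n : ℕ) (e : Fin n ≃ ((b \ {x} : Set F))), True := by
    have : Finite ((b \ {x} : Set F)) := Set.finite_coe_iff.2 (hbfin.subset Set.sdiff_subset)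
    obtain ⟨n, ⟨e⟩⟩ := Finite.exists_equiv_fin ((b \ {x} : Set F))
    exact ⟨n, e.symm, trivial⟩
  refine ⟨n, Fin.cons x (fun j => (e j).1), rfl, ?_, ?_, ?_⟩
  · intro j hj
    obtain ⟨k, rfl⟩ := Fin.exists_succ_eq.2 hj
    rw [Fin.cons_succ]
    rcases hb1 (e k).2.1 with h | ⟨i, hi⟩
    · exact absurd h (e k).2.2
    · exact ⟨i, hi.symm⟩
  · have h1 : LinearIndependent ℂ (fun y : b => (y : F)) := hb4
    have h2 : (Fin.cons x (fun j => (e j).1) : Fin (n + 1) → F) =
        (fun y : b => (y : F)) ∘ (Fin.cons ⟨x, hxb⟩ (fun j => ⟨(e j).1, (e j).2.1⟩)) := by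
      funext j
      refine Fin.cases ?_ (fun k => ?_) j
      · rfl
      · rfl
    rw [h2]
    apply h1.comp
    rw [Fin.cons_injective_iff]
    refine ⟨?_, ?_⟩
    · rintro ⟨k, hk⟩
      exact (e k).2.2 (congrArg Subtype.val hk)
    · intro k l hkl
      apply e.injective
      apply Subtype.ext
      exact congrArg (fun y : b => (y : F)) hkl
  · refine hT.trans ?_
    rw [Submodule.span_le]
    rintro y ⟨i, rfl⟩
    have h1 : f i ∈ Submodule.span ℂ b := by
      have h2 := hb3 ⟨f i, Set.mem_insert_of_mem _ ⟨i, rfl⟩, rfl⟩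
      simpa using h2
    refine Submodule.span_mono ?_ h1
    intro y hy
    by_cases hyx : y = x
    · exact ⟨0, by rw [hyx]; rfl⟩
    · refine ⟨(e.symm ⟨y, hy, hyx⟩).succ, ?_⟩
      rw [Fin.cons_succ, e.apply_symm_apply]

end ZB

section ZBaux

variable {Y : Type*} [AddCommGroup Y] [Module ℂ Y] [FiniteDimensional ℂ Y] {ι : Type*}

/-- a stable subspace as a submodule over the algebra -/
def zbSub (A : Subalgebra ℂ (Module.End ℂ Y)) (U : Submodule ℂ Y)
    (h : ∀ a ∈ A, ∀ x ∈ U, a x ∈ U) : Submodule A Y where
  carrier := U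
  add_mem' := fun hx hy => U.add_mem hx hy
  zero_mem' := U.zero_mem
  smul_mem' := fun a x hx => h a.1 a.2 x hx

/-- an algebra of endomorphisms of a finite dimensional space which is a sum of irreducible
stable subspaces is semisimple -/
theorem zb_semisimple (A : Subalgebra ℂ (Module.End ℂ Y)) (U : ι → Submodule ℂ Y)
    (hst : ∀ i, ∀ a ∈ A, ∀ x ∈ U i, a x ∈ U i)
    (hirr : ∀ i (T : Submodule ℂ Y), T ≤ U i → (∀ a ∈ A, ∀ x ∈ T, a x ∈ T) → T = ⊥ ∨ T = U i)
    (htop : ⨆ i, U i = ⊤) : IsSemisimpleRing A := by
  classical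
  have hU : ∀ i, IsSemisimpleModule A (zbSub A (U i) (hst i)) := by
    intro i
    by_cases h0 : zbSub A (U i) (hst i) = ⊥
    · rw [h0]
      have : Subsingleton (Submodule A (⊥ : Submodule A Y)) :=
        (Submodule.subsingleton_iff A).2 inferInstance
      exact (isSemisimpleModule_iff A _).mpr Subsingleton.instComplementedLattice
    · have : IsSimpleModule A (zbSub A (U i) (hst i)) := by
        rw [isSimpleModule_iff_isAtom]
        refine ⟨h0, fun T hT => ?_⟩
        let T' : Submodule ℂ Y :=
          { carrier := T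
            add_mem' := fun hx hy => T.add_mem hx hy
            zero_mem' := T.zero_mem
            smul_mem' := fun c x hx => by
              have := T.smul_mem (algebraMap ℂ A c) hx
              exact this }
        have hT' : T' ≤ U i := fun x hx => hT.le hx
        rcases hirr i T' hT' (fun a ha x hx => T.smul_mem (⟨a, ha⟩ : A) hx) with h | h
        · rw [eq_bot_iff]
          intro x hx
          have : x ∈ T' := hx
          rw [h] at this
          exact this
        · exfalso
          refine hT.not_ge ?_
          intro x hx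
          have hx' : x ∈ U i := hx
          rw [← h] at hx'
          exact hx'
      infer_instance
  have hY : IsSemisimpleModule A Y := by
    refine isSemisimpleModule_of_isSemisimpleModule_submodule' hU ?_
    rw [eq_top_iff]
    intro x _
    have hx : x ∈ (⊤ : Submodule ℂ Y) := trivial
    rw [← htop] at hx
    refine Submodule.iSup_induction U (motive := fun x => x ∈ ⨆ i, zbSub A (U i) (hst i)) hx
      ?_ ?_ ?_
    · intro i y hy
      exact (le_iSup (fun i => zbSub A (U i) (hst i)) i) (show y ∈ zbSub A (U i) (hst i) from hy)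
    · exact Submodule.zero_mem _
    · intro y z hy hz
      exact Submodule.add_mem _ hy hz
  let b := Module.finBasis ℂ Y
  let φ : A →ₗ[A] (Fin (Module.finrank ℂ Y) → Y) :=
    LinearMap.pi (fun j => LinearMap.toSpanSingleton A Y (b j))
  refine IsSemisimpleModule.of_injective φ ?_
  rw [injective_iff_map_eq_zero]
  intro a ha
  apply Subtype.ext
  apply b.ext
  intro j
  have := congrFun ha j
  exact this

/-- choice of an independent subfamily -/
theorem zb_indep (U : ι → Submodule ℂ Y)
    (hdis : ∀ (J : Finset ι) i, U i ≤ J.sup U ∨ Disjoint (U i) (J.sup U))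
    (htop : ⨆ i, U i = ⊤) : ∃ J : Finset ι, J.SupIndep U ∧ J.sup U = ⊤ := by
  classical
  have key : ∀ (n : ℕ) (J : Finset ι), J.SupIndep U →
      Module.finrank ℂ Y - Module.finrank ℂ (J.sup U : Submodule ℂ Y) = n →
      ∃ J : Finset ι, J.SupIndep U ∧ J.sup U = ⊤ := by
    intro n
    induction n using Nat.strong_induction_on with
    | _ n ih =>
      intro J hJ hn
      by_cases h : J.sup U = ⊤
      · exact ⟨J, hJ, h⟩
      · obtain ⟨i, hi⟩ : ∃ i, ¬ U i ≤ J.sup U := by
          by_contra hc
          push Not at hc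
          apply h
          rw [eq_top_iff, ← htop]
          exact iSup_le hc
        have hd := (hdis J i).resolve_left hi
        have hlt : J.sup U < (insert i J).sup U := by
          rw [Finset.sup_insert]
          refine lt_of_le_of_ne le_sup_right ?_
          intro he
          apply hi
          rw [he]
          exact le_sup_left
        have hf := Submodule.finrank_lt_finrank_of_lt hlt
        have hle := Submodule.finrank_le ((insert i J).sup U)
        exact ih _ (by omega) (insert i J) (hJ.insert hd) rfl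
  exact key _ ∅ (Finset.supIndep_empty U) rfl

end ZBaux

end Pool.Agent.DERVR
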