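import Pool.Agent.DERVR.RDefs
import Pool.Agent.DERVR.ZB

/-!
# Project DERV, part I: ZD : the idempotent (pure algebra)
-/

set_option autoImplicit false

universe u w

open Finset

namespace Pool.Agent.DERVR

open Pool.Agent.VOAut Pool.Agent.DERV

section ZD

variable {W : Type u} [AddCommGroup W] [Module ℂ W] {Y : Type w} [AddCommGroup Y] [Module ℂ Y]
  [FiniteDimensional ℂ Y] {ι : Type w}

/-- the range of `o` as an algebra -/
def zdAlg {W Y : Type*} [AddCommGroup W] [Module ℂ W] [AddCommGroup Y] [Module ℂ Y]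
    (o : W →ₗ[ℂ] Module.End ℂ Y) (hmul : ∀ u v, ∃ w, o w = o u * o v)
    (hone : ∃ e, o e = 1) : Subalgebra ℂ (Module.End ℂ Y) where
  carrier := Set.range o
  mul_mem' := by
    rintro _ _ ⟨u, rfl⟩ ⟨v, rfl⟩
    obtain ⟨w, hw⟩ := hmul u v
    exact ⟨w, hw⟩
  add_mem' := by
    rintro _ _ ⟨u, rfl⟩ ⟨v, rfl⟩
    exact ⟨u + v, map_add o u v⟩
  algebraMap_mem' := by
    intro r
    obtain ⟨e, he⟩ := hone
    refine ⟨r • e, ?_⟩
    rw [map_smul, he, Algebra.algebraMap_eq_smul_one]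

theorem exists_idem (o : W →ₗ[ℂ] Module.End ℂ Y) (hmul : ∀ u v, ∃ w, o w = o u * o v)
    (hone : ∃ e, o e = 1) (U : ι → Submodule ℂ Y) (hst : ∀ i v, ∀ x ∈ U i, o v x ∈ U i)
    (hirr : ∀ i (T : Submodule ℂ Y), T ≤ U i → (∀ v, ∀ x ∈ T, o v x ∈ T) → T = ⊥ ∨ T = U i)
    (htop : ⨆ i, U i = ⊤) (χ : W →ₗ[ℂ] ℂ) (hker : ∀ v, o v = 0 → χ v = 0)
    (hχ : ∀ u v w, o w = o u * o v → χ w = χ u * χ v) (hχ1 : ∀ e, o e = 1 → χ e = 1) :
    ∃ e, χ e = 0 ∧ ∀ i, (¬ ∃ x ∈ U i, x ≠ 0 ∧ ∀ v, o v x = χ v • x) → ∀ x ∈ U i, o e x = x := by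
  classical
  obtain ⟨A, hA⟩ : ∃ A, A = zdAlg o hmul hone := ⟨_, rfl⟩
  have hmem : ∀ a, a ∈ A ↔ ∃ v, o v = a := by
    intro a
    rw [hA]
    exact Iff.rfl
  have hss : IsSemisimpleRing A := by
    refine zb_semisimple A U ?_ ?_ htop
    · intro i a ha x hx
      obtain ⟨v, rfl⟩ := (hmem a).1 ha
      exact hst i v x hx
    · intro i T hT hT2
      exact hirr i T hT (fun v x hx => hT2 (o v) ((hmem _).2 ⟨v, rfl⟩) x hx)
  have hdiff : ∀ u v, o u = o v → χ u = χ v := by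
    intro u v h
    have := hker (u - v) (by rw [map_sub, h, sub_self])
    rw [map_sub] at this
    exact sub_eq_zero.1 this
  let I : Submodule A A :=
    { carrier := {a | ∀ v, o v = a.1 → χ v = 0}
      add_mem' := by
        intro a b ha hb v hv
        obtain ⟨u1, hu1⟩ := (hmem a.1).1 a.2
        obtain ⟨u2, hu2⟩ := (hmem b.1).1 b.2
        have h1 : χ v = χ (u1 + u2) := hdiff _ _ (by
          rw [hv, map_add, hu1, hu2]; rfl)
        rw [h1, map_add, ha u1 hu1, hb u2 hu2, add_zero]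
      zero_mem' := by
        intro v hv
        exact hker v hv
      smul_mem' := by
        intro b a ha v hv
        obtain ⟨u1, hu1⟩ := (hmem a.1).1 a.2
        obtain ⟨u2, hu2⟩ := (hmem b.1).1 b.2
        have h1 : χ v = χ u2 * χ u1 := hχ u2 u1 v (by
          rw [hv, hu1, hu2]; rfl)
        rw [h1, ha u1 hu1, mul_zero] }
  obtain ⟨J, hIJ⟩ := exists_isCompl I
  have h1 : (1 : A) ∈ I ⊔ J := by
    rw [hIJ.sup_eq_top]
    trivial
  obtain ⟨e', he', f', hf', hef⟩ := Submodule.mem_sup.1 h1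
  obtain ⟨e, he⟩ := (hmem e'.1).1 e'.2
  obtain ⟨f, hf⟩ := (hmem f'.1).1 f'.2
  obtain ⟨e1, he1⟩ := hone
  refine ⟨e, he' e he, ?_⟩
  intro i hi x hx
  have hsum : ∀ y, o e y + o f y = y := by
    intro y
    have h2 : (e'.1 + f'.1 : Module.End ℂ Y) = 1 := congrArg Subtype.val hef
    have h3 := congrArg (fun t : Module.End ℂ Y => t y) h2
    rw [he, hf]
    exact h3
  have hfx : o f x = 0 := by
    by_contra hne
    apply hi
    refine ⟨o f x, hst i f x hx, hne, ?_⟩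
    intro v
    have hv' : χ (v - χ v • e1) = 0 := by
      rw [map_sub, map_smul, hχ1 e1 he1, smul_eq_mul, mul_one, sub_self]
    have hvA : o (v - χ v • e1) ∈ A := (hmem _).2 ⟨_, rfl⟩
    have hJ : (⟨o (v - χ v • e1), hvA⟩ : A) * f' ∈ J := J.smul_mem (⟨o (v - χ v • e1), hvA⟩ : A) hf'
    have hI : (⟨o (v - χ v • e1), hvA⟩ : A) * f' ∈ I := by
      intro w hw
      have h4 : χ w = χ (v - χ v • e1) * χ f := hχ _ _ _ (by
        rw [hw, hf]; rfl)
      rw [h4, hv', zero_mul]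
    have h0 : (⟨o (v - χ v • e1), hvA⟩ : A) * f' = 0 := by
      have := Submodule.mem_inf.2 ⟨hI, hJ⟩
      rw [hIJ.inf_eq_bot] at this
      exact this
    have h5 : o (v - χ v • e1) * f'.1 = 0 := congrArg Subtype.val h0
    have h6 := congrArg (fun t : Module.End ℂ Y => t x) h5
    rw [← hf] at h6
    have h7 : o (v - χ v • e1) (o f x) = 0 := h6
    rw [map_sub, map_smul, he1, LinearMap.sub_apply, LinearMap.smul_apply,
      Module.End.one_apply] at h7
    exact sub_eq_zero.1 h7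
  have := hsum x
  rw [hfx, add_zero] at this
  exact this

end ZD

end Pool.Agent.DERVR
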