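import Pool.Agent.DERVR.RDefs
import Pool.Agent.DERVR.ZB
import Pool.Agent.DERVR.ZD

/-!
# Project DERV, part I: ZC : trace forms of semisimple algebras of endomorphisms (pure algebra)
-/

set_option autoImplicit false

universe u w

open Finset

namespace Pool.Agent.DERVR

open Pool.Agent.VOAut Pool.Agent.DERV

section ZCaux

variable {Y : Type*} [AddCommGroup Y] [Module ℂ Y] [FiniteDimensional ℂ Y]

/-- the trace form of a semisimple algebra of endomorphisms is nondegenerate -/
theorem zc_nondeg (A : Subalgebra ℂ (Module.End ℂ Y)) (hss : IsSemisimpleRing A) (z : A)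
    (hz : ∀ a : A, LinearMap.trace ℂ Y (a.1 * z.1) = 0) : z = 0 := by
  let N : Submodule A A :=
    { carrier := {z | ∀ a : A, LinearMap.trace ℂ Y (a.1 * z.1) = 0}
      add_mem' := by
        intro x y hx hy a
        have : a.1 * (x + y : A).1 = a.1 * x.1 + a.1 * y.1 := mul_add _ _ _
        rw [this, map_add, hx a, hy a, add_zero]
      zero_mem' := by
        intro a
        have : a.1 * (0 : A).1 = 0 := mul_zero _
        rw [this, map_zero]
      smul_mem' := by
        intro b x hx a
        have : a.1 * (b • x : A).1 = (a * b : A).1 * x.1 := (mul_assoc _ _ _).symm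
        rw [this]
        exact hx (a * b) }
  obtain ⟨J, hNJ⟩ := exists_isCompl N
  have h1 : (1 : A) ∈ N ⊔ J := by
    rw [hNJ.sup_eq_top]
    trivial
  obtain ⟨e, he, f, hf, hef⟩ := Submodule.mem_sup.1 h1
  have hzero : ∀ x : A, x ∈ N → x ∈ J → x = 0 := by
    intro x hx hx'
    have := Submodule.mem_inf.2 ⟨hx, hx'⟩
    rw [hNJ.inf_eq_bot] at this
    exact this
  have hN : ∀ x ∈ N, x = x * e := by
    intro x hx
    have h2 : x * f = x - x * e := by
      have : x * (e + f) = x := by rw [hef, mul_one]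
      rw [mul_add] at this
      rw [eq_sub_iff_add_eq, add_comm]
      exact this
    have h3 : x * f ∈ J := J.smul_mem x hf
    have h4 : x * f ∈ N := by
      rw [h2]
      exact N.sub_mem hx (N.smul_mem x he)
    have h5 := hzero _ h4 h3
    rw [h2] at h5
    exact sub_eq_zero.1 h5
  have hid : IsIdempotentElem (e.1 : Module.End ℂ Y) := (congrArg Subtype.val (hN e he)).symm
  have htr : LinearMap.trace ℂ Y e.1 = 0 := by
    have := he 1
    have h6 : (1 : A).1 * e.1 = e.1 := one_mul _
    rwa [h6] at this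
  have hproj := (LinearMap.isProj_range_iff_isIdempotentElem e.1).2 hid
  rw [hproj.trace] at htr
  have h7 : Module.finrank ℂ (LinearMap.range e.1) = 0 := by exact_mod_cast htr
  have h8 : e.1 = 0 := by
    rw [← LinearMap.range_eq_bot]
    exact Submodule.finrank_eq_zero.1 h7
  have h9 : e = 0 := Subtype.ext h8
  rw [hN z hz, h9, mul_zero]

end ZCaux

section ZC

variable {W : Type u} [AddCommGroup W] [Module ℂ W] {Y : Type w} [AddCommGroup Y] [Module ℂ Y]
  [FiniteDimensional ℂ Y] {ι : Type w}

/-- every trace form is the trace against an element which acts on every irreducible stable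
subspace as a scalar -/
theorem zc_center (o : W →ₗ[ℂ] Module.End ℂ Y) (hmul : ∀ u v, ∃ w, o w = o u * o v)
    (hone : ∃ e, o e = 1) (U : ι → Submodule ℂ Y) (hst : ∀ i v, ∀ x ∈ U i, o v x ∈ U i)
    (hirr : ∀ i (T : Submodule ℂ Y), T ≤ U i → (∀ v, ∀ x ∈ T, o v x ∈ T) → T = ⊥ ∨ T = U i)
    (htop : ⨆ i, U i = ⊤) (α : W →ₗ[ℂ] ℂ) (hker : ∀ v, o v = 0 → α v = 0)
    (htr : ∀ u v w w', o w = o u * o v → o w' = o v * o u → α w = α w') :
    ∃ (z : Module.End ℂ Y) (lam : ι → ℂ), (∀ v, α v = LinearMap.trace ℂ Y (o v * z)) ∧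
      ∀ i, ∀ x ∈ U i, z x = lam i • x := by
  classical
  obtain ⟨A, hA⟩ : ∃ A, A = zdAlg o hmul hone := ⟨_, rfl⟩
  have hmem : ∀ a, a ∈ A ↔ ∃ v, o v = a := by
    intro a
    rw [hA]
    exact Iff.rfl
  have hss : IsSemisimpleRing A := by
    refine zb_semisimple A U ?_ ?_ htop
    · intro i a ha x hx
      obtain ⟨v, rfl⟩ := (hmem a).1 ha
      exact hst i v x hx
    · intro i T hT hT2
      exact hirr i T hT (fun v x hx => hT2 (o v) ((hmem _).2 ⟨v, rfl⟩) x hx)
  have hdiff : ∀ u v, o u = o v → α u = α v := by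
    intro u v h
    have := hker (u - v) (by rw [map_sub, h, sub_self])
    rw [map_sub] at this
    exact sub_eq_zero.1 this
  have hch : ∀ a : A, ∃ v, o v = a.1 := fun a => (hmem a.1).1 a.2
  choose ch hch using hch
  -- the functional on the algebra
  let β : Module.Dual ℂ A :=
    { toFun := fun a => α (ch a)
      map_add' := by
        intro a b
        rw [← map_add]
        apply hdiff
        rw [hch, map_add, hch, hch]
        rfl
      map_smul' := by
        intro c a
        rw [RingHom.id_apply, ← map_smul]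
        apply hdiff
        rw [hch, map_smul, hch]
        rfl }
  let T : A →ₗ[ℂ] Module.Dual ℂ A :=
    { toFun := fun z =>
        { toFun := fun a => LinearMap.trace ℂ Y (a.1 * z.1)
          map_add' := by
            intro a b
            have : (a + b : A).1 * z.1 = a.1 * z.1 + b.1 * z.1 := add_mul _ _ _
            rw [this, map_add]
          map_smul' := by
            intro c a
            have : (c • a : A).1 * z.1 = c • (a.1 * z.1) := smul_mul_assoc _ _ _
            rw [this, map_smul, RingHom.id_apply] }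
      map_add' := by
        intro x y
        ext a
        change LinearMap.trace ℂ Y (a.1 * (x + y : A).1) =
          LinearMap.trace ℂ Y (a.1 * x.1) + LinearMap.trace ℂ Y (a.1 * y.1)
        have : a.1 * (x + y : A).1 = a.1 * x.1 + a.1 * y.1 := mul_add _ _ _
        rw [this, map_add]
      map_smul' := by
        intro c x
        ext a
        change LinearMap.trace ℂ Y (a.1 * (c • x : A).1) = c • LinearMap.trace ℂ Y (a.1 * x.1)
        have : a.1 * (c • x : A).1 = c • (a.1 * x.1) := mul_smul_comm _ _ _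
        rw [this, map_smul] }
  have hT : ∀ z a : A, T z a = LinearMap.trace ℂ Y (a.1 * z.1) := fun _ _ => rfl
  have hTinj : Function.Injective T := by
    rw [injective_iff_map_eq_zero]
    intro z hz
    apply zc_nondeg A hss z
    intro a
    rw [← hT, hz]
    rfl
  have hTsurj : Function.Surjective T :=
    (LinearMap.injective_iff_surjective_of_finrank_eq_finrank
      (Subspace.dual_finrank_eq (K := ℂ) (V := A)).symm).1 hTinj
  obtain ⟨z, hz⟩ := hTsurj β
  have hβ : ∀ a : A, β a = LinearMap.trace ℂ Y (a.1 * z.1) := by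
    intro a
    rw [← hT, hz]
  have hαβ : ∀ v, α v = LinearMap.trace ℂ Y (o v * z.1) := by
    intro v
    have h1 := hβ ⟨o v, (hmem _).2 ⟨v, rfl⟩⟩
    have h2 : β ⟨o v, (hmem _).2 ⟨v, rfl⟩⟩ = α v := by
      apply hdiff
      rw [hch]
    rw [← h2, h1]
  have hβc : ∀ a b : A, β (a * b) = β (b * a) := by
    intro a b
    apply htr (ch a) (ch b)
    · rw [hch, hch, hch]; rfl
    · rw [hch, hch, hch]; rfl
  have hcomm : ∀ b : A, b * z = z * b := by
    intro b
    apply hTinj
    ext a
    rw [hT, hT]
    have e1 : a.1 * (b * z : A).1 = (a * b : A).1 * z.1 := (mul_assoc _ _ _).symm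
    have e2 : LinearMap.trace ℂ Y (a.1 * (z * b : A).1) =
        LinearMap.trace ℂ Y ((b * a : A).1 * z.1) := by
      have e3 : a.1 * (z * b : A).1 = (a.1 * z.1) * b.1 := (mul_assoc _ _ _).symm
      have e4 : (b * a : A).1 * z.1 = b.1 * (a.1 * z.1) := mul_assoc _ _ _
      rw [e3, e4, LinearMap.trace_mul_comm]
    rw [e1, e2, ← hβ, ← hβ, hβc]
  have hcomm' : ∀ v x, z.1 (o v x) = o v (z.1 x) := by
    intro v x
    have h1 := congrArg Subtype.val (hcomm ⟨o v, (hmem _).2 ⟨v, rfl⟩⟩)
    have h2 := congrArg (fun t : Module.End ℂ Y => t x) h1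
    exact h2.symm
  have hzst : ∀ i, ∀ x ∈ U i, z.1 x ∈ U i := by
    intro i x hx
    rw [← hch z]
    exact hst i _ x hx
  have hsc : ∀ i, ∃ l : ℂ, ∀ x ∈ U i, z.1 x = l • x := by
    intro i
    by_cases h0 : U i = ⊥
    · refine ⟨0, fun x hx => ?_⟩
      rw [h0] at hx
      rw [(Submodule.mem_bot ℂ).1 hx, map_zero, smul_zero]
    · have hnt : Nontrivial (U i) := Submodule.nontrivial_iff_ne_bot.2 h0
      obtain ⟨l, hl⟩ := Module.End.exists_eigenvalue ((z.1).restrict (hzst i))
      obtain ⟨y, hy⟩ := hl.exists_hasEigenvector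
      have hy1 : z.1 y.1 = l • y.1 := congrArg Subtype.val hy.apply_eq_smul
      refine ⟨l, ?_⟩
      let S : Submodule ℂ Y :=
        { carrier := {x | x ∈ U i ∧ z.1 x = l • x}
          add_mem' := by
            rintro a b ⟨ha, ha'⟩ ⟨hb, hb'⟩
            exact ⟨(U i).add_mem ha hb, by rw [map_add, ha', hb', smul_add]⟩
          zero_mem' := ⟨(U i).zero_mem, by rw [map_zero, smul_zero]⟩
          smul_mem' := by
            rintro c a ⟨ha, ha'⟩
            exact ⟨(U i).smul_mem c ha, by rw [map_smul, ha', smul_comm]⟩ }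
      rcases hirr i S (fun x hx => hx.1) (by
        rintro v x ⟨hx, hx'⟩
        exact ⟨hst i v x hx, by rw [hcomm', hx', map_smul]⟩) with h | h
      · exfalso
        apply hy.2
        apply Subtype.ext
        have : y.1 ∈ S := ⟨y.2, hy1⟩
        rw [h] at this
        exact this
      · intro x hx
        rw [← h] at hx
        exact hx.2
  choose lam hlam using hsc
  exact ⟨z.1, lam, hαβ, hlam⟩

theorem trace_forms (o : W →ₗ[ℂ] Module.End ℂ Y) (hmul : ∀ u v, ∃ w, o w = o u * o v)
    (hone : ∃ e, o e = 1) (U : ι → Submodule ℂ Y) (hst : ∀ i v, ∀ x ∈ U i, o v x ∈ U i)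
    (hirr : ∀ i (T : Submodule ℂ Y), T ≤ U i → (∀ v, ∀ x ∈ T, o v x ∈ T) → T = ⊥ ∨ T = U i)
    (htop : ⨆ i, U i = ⊤) (α : W →ₗ[ℂ] ℂ) (hker : ∀ v, o v = 0 → α v = 0)
    (htr : ∀ u v w w', o w = o u * o v → o w' = o v * o u → α w = α w') :
    ∃ c : ι →₀ ℂ, ∀ v, α v = c.sum fun i z => z * LinearMap.trace ℂ (U i)
      ((o v).restrict (hst i v)) := by
  classical
  obtain ⟨z, lam, hz, hlam⟩ := zc_center o hmul hone U hst hirr htop α hker htr
  have hsup : ∀ (J : Finset ι) v, ∀ x ∈ J.sup U, o v x ∈ J.sup U := by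
    intro J v
    have h1 : J.sup U ≤ (J.sup U).comap (o v) := by
      apply Finset.sup_le
      intro j hj x hx
      exact (Finset.le_sup (f := U) hj) (hst j v x hx)
    exact fun x hx => h1 hx
  obtain ⟨J, hJ, hJtop⟩ := zb_indep U (by
    intro J i
    rcases hirr i (U i ⊓ J.sup U) inf_le_left (by
      rintro v x ⟨hx, hx'⟩
      exact ⟨hst i v x hx, hsup J v x hx'⟩) with h | h
    · right
      exact disjoint_iff.2 h
    · left
      exact inf_eq_left.1 h) htop
  have hint : DirectSum.IsInternal (fun j : J => U j) := by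
    apply DirectSum.isInternal_submodule_of_iSupIndep_of_iSup_eq_top
    · exact iSupIndep_comp_coe_iff_supIndep.2 hJ
    · rw [← hJtop, Finset.sup_eq_iSup]
      exact iSup_subtype
  refine ⟨Finsupp.onFinset J (fun i => if i ∈ J then lam i else 0) (by
    intro i hi
    by_contra hc
    rw [if_neg hc] at hi
    exact hi rfl), ?_⟩
  intro v
  rw [Finsupp.onFinset_sum _ (fun i => zero_mul _), hz v,
    LinearMap.trace_eq_sum_trace_restrict hint (f := o v * z) (fun j x hx => by
      have h1 : (o v * z) x = o v (z x) := rfl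
      rw [h1, hlam j x hx, map_smul]
      exact (U j).smul_mem _ (hst j v x hx)),
    ← Finset.sum_coe_sort J]
  apply Finset.sum_congr rfl
  intro j _
  rw [if_pos j.2]
  refine Eq.trans (b := LinearMap.trace ℂ (U j) (lam j • (o v).restrict (hst j v))) ?_ ?_
  · refine congrArg _ ?_
    ext x
    have h1 : (o v * z) x.1 = lam j • o v x.1 := by
      have h2 : (o v * z) x.1 = o v (z x.1) := rfl
      rw [h2, hlam j x.1 x.2, map_smul]
    exact h1
  · rw [map_smul]
    rfl

end ZC

end Pool.Agent.DERVR
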