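import Pool.Agent.DERVR.RDefs

/-!
# Project DERV, part I: ZE : submodules as modules
-/

set_option autoImplicit false

universe u w

open Finset

namespace Pool.Agent.DERVR

open Pool.Agent.VOAut Pool.Agent.DERV

variable {V : Type u} [AddCommGroup V] [Module ℂ V]

section ZE

variable {A : VOA V} {M : Type u} [AddCommGroup M] [Module ℂ M] (X : AdmissibleModule A M)

private theorem ze_internal (N : Submodule ℂ M) (hN : X.IsSub N) :
    DirectSum.IsInternal (fun n : ℤ => (X.gr n).comap N.subtype) := by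
  have hind := X.internal.submodule_iSupIndep
  refine DirectSum.isInternal_submodule_of_iSupIndep_of_iSup_eq_top ?_ ?_
  · intro i
    rw [Submodule.disjoint_def]
    intro x hx hx2
    have h1 : (x : M) ∈ X.gr i := hx
    have h2 : (x : M) ∈ ⨆ (j : ℤ) (_ : j ≠ i), X.gr j := by
      have h3 : (x : M) ∈ Submodule.map N.subtype
          (⨆ (j : ℤ) (_ : j ≠ i), (X.gr j).comap N.subtype) := ⟨x, hx2, rfl⟩
      rw [Submodule.map_iSup] at h3
      have h5 : (⨆ j : ℤ, Submodule.map N.subtype (⨆ (_ : j ≠ i), (X.gr j).comap N.subtype)) ≤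
          ⨆ (j : ℤ) (_ : j ≠ i), X.gr j := by
        refine iSup_mono (fun j => ?_)
        rw [Submodule.map_iSup]
        exact iSup_mono (fun hj => by
          rw [Submodule.map_comap_subtype]
          exact inf_le_right)
      exact h5 h3
    have h4 := (Submodule.disjoint_def.1 (hind i)) (x : M) h1 h2
    exact Subtype.ext h4
  · apply Submodule.map_injective_of_injective N.subtype_injective
    rw [Submodule.map_iSup, Submodule.map_top, Submodule.range_subtype]
    conv_rhs => rw [hN.2]
    exact iSup_congr (fun n => by rw [Submodule.map_comap_subtype])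

theorem exists_subMod (N : Submodule ℂ M) (hN : X.IsSub N) :
    ∃ Z : AdmissibleModule A N, (∀ v n (y : N), ((Z.Y v n y : N) : M) = X.Y v n y) ∧
      ∀ n (y : N), y ∈ Z.gr n ↔ (y : M) ∈ X.gr n := by
  refine ⟨{
    Y := {
      toFun := fun v n => (X.Y v n).restrict (hN.1 v n)
      map_add' := by
        intro v w
        funext n
        ext x
        simp
      map_smul' := by
        intro c v
        funext n
        ext x
        simp }
    gr := fun n => (X.gr n).comap N.subtype
    trunc := ?_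
    vacuum := ?_
    jacobi := ?_
    internal := ze_internal X N hN
    nonneg := ?_
    graded := ?_ }, ?_, ?_⟩
  · intro v x
    obtain ⟨K, hK⟩ := X.trunc v (x : M)
    exact ⟨K, fun n hn => Subtype.ext (hK n hn)⟩
  · intro n x
    apply Subtype.ext
    have h := X.vacuum n (x : M)
    show X.Y A.vac n (x : M) = _
    rw [h]
    split_ifs <;> rfl
  · intro v w x l m n
    apply N.subtype_injective
    have h := X.jacobi v w (x : M) l m n
    have e1 := AddMonoidHom.map_finsum_of_injective N.subtype.toAddMonoidHom N.subtype_injective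
      (fun i : ℕ => ((Ring.choose m i : ℤ) : ℂ) •
        ((X.Y (A.Y v (l + i) w) (m + n - i)).restrict (hN.1 (A.Y v (l + i) w) (m + n - i))) x)
    have e2 := AddMonoidHom.map_finsum_of_injective N.subtype.toAddMonoidHom N.subtype_injective
      (fun i : ℕ => ((-1 : ℂ) ^ i * ((Ring.choose l i : ℤ) : ℂ)) •
        (((X.Y v (m + l - i)).restrict (hN.1 v (m + l - i)))
            (((X.Y w (n + i)).restrict (hN.1 w (n + i))) x) -
          (-1 : ℂ) ^ l • ((X.Y w (n + l - i)).restrict (hN.1 w (n + l - i)))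
            (((X.Y v (m + i)).restrict (hN.1 v (m + i))) x)))
    exact (e1.trans h).trans e2.symm
  · intro n hn
    have h := X.nonneg n hn
    show (X.gr n).comap N.subtype = ⊥
    rw [h, Submodule.comap_bot, Submodule.ker_subtype]
  · intro k m i v x hv hx
    exact X.graded k m i v (x : M) hv hx
  · intro v n y
    rfl
  · intro n y
    exact Iff.rfl

private theorem ze_zm (N : Submodule ℂ M) (Z : AdmissibleModule A N)
    (hY : ∀ v n (y : N), ((Z.Y v n y : N) : M) = X.Y v n y) (v : V) (y : N) :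
    ((zm Z v y : N) : M) = zm X v (y : M) := by
  rw [← zmL_apply, ← zmL_apply]
  refine hom_ind A (P := fun v => ((zmL Z v y : N) : M) = zmL X v (y : M)) v ?_ ?_ ?_
  · simp
  · intro a b ha hb
    rw [map_add, map_add, LinearMap.add_apply, LinearMap.add_apply, Submodule.coe_add, ha, hb]
  · intro a w hw
    rw [zmL_apply, zmL_apply, zm_of_mem Z a w hw, zm_of_mem X a w hw, hY]

/-- Zero modes and traces on the lowest piece of a submodule. -/
theorem subMod_trg (N : Submodule ℂ M) (Z : AdmissibleModule A N)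
    (hY : ∀ v n (y : N), ((Z.Y v n y : N) : M) = X.Y v n y)
    (hg : ∀ n (y : N), y ∈ Z.gr n ↔ (y : M) ∈ X.gr n)
    (hst : ∀ v, ∀ x ∈ N ⊓ X.gr 0, zm X v x ∈ N ⊓ X.gr 0) (v : V) :
    trg Z 0 (zm Z v) = LinearMap.trace ℂ ↥(N ⊓ X.gr 0) ((zm X v).restrict (hst v)) := by
  let e : ↥(Z.gr 0) ≃ₗ[ℂ] ↥(N ⊓ X.gr 0) :=
    { toFun := fun x => ⟨((x : N) : M), ⟨(x : N).2, (hg 0 (x : N)).1 x.2⟩⟩
      invFun := fun x => ⟨⟨(x : M), x.2.1⟩, (hg 0 ⟨(x : M), x.2.1⟩).2 x.2.2⟩
      map_add' := fun _ _ => rfl
      map_smul' := fun _ _ => rfl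
      left_inv := fun _ => rfl
      right_inv := fun _ => rfl }
  unfold trg
  rw [← LinearMap.trace_conj' _ e]
  congr 1
  apply LinearMap.ext
  intro x
  apply Subtype.ext
  rw [LinearEquiv.conj_apply]
  show (((hcomp Z.internal 0 (zm Z v ((e.symm x : ↥(Z.gr 0)) : N))) : N) : M) = zm X v (x : M)
  have h1 : zm Z v ((e.symm x : ↥(Z.gr 0)) : N) ∈ Z.gr 0 := zm_gr Z v 0 _ (e.symm x).2
  rw [hcomp_of_mem Z.internal 0 0 _ h1, if_pos rfl, ze_zm X N Z hY]
  rfl

end ZE

end Pool.Agent.DERVR
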