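import Pool.Agent.DERVR.GSUB
import Pool.Agent.DERV.BRV

/-!
# Project DERV, part I: ZF : conformal weights
-/

set_option autoImplicit false

universe u w

open Finset

namespace Pool.Agent.DERVR

open Pool.Agent.VOAut Pool.Agent.DERV

variable {V : Type u} [AddCommGroup V] [Module ℂ V]

section ZF

variable {A : VOA V} {M : Type u} [AddCommGroup M] [Module ℂ M] (X : AdmissibleModule A M)

private theorem zf_ch2 (i : ℕ) :
    (-1 : ℂ) ^ i * ((Ring.choose (-2 : ℤ) i : ℤ) : ℂ) = (i : ℂ) + 1 := by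
  have h1 : Ring.choose (-2 : ℤ) i = (-1) ^ i * ((i : ℤ) + 1) := by
    rw [Ring.choose_neg', Ring.multichoose_two, Units.smul_def, Int.coe_negOnePow_natCast]
    simp
  rw [h1]
  push_cast
  rw [← mul_assoc, ← mul_pow]
  norm_num

/-- The commutator of `L(0)` with modes on modules, first form. -/
private theorem zf_comm1 (v : V) (n : ℤ) (x : M) :
    X.Y A.om 1 (X.Y v n x) - X.Y v n (X.Y A.om 1 x) =
      X.Y (A.Y A.om 0 v) (n + 1) x + X.Y (A.Y A.om 1 v) n x := by
  have h := X.jacobi A.om v x 0 1 n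
  rw [finsum_eq_range _ 2, finsum_eq_range _ 1] at h
  · rw [Finset.sum_range_succ, Finset.sum_range_succ, Finset.sum_range_zero,
      Finset.sum_range_succ, Finset.sum_range_zero] at h
    simp only [Nat.cast_zero, Nat.cast_one, Ring.choose_zero_right, Ring.choose_one_right,
      Int.cast_one, one_smul, add_zero, zero_add, sub_zero, pow_zero, mul_one, zpow_zero] at h
    rw [← h, add_comm n 1]
    congr 2
    ring_nf
  · intro i hi
    have : Ring.choose (0 : ℤ) i = 0 := by
      rw [Ring.choose_zero_pos _ (by omega)]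
    rw [this, Int.cast_zero, mul_zero, zero_smul]
  · intro i hi
    have : Ring.choose (1 : ℤ) i = 0 := by
      have h1 : Ring.choose ((1 : ℕ) : ℤ) i = ((Nat.choose 1 i : ℕ) : ℤ) := Ring.choose_natCast 1 i
      rw [Nat.choose_eq_zero_of_lt (by omega)] at h1
      simpa using h1
    rw [this, Int.cast_zero, zero_smul]

/-- `(v_{-2} 1)_n = -n v_{n-1}` on modules. -/
private theorem zf_trans (v : V) (n : ℤ) (x : M) :
    X.Y (A.Y v (-2) A.vac) n x = (-(n : ℂ)) • X.Y v (n - 1) x := by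
  have h := X.jacobi v A.vac x (-2) 0 n
  rw [finsum_eq_range _ 1] at h
  swap
  · intro i hi
    have : Ring.choose (0 : ℤ) i = 0 := by
      rw [Ring.choose_zero_pos _ (by omega)]
    rw [this, Int.cast_zero, zero_smul]
  rw [Finset.sum_range_succ, Finset.sum_range_zero] at h
  simp only [Nat.cast_zero, Ring.choose_zero_right, Int.cast_one, one_smul, zero_add, add_zero,
    sub_zero] at h
  rw [h]
  have hterm : ∀ i : ℕ, ((-1 : ℂ) ^ i * ((Ring.choose (-2 : ℤ) i : ℤ) : ℂ)) •
      (X.Y v (-2 - i) (X.Y A.vac (n + i) x) -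
        (-1 : ℂ) ^ (-2 : ℤ) • X.Y A.vac (n + -2 - i) (X.Y v i x)) =
      ((i : ℂ) + 1) • ((if n + i = -1 then X.Y v (-2 - i) x else 0) -
        (if n + -2 - i = -1 then X.Y v i x else 0)) := by
    intro i
    rw [zf_ch2, X.vacuum, X.vacuum]
    have h3 : (-1 : ℂ) ^ (-2 : ℤ) = 1 := by norm_num
    rw [h3, one_smul]
    congr 2
    split_ifs
    · rfl
    · rw [map_zero]
  rw [finsum_congr hterm]
  rcases lt_trichotomy n 0 with hn | hn | hn
  · rw [finsum_eq_single _ (-1 - n).toNat]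
    · have e : (((-1 - n).toNat : ℕ) : ℤ) = -1 - n := Int.toNat_of_nonneg (by omega)
      have eC : (((-1 - n).toNat : ℕ) : ℂ) = -1 - (n : ℂ) := by
        have := congrArg (fun t : ℤ => (t : ℂ)) e
        push_cast at this
        exact this
      rw [e, eC, if_pos (by ring), if_neg (by omega), sub_zero]
      congr 1
      · ring
      · congr 2
        ring_nf
    · intro i hi
      rw [if_neg (by omega), if_neg (by omega), sub_zero, smul_zero]
  · subst hn
    rw [finsum_eq_zero_of_forall_eq_zero]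
    · simp
    · intro i
      rw [if_neg (by omega), if_neg (by omega), sub_zero, smul_zero]
  · rw [finsum_eq_single _ (n - 1).toNat]
    · have e : (((n - 1).toNat : ℕ) : ℤ) = n - 1 := Int.toNat_of_nonneg (by omega)
      have eC : (((n - 1).toNat : ℕ) : ℂ) = (n : ℂ) - 1 := by
        have := congrArg (fun t : ℤ => (t : ℂ)) e
        push_cast at this
        exact this
      rw [e, eC, if_neg (by omega), if_pos (by ring), zero_sub, smul_neg, neg_smul]
      congr 2
      ring
    · intro i hi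
      rw [if_neg (by omega), if_neg (by omega), sub_zero, smul_zero]

private theorem zf_L1 (v : V) : A.Y A.om 0 v = A.Y v (-2) A.vac := by
  have h1 := congrFun (congrArg (fun f : Module.End ℂ V => (f : V → V)) (A.translation v (-1))) A.vac
  have h2 : A.Y (A.Y A.om 0 v) (-1) A.vac = A.Y A.om 0 v := A.creation_neg_one _
  have h3 : A.Y (A.Y A.om 0 v) (-1) A.vac = A.Y v (-2) A.vac := by
    rw [A.translation v (-1)]
    have e : (-1 : ℤ) - 1 = -2 := by norm_num
    rw [e]
    simp
  rw [← h2, h3]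

private theorem zf_comm (a m : ℤ) (v : V) (hv : v ∈ A.gr a) (x : M) :
    X.Y A.om 1 (X.Y v m x) = X.Y v m (X.Y A.om 1 x) + ((a : ℂ) - m - 1) • X.Y v m x := by
  have h1 := zf_comm1 X v m x
  rw [zf_L1, zf_trans, (A.mem_gr a v).1 hv] at h1
  have e : m + 1 - 1 = m := by ring
  rw [e] at h1
  rw [map_smul, Pi.smul_apply, LinearMap.smul_apply] at h1
  rw [sub_eq_iff_eq_add] at h1
  rw [h1]
  push_cast
  module

theorem exists_wt (N : Submodule ℂ M) (hN : X.IsIrr N) (h0 : N ⊓ X.gr 0 ≠ ⊥)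
    (hf : FiniteDimensional ℂ ↥(N ⊓ X.gr 0)) :
    ∃ h : ℂ, ∀ (n : ℤ) (x : M), x ∈ N → x ∈ X.gr n → X.Y A.om 1 x = (h + n) • x := by
  have hst : ∀ x ∈ N ⊓ X.gr 0, X.Y A.om 1 x ∈ N ⊓ X.gr 0 := by
    intro x hx
    refine ⟨hN.1.1 A.om 1 x hx.1, ?_⟩
    have h1 := X.graded 2 1 0 A.om x (om_mem A) hx.2
    have e : (0 : ℤ) + 2 - 1 - 1 = 0 := by norm_num
    rwa [e] at h1
  have hnt : Nontrivial ↥(N ⊓ X.gr 0) := (Submodule.nontrivial_iff_ne_bot).2 h0
  obtain ⟨h, hh⟩ := Module.End.exists_eigenvalue ((X.Y A.om 1).restrict hst)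
  obtain ⟨x0, hx0⟩ := hh.exists_hasEigenvector
  have hx0e : X.Y A.om 1 (x0 : M) = h • (x0 : M) := by
    have := congrArg Subtype.val hx0.apply_eq_smul
    simpa using this
  have hx0n : (x0 : M) ≠ 0 := by
    intro h1
    exact hx0.2 (Subtype.ext h1)
  refine ⟨h, fun n x hx hxn => ?_⟩
  have hgen := irr_gen X N hN 0 (x0 : M) x0.2.1 x0.2.2 hx0n
  have hU : Submodule.span ℂ {(x0 : M)} ≤ X.gr 0 := by
    rw [Submodule.span_singleton_le_iff_mem]
    exact x0.2.2
  have hxg : x ∈ gsub X (Submodule.span ℂ {(x0 : M)}) := by rw [hgen]; exact hx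
  have h1 := gsub_gr X (Submodule.span ℂ {(x0 : M)}) 0 hU n x hxg hxn
  refine Submodule.span_induction (p := fun y _ => X.Y A.om 1 y = (h + n) • y) ?_ ?_ ?_ ?_ h1
  · rintro z ⟨a, v, y, hv, hy, rfl⟩
    obtain ⟨c, rfl⟩ := Submodule.mem_span_singleton.1 hy
    rw [zf_comm X a _ v hv, map_smul, hx0e]
    simp only [map_smul]
    push_cast
    module
  · rw [map_zero, smul_zero]
  · intro y z _ _ hy hz
    rw [map_add, hy, hz, smul_add]
  · intro c y _ hy
    rw [map_smul, hy, smul_comm]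

end ZF

end Pool.Agent.DERVR
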