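import Pool.Agent.DERVR.RA
import Pool.Agent.DERV.DER

/-!
# Project DERV, part I: ZG : implementers
-/

set_option autoImplicit false

universe u w

open Finset

namespace Pool.Agent.DERVR

open Pool.Agent.VOAut Pool.Agent.DERV

variable {V : Type u} [AddCommGroup V] [Module ℂ V]

section ZG

variable {A : VOA V} {D : Module.End ℂ V}

theorem zg_rs_sum (f : LaurentSeries ℂ) (u v : V) :
    ∃ s : Finset ℤ, ∀ t : Finset ℤ, s ⊆ t → rs A f u v = ∑ i ∈ t, f.coeff i • A.Y u i v := by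
  classical
  refine ⟨(rs_fin A f u v).toFinset, fun t ht => ?_⟩
  unfold rs
  apply finsum_eq_sum_of_support_subset
  intro i hi
  rw [Finset.mem_coe]
  apply ht
  rw [Set.Finite.mem_toFinset]
  exact hi

theorem zg_D_rs (hD : IsDer A D) (f : LaurentSeries ℂ) (u v : V) :
    D (rs A f u v) = rs A f (D u) v + rs A f u (D v) := by
  classical
  obtain ⟨s1, h1⟩ := zg_rs_sum (A := A) f u v
  obtain ⟨s2, h2⟩ := zg_rs_sum (A := A) f (D u) v
  obtain ⟨s3, h3⟩ := zg_rs_sum (A := A) f u (D v)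
  rw [h1 (s1 ∪ (s2 ∪ s3)) Finset.subset_union_left,
    h2 (s1 ∪ (s2 ∪ s3)) (Finset.subset_union_left.trans Finset.subset_union_right),
    h3 (s1 ∪ (s2 ∪ s3)) (Finset.subset_union_right.trans Finset.subset_union_right),
    map_sum, ← Finset.sum_add_distrib]
  apply Finset.sum_congr rfl
  intro i _
  rw [map_smul, hD.leib, smul_add]

theorem zg_GG (hD : IsDer A D) (r : ℤ) (β : Module.Dual ℂ V) (hβ : β ∈ GG A r) :
    -(β ∘ₗ D) ∈ GG A r := by
  intro a v hv u m M h1 h2
  rw [LinearMap.neg_apply, LinearMap.comp_apply, zg_D_rs hD, map_add,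
    hβ a (D v) (D_gr hD a v hv) u m M h1 h2, hβ a v hv (D u) m M h1 h2, add_zero, neg_zero]

/-- The map on functionals. -/
noncomputable def zg_neg (D : Module.End ℂ V) : Module.Dual ℂ V →ₗ[ℂ] Module.Dual ℂ V :=
  -(LinearMap.dualMap D)

theorem zg_neg_apply (D : Module.End ℂ V) (β : Module.Dual ℂ V) (u : V) :
    zg_neg D β u = -(β (D u)) := rfl

/-- The map on families. -/
noncomputable def zg_fam (D : Module.End ℂ V) :
    (ℤ →₀ Module.Dual ℂ V) →ₗ[ℂ] (ℤ →₀ Module.Dual ℂ V) :=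
  Finsupp.mapRange.linearMap (zg_neg D)

theorem zg_fam_mem (hD : IsDer A D) (F : ℤ →₀ Module.Dual ℂ V) (hF : F ∈ MM A) :
    zg_fam D F ∈ MM A := fun r => zg_GG hD r (F r) (hF r)

/-- The implementer. -/
noncomputable def zg_Delta (hD : IsDer A D) : Module.End ℂ (RM A) :=
  (LinearMap.restrict (zg_fam D) (fun F hF => zg_fam_mem hD F hF) : MM A →ₗ[ℂ] MM A)

theorem zg_rv_Delta (hD : IsDer A D) (y : RM A) : rv A (zg_Delta hD y) = zg_fam D (rv A y) := rfl

theorem zg_ac (hD : IsDer A D) (r a m : ℤ) (u : V) (β : Module.Dual ℂ V) :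
    zg_neg D (ac A r a m u β) = ac A r a m (D u) β + ac A r a m u (zg_neg D β) := by
  ext w
  rw [zg_neg_apply, LinearMap.add_apply, ac_apply, ac_apply, ac_apply, ← Finset.sum_neg_distrib,
    ← Finset.sum_add_distrib]
  apply Finset.sum_congr rfl
  intro i _
  rw [zg_neg_apply, zg_D_rs hD, map_add]
  ring

theorem zg_fam_single (D : Module.End ℂ V) (r : ℤ) (β : Module.Dual ℂ V) :
    zg_fam D (Finsupp.single r β) = Finsupp.single r (zg_neg D β) := by
  unfold zg_fam
  rw [Finsupp.mapRange.linearMap_apply, Finsupp.mapRange_single]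

theorem zg_gr (hD : IsDer A D) (X : AdmissibleModule A (RM A)) (hX : IsReg A X) (n : ℤ)
    (x : RM A) (hx : x ∈ X.gr n) : zg_Delta hD x ∈ X.gr n := by
  rw [hX.gr, zg_rv_Delta]
  rw [hX.gr] at hx
  rw [hx, zg_fam_single, Finsupp.single_eq_same]

/-- Induction over homogeneous vectors of a module. -/
theorem zg_ind {M : Type u} [AddCommGroup M] [Module ℂ M] (X : AdmissibleModule A M)
    {P : M → Prop} (v : M) (h0 : P 0) (hadd : ∀ x y, P x → P y → P (x + y))
    (hh : ∀ n : ℤ, ∀ x ∈ X.gr n, P x) : P v := by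
  have hv : v ∈ ⨆ n, X.gr n := by
    rw [X.internal.submodule_iSup_eq_top]
    exact Submodule.mem_top
  exact Submodule.iSup_induction (fun n => X.gr n) (motive := P) hv (fun n x hx => hh n x hx) h0
    hadd

/-- The implementer on the regular representation. -/
theorem exists_Delta (hD : IsDer A D) (X : AdmissibleModule A (RM A)) (hX : IsReg A X) :
    ∃ Δ : Module.End ℂ (RM A), (∀ (n : ℤ) (x : RM A), x ∈ X.gr n → Δ x ∈ X.gr n) ∧
      ∀ (u : V) (n : ℤ) (x : RM A), Δ (X.Y u n x) = X.Y (D u) n x + X.Y u n (Δ x) := by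
  refine ⟨zg_Delta hD, fun n x hx => zg_gr hD X hX n x hx, fun u n x => ?_⟩
  apply zg_ind X (P := fun x => zg_Delta hD (X.Y u n x) = X.Y (D u) n x + X.Y u n (zg_Delta hD x)) x
  · simp only [map_zero, add_zero]
  · intro x y hx hy
    simp only [map_add]
    rw [hx, hy]
    abel
  intro r x hx
  rw [hX.gr] at hx
  set β := rv A x r with hβ
  apply hom_ind A (P := fun u => zg_Delta hD (X.Y u n x) =
    X.Y (D u) n x + X.Y u n (zg_Delta hD x)) u
  · simp only [map_zero, Pi.zero_apply, LinearMap.zero_apply, add_zero]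
  · intro u u' hu hu'
    simp only [map_add, Pi.add_apply, LinearMap.add_apply]
    rw [hu, hu']
    abel
  intro a u hu
  apply rv_inj A
  rw [map_add, zg_rv_Delta, hX.act a r n u β x hu hx, zg_fam_single, zg_ac hD,
    hX.act a r n (D u) β x (D_gr hD a u hu) hx,
    hX.act a r n u (zg_neg D β) (zg_Delta hD x) hu (by rw [zg_rv_Delta, hx, zg_fam_single]),
    Finsupp.single_add]

/-- Compression of an implementer to a direct summand. -/
theorem exists_impl {M : Type u} [AddCommGroup M] [Module ℂ M] (X : AdmissibleModule A M)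
    (Δ : Module.End ℂ M) (hg : ∀ (n : ℤ) (x : M), x ∈ X.gr n → Δ x ∈ X.gr n)
    (hd : ∀ (u : V) (n : ℤ) (x : M), Δ (X.Y u n x) = X.Y (D u) n x + X.Y u n (Δ x))
    (N C : Submodule ℂ M) (hN : X.IsSub N) (hC : X.IsSub C) (hNC : IsCompl N C)
    (Z : AdmissibleModule A N) (hY : ∀ v n (y : N), ((Z.Y v n y : N) : M) = X.Y v n y)
    (hgr : ∀ n (y : N), y ∈ Z.gr n ↔ (y : M) ∈ X.gr n) :
    ∃ DM : Module.End ℂ N, (∀ (n : ℤ) (x : N), x ∈ Z.gr n → DM x ∈ Z.gr n) ∧
      ∀ (u : V) (n : ℤ) (x : N), DM (Z.Y u n x) = Z.Y (D u) n x + Z.Y u n (DM x) := by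
  set p : M →ₗ[ℂ] N := Submodule.projectionOnto N C hNC with hp
  have hp1 : ∀ y : N, p y = y := fun y => Submodule.projectionOnto_apply_left hNC y
  have hp2 : ∀ y : M, y ∈ C → p y = 0 := fun y hy =>
    (Submodule.projectionOnto_apply_eq_zero_iff hNC).2 hy
  have hdec : ∀ y : M, ∃ z ∈ C, y = p y + z := by
    intro y
    refine ⟨y - p y, ?_, by abel⟩
    rw [← Submodule.projectionOnto_apply_eq_zero_iff hNC, ← hp, map_sub, hp1, sub_self]
  have hpY : ∀ (u : V) (n : ℤ) (y : M), (p (X.Y u n y) : N) = Z.Y u n (p y) := by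
    intro u n y
    obtain ⟨z, hz, hyz⟩ := hdec y
    have h1 : X.Y u n y = ((Z.Y u n (p y) : N) : M) + X.Y u n z := by
      rw [hY, ← map_add, ← hyz]
    rw [h1, map_add, hp1, hp2 _ (hC.1 u n z hz), add_zero]
  have hpg : ∀ (n : ℤ) (y : M), y ∈ X.gr n → p y ∈ Z.gr n := by
    intro n y hy
    obtain ⟨z, hz, hyz⟩ := hdec y
    have h1 : hcomp X.internal n y = y := by
      rw [hcomp_of_mem X.internal n n y hy, if_pos rfl]
    have h2 : hcomp X.internal n (p y : M) ∈ N := ((X.isSub_iff N).1 hN).2 n _ (p y).2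
    have h3 : hcomp X.internal n z ∈ C := ((X.isSub_iff C).1 hC).2 n _ hz
    have h4 : p y = ⟨hcomp X.internal n (p y : M), h2⟩ := by
      have h5 : y = ((⟨hcomp X.internal n (p y : M), h2⟩ : N) : M) + hcomp X.internal n z := by
        show y = hcomp X.internal n (p y : M) + hcomp X.internal n z
        rw [← map_add, ← hyz, h1]
      calc p y = p (((⟨hcomp X.internal n (p y : M), h2⟩ : N) : M) + hcomp X.internal n z) := by
            rw [← h5]
        _ = ⟨hcomp X.internal n (p y : M), h2⟩ := by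
            rw [map_add, hp1, hp2 _ h3, add_zero]
    rw [hgr, h4]
    exact hcomp_mem X.internal n _
  refine ⟨p ∘ₗ Δ ∘ₗ N.subtype, fun n x hx => ?_, fun u n x => ?_⟩
  · exact hpg n _ (hg n _ ((hgr n x).1 hx))
  · rw [LinearMap.comp_apply, LinearMap.comp_apply, LinearMap.comp_apply, LinearMap.comp_apply,
      Submodule.subtype_apply, Submodule.subtype_apply, hY, hd, map_add, hpY, hpY, hp1]

end ZG

end Pool.Agent.DERVR
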