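import Pool.Agent.DERVR.RG
import Pool.Agent.DERVR.RH
import Pool.Agent.DERVR.FDB
import Pool.Agent.DERVR.ZA
import Pool.Agent.DERVR.ZB
import Pool.Agent.DERVR.ZC
import Pool.Agent.DERVR.ZE
import Pool.Agent.DERVR.ZF
import Pool.Agent.DERVR.ZG
import Pool.Agent.DERVR.ADJ
import Pool.Agent.DERVR.GSUB

/-!
# Project DERV, part I: ZH : the complete set of modules
-/

set_option autoImplicit false

universe u w

open Finset

namespace Pool.Agent.DERVR

open Pool.Agent.VOAut Pool.Agent.DERV

variable {V : Type u} [AddCommGroup V] [Module ℂ V]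

section ZH

section gen

variable {A : VOA V} {M : Type u} [AddCommGroup M] [Module ℂ M] (X : AdmissibleModule A M)

/-- zero modes on the lowest piece -/
noncomputable def zho : V →ₗ[ℂ] Module.End ℂ (X.gr 0) where
  toFun v := (zm X v).restrict (fun x hx => zm_gr X v 0 x hx)
  map_add' u v := by
    ext x
    simp only [LinearMap.coe_restrict_apply, LinearMap.add_apply, Submodule.coe_add]
    rw [← zmL_apply, map_add]
    rfl
  map_smul' c v := by
    ext x
    simp only [LinearMap.coe_restrict_apply, LinearMap.smul_apply, Submodule.coe_smul,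
      RingHom.id_apply]
    rw [← zmL_apply, map_smul]
    rfl

theorem zho_coe (v : V) (x : X.gr 0) : ((zho X v x : X.gr 0) : M) = zm X v x := rfl

theorem zho_mul (u v : V) : zho X (WW A phs u v) = zho X u * zho X v := by
  ext x
  rw [zho_coe, zm_star X u v x x.2]
  rfl

theorem zho_circ (u v : V) : zho X (WW A pho u v) = 0 := by
  ext x
  rw [zho_coe, zm_circ X u v x x.2]
  rfl

theorem zho_zero (u v : V) : zho X (WW A 1 u v) = zho X u * zho X v - zho X v * zho X u := by
  ext x
  rw [zho_coe, zm_zero X u v x x.2]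
  rfl

theorem zho_vac : zho X A.vac = 1 := by
  ext x
  rw [zho_coe, zm_vac]
  rfl

/-- degree zero part of a submodule -/
def zhU (N : Submodule ℂ M) : Submodule ℂ (X.gr 0) := N.comap (X.gr 0).subtype

theorem zhU_st (N : Submodule ℂ M) (hN : X.IsSub N) (v : V) (x : X.gr 0) (hx : x ∈ zhU X N) :
    zho X v x ∈ zhU X N := by
  show ((zho X v x : X.gr 0) : M) ∈ N
  rw [zho_coe]
  refine hom_ind A (P := fun v => zm X v x ∈ N) v ?_ ?_ ?_
  · rw [← zmL_apply, map_zero]
    exact N.zero_mem
  · intro a b ha hb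
    rw [← zmL_apply, map_add]
    exact N.add_mem ha hb
  · intro a y hy
    rw [zm_of_mem X a y hy]
    exact hN.1 y (a - 1) x hx

theorem zhU_irr (N : Submodule ℂ M) (hN : X.IsIrr N) (T : Submodule ℂ (X.gr 0))
    (hT : T ≤ zhU X N) (hst : ∀ v, ∀ x ∈ T, zho X v x ∈ T) : T = ⊥ ∨ T = zhU X N := by
  have h1 : T.map (X.gr 0).subtype ≤ N ⊓ X.gr 0 := by
    rintro _ ⟨x, hx, rfl⟩
    exact ⟨hT hx, x.2⟩
  have h2 : ∀ v, ∀ y ∈ T.map (X.gr 0).subtype, zm X v y ∈ T.map (X.gr 0).subtype := by
    rintro v _ ⟨x, hx, rfl⟩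
    exact ⟨zho X v x, hst v x hx, rfl⟩
  rcases irr_top X N hN _ h1 h2 with h3 | h3
  · left
    rw [eq_bot_iff]
    intro x hx
    have h4 : (x : M) ∈ T.map (X.gr 0).subtype := ⟨x, hx, rfl⟩
    rw [h3, Submodule.mem_bot] at h4
    rw [Submodule.mem_bot]
    exact Subtype.ext h4
  · right
    apply le_antisymm hT
    intro x hx
    have h4 : (x : M) ∈ T.map (X.gr 0).subtype := by
      rw [h3]
      exact ⟨hx, x.2⟩
    obtain ⟨y, hy, hyx⟩ := h4
    have : y = x := Subtype.ext hyx
    rw [← this]
    exact hy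

theorem zhU_top {ι : Type*} (N : ι → Submodule ℂ M) (hN : ∀ i, X.IsSub (N i))
    (htop : ⨆ i, N i = ⊤) : ⨆ i, zhU X (N i) = ⊤ := by
  rw [eq_top_iff]
  intro x _
  have hx : (x : M) ∈ ⨆ i, N i := by
    rw [htop]
    exact Submodule.mem_top
  have key : ∀ y ∈ ⨆ i, N i, (⟨hcomp X.internal 0 y, hcomp_mem X.internal 0 y⟩ : X.gr 0) ∈
      ⨆ i, zhU X (N i) := by
    intro y hy
    refine Submodule.iSup_induction N (motive := fun y =>
      (⟨hcomp X.internal 0 y, hcomp_mem X.internal 0 y⟩ : X.gr 0) ∈ ⨆ i, zhU X (N i)) hy ?_ ?_ ?_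
    · intro i z hz
      apply Submodule.mem_iSup_of_mem i
      show hcomp X.internal 0 z ∈ N i
      exact ((X.isSub_iff (N i)).1 (hN i)).2 0 z hz
    · have : (⟨hcomp X.internal 0 0, hcomp_mem X.internal 0 0⟩ : X.gr 0) = 0 := by
        apply Subtype.ext
        show hcomp X.internal 0 0 = 0
        rw [map_zero]
      rw [this]
      exact Submodule.zero_mem _
    · intro a b ha hb
      have : (⟨hcomp X.internal 0 (a + b), hcomp_mem X.internal 0 (a + b)⟩ : X.gr 0) =
          ⟨hcomp X.internal 0 a, hcomp_mem X.internal 0 a⟩ +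
          ⟨hcomp X.internal 0 b, hcomp_mem X.internal 0 b⟩ := by
        apply Subtype.ext
        show hcomp X.internal 0 (a + b) = hcomp X.internal 0 a + hcomp X.internal 0 b
        rw [map_add]
      rw [this]
      exact Submodule.add_mem _ ha hb
  have h1 := key x hx
  have h2 : (⟨hcomp X.internal 0 (x : M), hcomp_mem X.internal 0 (x : M)⟩ : X.gr 0) = x := by
    apply Subtype.ext
    show hcomp X.internal 0 (x : M) = x
    rw [hcomp_of_mem X.internal 0 0 x x.2, if_pos rfl]
  rwa [h2] at h1

/-- the trace functional of a submodule -/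
noncomputable def zhf (N : Submodule ℂ M) (hN : X.IsSub N) : Module.Dual ℂ V where
  toFun v := LinearMap.trace ℂ (zhU X N) ((zho X v).restrict (fun x hx => zhU_st X N hN v x hx))
  map_add' u v := by
    rw [← map_add]
    congr 1
    ext x
    simp only [LinearMap.coe_restrict_apply, LinearMap.add_apply, Submodule.coe_add, map_add]
  map_smul' c v := by
    rw [RingHom.id_apply, ← map_smul]
    congr 1
    ext x
    simp only [LinearMap.coe_restrict_apply, LinearMap.smul_apply, Submodule.coe_smul, map_smul]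

theorem zhf_tf (N : Submodule ℂ M) (hN : X.IsSub N) : IsTF A (zhf X N hN) := by
  constructor
  · intro u v
    show LinearMap.trace ℂ (zhU X N) ((zho X (WW A pho u v)).restrict _) = 0
    have : ((zho X (WW A pho u v)).restrict
        (fun x hx => zhU_st X N hN (WW A pho u v) x hx)) = 0 := by
      ext x
      rw [LinearMap.coe_restrict_apply, zho_circ]
      rfl
    rw [this, map_zero]
  · intro u v
    show LinearMap.trace ℂ (zhU X N) ((zho X (WW A 1 u v)).restrict _) = 0
    have : ((zho X (WW A 1 u v)).restrict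
        (fun x hx => zhU_st X N hN (WW A 1 u v) x hx)) +
        ((zho X v).restrict (fun x hx => zhU_st X N hN v x hx)) *
          ((zho X u).restrict (fun x hx => zhU_st X N hN u x hx)) =
        ((zho X u).restrict (fun x hx => zhU_st X N hN u x hx)) *
          ((zho X v).restrict (fun x hx => zhU_st X N hN v x hx)) := by
      ext x
      have h1 := zm_zero X u v x.1 x.1.2
      have h2 : zm X (WW A 1 u v) x.1 + zm X v (zm X u x.1) = zm X u (zm X v x.1) := by
        rw [h1, sub_add_cancel]
      exact h2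
    have h2 := congrArg (LinearMap.trace ℂ (zhU X N)) this
    rw [map_add, LinearMap.trace_mul_comm] at h2
    exact add_eq_right.1 h2

/-- the two traces agree -/
theorem zhf_trg (N : Submodule ℂ M) (hN : X.IsSub N) (Z : AdmissibleModule A N)
    (hY : ∀ v n (y : N), ((Z.Y v n y : N) : M) = X.Y v n y)
    (hg : ∀ n (y : N), y ∈ Z.gr n ↔ (y : M) ∈ X.gr n) (v : V) :
    trg Z 0 (zm Z v) = zhf X N hN v := by
  have hst : ∀ v, ∀ x ∈ N ⊓ X.gr 0, zm X v x ∈ N ⊓ X.gr 0 := fun v x hx =>
    ⟨zhU_st X N hN v ⟨x, hx.2⟩ hx.1, zm_gr X v 0 x hx.2⟩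
  rw [subMod_trg X N Z hY hg hst v]
  let e : ↥(N ⊓ X.gr 0) ≃ₗ[ℂ] ↥(zhU X N) :=
    { toFun := fun x => ⟨⟨x.1, x.2.2⟩, x.2.1⟩
      map_add' := fun _ _ => rfl
      map_smul' := fun _ _ => rfl
      invFun := fun x => ⟨x.1.1, x.2, x.1.2⟩
      left_inv := fun _ => rfl
      right_inv := fun _ => rfl }
  have h1 : (zho X v).restrict (fun x hx => zhU_st X N hN v x hx) =
      e.conj ((zm X v).restrict (hst v)) := by
    ext x
    rfl
  show _ = LinearMap.trace ℂ (zhU X N) ((zho X v).restrict _)
  rw [h1, LinearMap.trace_conj']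

end gen

variable {A : VOA V} {D : Module.End ℂ V}

theorem zh_al0 (h : CFT A) (X : AdmissibleModule A (RM A)) (hX : IsReg A X) : IsTF A (al0 A) := by
  obtain ⟨y, hy⟩ := rv_surj A (Finsupp.single 0 (al0 A)) (fun r => by
    by_cases hr : r = 0
    · subst hr
      rw [Finsupp.single_eq_same]
      exact al0_mem h
    · rw [Finsupp.single_eq_of_ne hr]
      exact Submodule.zero_mem _)
  have hy0 : y ∈ X.gr 0 := by
    rw [hX.gr, hy, Finsupp.single_eq_same]
  have hne : y ≠ 0 := by
    intro h0
    rw [h0, map_zero] at hy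
    have h1 := congrArg (fun F : ℤ →₀ Module.Dual ℂ V => F 0 A.vac) hy
    simp only [Finsupp.coe_zero, Pi.zero_apply, LinearMap.zero_apply, Finsupp.single_eq_same] at h1
    rw [al0_vac h] at h1
    exact one_ne_zero h1.symm
  have hal := reg_al0 h X hX y hy
  constructor
  · intro u v
    have h1 := hal (WW A pho u v)
    rw [zm_circ X u v y hy0] at h1
    rcases smul_eq_zero.1 h1.symm with h2 | h2
    · exact h2
    · exact absurd h2 hne
  · intro u v
    have h1 := hal (WW A 1 u v)
    rw [zm_zero X u v y hy0, hal v, map_smul, hal u, map_smul, hal v, smul_comm, sub_self] at h1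
    rcases smul_eq_zero.1 h1.symm with h2 | h2
    · exact h2
    · exact absurd h2 hne

theorem exists_pack (h : CFT A) (hc : C2 A) (hr : A.Rational) (hD : IsDer A D) :
    Nonempty (Pack A D) := by
  obtain ⟨X, hX⟩ := exists_reg A
  obtain ⟨ι, N, hirr, hind, htop⟩ := hr (RM A) X
  have hfin : ∀ r, Module.Finite ℂ (X.gr r) := fun r => reg_findim h hc X hX r
  have : FiniteDimensional ℂ (X.gr 0) := hfin 0
  have hsub : ∀ i, X.IsSub (N i) := fun i => (hirr i).1
  -- trace functionals
  let T : Submodule ℂ (Module.Dual ℂ V) :=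
    { carrier := {α | IsTF A α}
      zero_mem' := ⟨fun _ _ => rfl, fun _ _ => rfl⟩
      add_mem' := fun {a b} ha hb => ⟨fun u v => by
          rw [LinearMap.add_apply, ha.1, hb.1, add_zero], fun u v => by
          rw [LinearMap.add_apply, ha.2, hb.2, add_zero]⟩
      smul_mem' := fun c a ha => ⟨fun u v => by
          rw [LinearMap.smul_apply, ha.1, smul_zero], fun u v => by
          rw [LinearMap.smul_apply, ha.2, smul_zero]⟩ }
  have hTmem : ∀ α, α ∈ T ↔ IsTF A α := fun α => Iff.rfl
  have hker : ∀ α, IsTF A α → ∀ v, zho X v = 0 → α v = 0 := by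
    intro α hα v hv
    apply reg_ker X hX v _ α ((mem_GG0 α).2 hα.1)
    intro y hy
    have := congrArg (fun f : Module.End ℂ (X.gr 0) => ((f ⟨y, hy⟩ : X.gr 0) : RM A)) hv
    exact this
  have hspan : T ≤ Submodule.span ℂ (Set.range fun i => zhf X (N i) (hsub i)) := by
    intro α hα
    rw [hTmem] at hα
    obtain ⟨c, hc'⟩ := trace_forms (zho X) (fun u v => ⟨WW A phs u v, zho_mul X u v⟩)
      ⟨A.vac, zho_vac X⟩ (fun i => zhU X (N i)) (fun i v x hx => zhU_st X (N i) (hsub i) v x hx)
      (fun i T hT hst => zhU_irr X (N i) (hirr i) T hT hst) (zhU_top X N hsub htop) α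
      (hker α hα) (by
        intro u v w w' hw hw'
        have h1 : α (w - WW A phs u v) = 0 := by
          apply hker α hα
          rw [map_sub, hw, zho_mul, sub_self]
        have h2 : α (w' - WW A phs v u) = 0 := by
          apply hker α hα
          rw [map_sub, hw', zho_mul, sub_self]
        have h3 : α (WW A 1 u v - (WW A phs u v - WW A phs v u)) = 0 := by
          apply hker α hα
          rw [map_sub, map_sub, zho_zero, zho_mul, zho_mul, sub_self]
        rw [map_sub, hα.2, map_sub] at h3
        rw [map_sub, sub_eq_zero] at h1 h2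
        rw [h1, h2]
        linear_combination -h3)
    have : α = c.sum fun i z => z • zhf X (N i) (hsub i) := by
      ext v
      rw [hc' v, Finsupp.sum, Finsupp.sum, LinearMap.sum_apply]
      rfl
    rw [this]
    refine Submodule.sum_mem _ (fun i _ => Submodule.smul_mem _ _ (Submodule.subset_span ⟨i, rfl⟩))
  have hTfin : FiniteDimensional ℂ T := by
    have h1 : T ≤ GG A 0 := fun α hα => (mem_GG0 α).2 hα.1
    have := GG_findim h hc 0
    exact Submodule.finiteDimensional_of_le h1
  have hal : al0 A ∈ T := zh_al0 h X hX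
  have hal0 : al0 A ≠ 0 := by
    intro h0
    have := al0_vac h
    rw [h0] at this
    exact one_ne_zero this.symm
  obtain ⟨n, g, hg0, hgi, hli, hTs⟩ := exists_basis_of_span T
    (fun i => zhf X (N i) (hsub i)) hspan (fun i => zhf_tf X (N i) (hsub i)) hTfin (al0 A) hal hal0
  obtain ⟨Δ, hΔg, hΔd⟩ := exists_Delta hD X hX
  -- the modules
  have hmod : ∀ j : Fin (n + 1), ∃ t : TMod A D, (j = 0 → t.h = 0) ∧
      ∀ v, trg t.X 0 (zm t.X v) = g j v := by
    intro j
    by_cases hj : j = 0
    · obtain ⟨t, ht0, ht⟩ := exists_vac_tmod h hD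
      exact ⟨t, fun _ => ht0, fun v => by rw [ht, hj, hg0]⟩
    · obtain ⟨i, hi⟩ := hgi j hj
      obtain ⟨Z, hY, hg⟩ := exists_subMod X (N i) (hsub i)
      have hne : N i ⊓ X.gr 0 ≠ ⊥ := by
        intro hbot
        have hU : zhU X (N i) = ⊥ := by
          rw [eq_bot_iff]
          intro x hx
          have : (x : RM A) ∈ N i ⊓ X.gr 0 := ⟨hx, x.2⟩
          rw [hbot, Submodule.mem_bot] at this
          rw [Submodule.mem_bot]
          exact Subtype.ext this
        have h0 : g j = 0 := by
          rw [hi]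
          ext v
          show LinearMap.trace ℂ (zhU X (N i)) _ = 0
          have : Subsingleton (zhU X (N i)) := by
            rw [hU]
            infer_instance
          have : ((zho X v).restrict (fun x hx => zhU_st X (N i) (hsub i) v x hx)) = 0 :=
            Subsingleton.elim _ _
          rw [this, map_zero]
        exact hli.ne_zero j h0
      have hf0 : FiniteDimensional ℂ ↥(N i ⊓ X.gr 0) :=
        Submodule.finiteDimensional_of_le inf_le_right
      obtain ⟨hw, hL⟩ := exists_wt X (N i) (hirr i) hne hf0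
      have hcompl : IsCompl (N i) (⨆ k, ⨆ (_ : k ≠ i), N k) := by
        refine ⟨hind i, ?_⟩
        rw [codisjoint_iff, eq_top_iff, ← htop]
        apply iSup_le
        intro k
        by_cases hk : k = i
        · rw [hk]
          exact le_sup_left
        · exact le_trans (le_iSup₂_of_le k hk le_rfl) le_sup_right
      have hC : X.IsSub (⨆ k, ⨆ (_ : k ≠ i), N k) :=
        AdmissibleModule.IsSub.iSup X (fun k => AdmissibleModule.IsSub.iSup X (fun _ => hsub k))
      obtain ⟨DM, hDg, hDd⟩ := exists_impl X Δ hΔg hΔd (N i) _ (hsub i) hC hcompl Z hY hg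
      refine ⟨{ M := N i, X := Z, fd := ?_, h := hw, L0 := ?_, DM := DM, DM_gr := hDg,
                DM_der := hDd }, fun h0 => absurd h0 hj, ?_⟩
      · intro m
        have := hfin m
        let e : Z.gr m →ₗ[ℂ] X.gr m :=
          { toFun := fun x => ⟨(x.1 : RM A), (hg m x.1).1 x.2⟩
            map_add' := fun _ _ => rfl
            map_smul' := fun _ _ => rfl }
        apply Module.Finite.of_injective e
        intro x y hxy
        have := congrArg (fun z : X.gr m => (z : RM A)) hxy
        exact Subtype.ext (Subtype.ext this)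
      · intro m x hx
        apply Subtype.ext
        rw [hY]
        exact hL m x x.2 ((hg m x).1 hx)
      · intro v
        rw [hi]
        exact zhf_trg X (N i) (hsub i) Z hY hg v
  choose t ht0 ht using hmod
  refine ⟨{ n := n, t := t, h0 := ht0 0 rfl, tr0 := fun v => by rw [ht, hg0], span := ?_,
            indep := ?_ }⟩
  · intro α hα
    obtain ⟨c, hc'⟩ := (Submodule.mem_span_range_iff_exists_fun ℂ).1 (hTs hα)
    refine ⟨c, fun v => ?_⟩
    rw [← hc', LinearMap.sum_apply]
    refine Finset.sum_congr rfl (fun j _ => ?_)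
    rw [ht]
    rfl
  · intro c hc'
    have h1 := Fintype.linearIndependent_iff.1 hli c (by
      ext v
      rw [LinearMap.sum_apply, LinearMap.zero_apply, ← hc' v]
      refine Finset.sum_congr rfl (fun j _ => ?_)
      rw [ht]
      rfl)
    funext j
    exact h1 j

end ZH

end Pool.Agent.DERVR
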