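import Pool.Agent.DERVR.GSUB

/-!
# Project DERV, part I: ZI : vacuum type modules
-/

set_option autoImplicit false

universe u w

open Finset

namespace Pool.Agent.DERVR

open Pool.Agent.VOAut Pool.Agent.DERV

variable {V : Type u} [AddCommGroup V] [Module ℂ V]

section ZI

variable {A : VOA V} {M : Type u} [AddCommGroup M] [Module ℂ M] (X : AdmissibleModule A M)

theorem zi_ch (i : ℕ) : (-1 : ℂ) ^ i * ((Ring.choose (-2 : ℤ) i : ℤ) : ℂ) = (i : ℂ) + 1 := by
  induction i with
  | zero => simp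
  | succ i ih =>
    have h : Ring.choose (-1 : ℤ) (i + 1) = Ring.choose (-2 : ℤ) i + Ring.choose (-2 : ℤ) (i + 1) := by
      have := Ring.choose_succ_succ (-2 : ℤ) i
      exact this
    have h2 : ((Ring.choose (-2 : ℤ) (i + 1) : ℤ) : ℂ) =
        (-1 : ℂ) ^ (i + 1) - ((Ring.choose (-2 : ℤ) i : ℤ) : ℂ) := by
      have h3 : Ring.choose (-2 : ℤ) (i + 1) = (-1) ^ (i + 1) - Ring.choose (-2 : ℤ) i := by
        rw [← choose_neg_one (i + 1), h]
        ring
      rw [h3]
      push_cast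
      ring
    rw [h2]
    have h4 : (-1 : ℂ) ^ (i + 1) * ((-1 : ℂ) ^ (i + 1) - ((Ring.choose (-2 : ℤ) i : ℤ) : ℂ)) =
        ((-1 : ℂ) ^ (i + 1) * (-1 : ℂ) ^ (i + 1)) +
          (-1 : ℂ) ^ i * ((Ring.choose (-2 : ℤ) i : ℤ) : ℂ) := by
      ring
    rw [h4, ih, ← mul_pow]
    push_cast
    norm_num
    ring

/-- Only the first term of the left side of the Jacobi identity for `m = 0`. -/
theorem zi_left (u v : V) (x : M) (l n : ℤ) :
    (∑ᶠ i : ℕ, ((Ring.choose (0 : ℤ) i : ℤ) : ℂ) • X.Y (A.Y u (l + i) v) (0 + n - i) x) =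
      X.Y (A.Y u l v) n x := by
  rw [finsum_eq_single _ 0]
  · simp
  · intro i hi
    rw [Ring.choose_zero_pos _ (Nat.pos_of_ne_zero hi)]
    simp

/-- Translation on modules. -/
theorem zi_trans (u : V) (n : ℤ) (x : M) :
    X.Y (A.Y A.om 0 u) n x = (-(n : ℂ)) • X.Y u (n - 1) x := by
  have e : A.Y u (-2) A.vac = A.Y A.om 0 u := by
    have := A.create u 1
    simpa using this
  have j := X.jacobi u A.vac x (-2) 0 n
  rw [zi_left, e] at j
  rw [j]
  have hf : ∀ i : ℕ, ((-1 : ℂ) ^ i * ((Ring.choose (-2 : ℤ) i : ℤ) : ℂ)) •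
      (X.Y u (0 + -2 - i) (X.Y A.vac (n + i) x) -
        (-1 : ℂ) ^ (-2 : ℤ) • X.Y A.vac (n + -2 - i) (X.Y u (0 + i) x)) =
      ((i : ℂ) + 1) • ((if n + i = -1 then X.Y u (-2 - i) x else 0) -
        (if n - 2 - i = -1 then X.Y u i x else 0)) := by
    intro i
    rw [zi_ch, X.vacuum, X.vacuum]
    have e1 : (0 : ℤ) + -2 - i = -2 - i := by ring
    have e2 : n + -2 - (i : ℤ) = n - 2 - i := by ring
    have e3 : (0 : ℤ) + i = i := by ring
    rw [e1, e2, e3]
    have e4 : (-1 : ℂ) ^ (-2 : ℤ) = 1 := by norm_num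
    rw [e4, one_smul]
    congr 2
    split_ifs
    · rfl
    · rw [map_zero]
  rw [finsum_congr hf]
  rcases lt_trichotomy n 0 with hn | hn | hn
  · rw [finsum_eq_single _ (-1 - n).toNat]
    · have h1 : (((-1 - n).toNat : ℕ) : ℤ) = -1 - n := Int.toNat_of_nonneg (by omega)
      rw [if_pos (by omega), if_neg (by omega), sub_zero]
      have h2 : (((-1 - n).toNat : ℕ) : ℂ) = -1 - (n : ℂ) := by
        exact_mod_cast congrArg (fun z : ℤ => (z : ℂ)) h1
      rw [h2, h1]
      have h3 : -2 - (-1 - n) = n - 1 := by ring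
      rw [h3]
      congr 1
      ring
    · intro i hi
      have h1 : n + i ≠ -1 := by
        intro h
        apply hi
        omega
      rw [if_neg h1, if_neg (by omega), sub_zero, smul_zero]
  · subst hn
    rw [finsum_eq_zero_of_forall_eq_zero]
    · simp
    · intro i
      rw [if_neg (by omega), if_neg (by omega), sub_zero, smul_zero]
  · rw [finsum_eq_single _ (n - 1).toNat]
    · have h1 : (((n - 1).toNat : ℕ) : ℤ) = n - 1 := Int.toNat_of_nonneg (by omega)
      rw [if_neg (by omega), if_pos (by omega), zero_sub, smul_neg, ← neg_smul]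
      have h2 : (((n - 1).toNat : ℕ) : ℂ) = (n : ℂ) - 1 := by
        exact_mod_cast congrArg (fun z : ℤ => (z : ℂ)) h1
      rw [h2, h1]
      congr 1
      ring
    · intro i hi
      have h1 : n - 2 - i ≠ -1 := by
        intro h
        apply hi
        omega
      rw [if_neg h1, if_neg (by omega), sub_zero, smul_zero]

/-- The commutator with the translation operator. -/
theorem zi_comm (v : V) (m : ℤ) (x : M) :
    X.Y A.om 0 (X.Y v m x) = X.Y v m (X.Y A.om 0 x) + (-(m : ℂ)) • X.Y v (m - 1) x := by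
  have j := X.jacobi A.om v x 0 0 m
  rw [zi_left, zi_trans] at j
  rw [j, finsum_eq_single _ 0]
  · simp
  · intro i hi
    rw [Ring.choose_zero_pos _ (Nat.pos_of_ne_zero hi)]
    simp

theorem zi_gr_neg (h : CFT A) (a : ℤ) (ha : a < 0) (v : V) (hv : v ∈ A.gr a) : v = 0 := by
  rw [h.neg a ha, Submodule.mem_bot] at hv
  exact hv

theorem zi_trans_zero (h : CFT A) (N : Submodule ℂ M) (hN : X.IsIrr N) (x : M)
    (hx : x ∈ N) (hv : IsVac X x) : X.Y A.om 0 x = 0 := by
  by_contra h0
  have hy : X.Y A.om 0 x ∈ N := hN.1.1 _ _ _ hx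
  have hg : X.Y A.om 0 x ∈ X.gr 1 := by
    have := X.graded 2 0 0 A.om x A.om_mem hv.1
    exact this
  have hgen := irr_gen X N hN 1 _ hy hg h0
  have hx2 : x ∈ gsub X (Submodule.span ℂ {X.Y A.om 0 x}) := by
    rw [hgen]
    exact hx
  have h1 := gsub_gr X (Submodule.span ℂ {X.Y A.om 0 x}) 1
    (by rw [Submodule.span_le, Set.singleton_subset_iff]; exact hg) 0 x hx2 hv.1
  apply hv.2.1
  have h2 : Submodule.span ℂ {z | ∃ (a : ℤ) (v : V) (y : M), v ∈ A.gr a ∧
      y ∈ Submodule.span ℂ {X.Y A.om 0 x} ∧ z = X.Y v (a - 1 + (1 - 0)) y} ≤ ⊥ := by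
    rw [Submodule.span_le]
    rintro z ⟨a, v, y, hva, hy', rfl⟩
    obtain ⟨c, rfl⟩ := Submodule.mem_span_singleton.1 hy'
    rw [SetLike.mem_coe, Submodule.mem_bot, map_smul]
    have e1 : a - 1 + (1 - 0) = a := by ring
    rw [e1]
    have h3 := zi_comm X v a x
    have h4 : X.Y v a x = 0 := by
      have := X.graded a a 0 v x hva hv.1
      rw [X.nonneg _ (by omega), Submodule.mem_bot] at this
      exact this
    rw [h4, map_zero] at h3
    have h5 : X.Y v (a - 1) x = al0 A v • x := by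
      rw [← zm_of_mem X a v hva]
      exact hv.2.2 v
    have h6 : (-(a : ℂ)) • X.Y v (a - 1) x = 0 := by
      rw [h5]
      by_cases ha : a = 0
      · rw [ha]
        simp
      · rw [al0_of_mem h a ha v hva, zero_smul, smul_zero]
    rw [h6, add_zero] at h3
    rw [← h3, smul_zero]
  exact (Submodule.mem_bot ℂ).1 (h2 h1)

theorem zi_nonneg_zero (h : CFT A) (N : Submodule ℂ M) (hN : X.IsIrr N) (x : M)
    (hx : x ∈ N) (hv : IsVac X x) (v : V) (m : ℤ) (hm : 0 ≤ m) : X.Y v m x = 0 := by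
  have ht := zi_trans_zero X h N hN x hx hv
  obtain ⟨K, hK⟩ := X.trunc_nat v x 0
  have key : ∀ j : ℕ, j ≤ K → X.Y v ((K : ℤ) - j) x = 0 := by
    intro j
    induction j with
    | zero =>
      intro _
      have := hK K le_rfl
      simpa using this
    | succ j ih =>
      intro hj
      have h1 := ih (by omega)
      have h2 := zi_comm X v ((K : ℤ) - j) x
      rw [h1, ht, map_zero, map_zero, zero_add] at h2
      have h3 : (-(((K : ℤ) - j : ℤ) : ℂ)) ≠ 0 := by
        rw [neg_ne_zero, Int.cast_ne_zero]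
        omega
      have h4 := (smul_eq_zero.1 h2.symm).resolve_left h3
      have h5 : (K : ℤ) - ((j + 1 : ℕ) : ℤ) = (K : ℤ) - j - 1 := by
        push_cast
        ring
      rw [h5]
      exact h4
  by_cases hmK : m ≤ K
  · have := key ((K : ℤ) - m).toNat (by omega)
    have h6 : ((((K : ℤ) - m).toNat : ℕ) : ℤ) = K - m := Int.toNat_of_nonneg (by omega)
    rw [h6] at this
    have h7 : (K : ℤ) - (K - m) = m := by ring
    rwa [h7] at this
  · have := hK m.toNat (by omega)
    have h6 : ((m.toNat : ℕ) : ℤ) = m := Int.toNat_of_nonneg hm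
    rw [h6, zero_add] at this
    exact this

theorem vac_type (h : CFT A) (h1 : A.gr 1 = ⊥) (N : Submodule ℂ M) (hN : X.IsIrr N) (x : M)
    (hx : x ∈ N) (hv : IsVac X x) : N ⊓ X.gr 1 = ⊥ := by
  rw [eq_bot_iff]
  rintro y ⟨hyN, hy1⟩
  have hgen := irr_gen X N hN 0 x hx hv.1 hv.2.1
  have hy2 : y ∈ gsub X (Submodule.span ℂ {x}) := by
    rw [hgen]
    exact hyN
  have h2 := gsub_gr X (Submodule.span ℂ {x}) 0
    (by rw [Submodule.span_le, Set.singleton_subset_iff]; exact hv.1) 1 y hy2 hy1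
  have h3 : Submodule.span ℂ {z | ∃ (a : ℤ) (v : V) (y : M), v ∈ A.gr a ∧
      y ∈ Submodule.span ℂ {x} ∧ z = X.Y v (a - 1 + (0 - 1)) y} ≤ ⊥ := by
    rw [Submodule.span_le]
    rintro z ⟨a, v, y, hva, hy', rfl⟩
    obtain ⟨c, rfl⟩ := Submodule.mem_span_singleton.1 hy'
    rw [SetLike.mem_coe, Submodule.mem_bot, map_smul]
    rcases lt_or_ge a 2 with ha | ha
    · rcases lt_trichotomy a 0 with h0 | h0 | h0
      · rw [zi_gr_neg h a h0 v hva]
        simp
      · subst h0
        rw [h.zero] at hva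
        obtain ⟨d, rfl⟩ := Submodule.mem_span_singleton.1 hva
        rw [map_smul, Pi.smul_apply, LinearMap.smul_apply, X.vacuum, if_neg (by omega)]
        simp
      · have h4 : a = 1 := by omega
        subst h4
        rw [h1, Submodule.mem_bot] at hva
        rw [hva]
        simp
    · rw [zi_nonneg_zero X h N hN x hx hv v _ (by omega), smul_zero]
  exact h3 h2

end ZI

end Pool.Agent.DERVR
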