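import Pool.Agent.DERVR.ZH
import Pool.Agent.DERVR.ZD
import Pool.Agent.DERVR.ZI

/-!
# Project DERV, part I: ZJ : the element e'
-/

set_option autoImplicit false

universe u w

open Finset

namespace Pool.Agent.DERVR

open Pool.Agent.VOAut Pool.Agent.DERV

variable {V : Type u} [AddCommGroup V] [Module ℂ V]

section ZJ

variable {A : VOA V}

theorem zj_vec (h : CFT A) (X : AdmissibleModule A (RM A)) (hX : IsReg A X) :
    ∃ y : X.gr 0, y ≠ 0 ∧ ∀ v, zho X v y = al0 A v • y := by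
  obtain ⟨y, hy⟩ := rv_surj A (Finsupp.single 0 (al0 A)) (fun r => by
    by_cases hr : r = 0
    · subst hr
      rw [Finsupp.single_eq_same]
      exact al0_mem h
    · rw [Finsupp.single_eq_of_ne hr]
      exact Submodule.zero_mem _)
  have hy0 : y ∈ X.gr 0 := by
    rw [hX.gr, hy, Finsupp.single_eq_same]
  refine ⟨⟨y, hy0⟩, ?_, fun v => Subtype.ext (reg_al0 h X hX y hy v)⟩
  intro h0
  have h0' : y = 0 := congrArg Subtype.val h0
  rw [h0', map_zero] at hy
  have h1 := congrArg (fun F : ℤ →₀ Module.Dual ℂ V => F 0 A.vac) hy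
  simp only [Finsupp.coe_zero, Pi.zero_apply, LinearMap.zero_apply, Finsupp.single_eq_same] at h1
  rw [al0_vac h] at h1
  exact one_ne_zero h1.symm

theorem exists_eprime (h : CFT A) (h1 : A.gr 1 = ⊥) (hc : C2 A) (hr : A.Rational)
    (X : AdmissibleModule A (RM A)) (hX : IsReg A X) :
    ∃ e : V, al0 A e = 0 ∧ ∀ (a : ℤ) (v : V), v ∈ A.gr a → ∀ y ∈ X.gr 1,
      zm X e (X.Y v a y) = X.Y v a y := by
  obtain ⟨ι, N, hirr, hind, htop⟩ := hr (RM A) X
  have : FiniteDimensional ℂ (X.gr 0) := reg_findim h hc X hX 0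
  have hsub : ∀ i, X.IsSub (N i) := fun i => (hirr i).1
  obtain ⟨y0, hy0, hy0'⟩ := zj_vec h X hX
  have hinj : ∀ a b : ℂ, a • y0 = b • y0 → a = b := by
    intro a b hab
    have h2 : (a - b) • y0 = 0 := by rw [sub_smul, hab, sub_self]
    rcases smul_eq_zero.1 h2 with h3 | h3
    · exact sub_eq_zero.1 h3
    · exact absurd h3 hy0
  obtain ⟨e, he0, he⟩ := exists_idem (zho X) (fun u v => ⟨WW A phs u v, zho_mul X u v⟩)
    ⟨A.vac, zho_vac X⟩ (fun i => zhU X (N i)) (fun i v x hx => zhU_st X (N i) (hsub i) v x hx)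
    (fun i T hT hst => zhU_irr X (N i) (hirr i) T hT hst) (zhU_top X N hsub htop) (al0 A)
    (by
      intro v hv
      apply hinj
      rw [← hy0', hv, LinearMap.zero_apply, zero_smul])
    (by
      intro u v w hw
      apply hinj
      rw [← hy0', hw, Module.End.mul_apply, hy0', map_smul, hy0', smul_smul, mul_comm])
    (by
      intro e he
      apply hinj
      rw [← hy0', he, Module.End.one_apply, one_smul])
  refine ⟨e, he0, fun a v hv y hy => ?_⟩
  have key : ∀ y ∈ ⨆ i, N i, zm X e (X.Y v a (hcomp X.internal 1 y)) =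
      X.Y v a (hcomp X.internal 1 y) := by
    intro y hy
    refine Submodule.iSup_induction N (motive := fun y =>
      zm X e (X.Y v a (hcomp X.internal 1 y)) = X.Y v a (hcomp X.internal 1 y)) hy ?_ ?_ ?_
    · intro i z hz
      have hzN : hcomp X.internal 1 z ∈ N i := ((X.isSub_iff (N i)).1 (hsub i)).2 1 z hz
      have hzg : hcomp X.internal 1 z ∈ X.gr 1 := hcomp_mem X.internal 1 z
      by_cases hvac : ∃ x ∈ zhU X (N i), x ≠ 0 ∧ ∀ v, zho X v x = al0 A v • x
      · obtain ⟨x, hx, hx0, hxv⟩ := hvac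
        have hbot := vac_type X h h1 (N i) (hirr i) (x : RM A) hx
          ⟨x.2, fun h0 => hx0 (Subtype.ext h0), fun v => congrArg Subtype.val (hxv v)⟩
        have hz0 : hcomp X.internal 1 z ∈ N i ⊓ X.gr 1 := ⟨hzN, hzg⟩
        rw [hbot, Submodule.mem_bot] at hz0
        rw [hz0, map_zero, map_zero]
      · have hg0 : X.Y v a (hcomp X.internal 1 z) ∈ X.gr 0 := by
          have := X.graded a a 1 v _ hv hzg
          have e1 : (1 : ℤ) + a - a - 1 = 0 := by ring
          rwa [e1] at this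
        have h2 := he i hvac ⟨_, hg0⟩ ((hsub i).1 v a _ hzN)
        exact congrArg Subtype.val h2
    · rw [map_zero, map_zero, map_zero]
    · intro p q hp hq
      rw [map_add, map_add, map_add, hp, hq]
  have h2 := key y (by rw [htop]; exact Submodule.mem_top)
  rwa [hcomp_of_mem X.internal 1 1 y hy, if_pos rfl] at h2

/-- The output for part III. -/
theorem exists_e (h : CFT A) (hc : C2 A) (hR : A.Rational) (h1 : A.gr 1 = ⊥) :
    ∃ e, al0 A e = 0 ∧ ∀ a : ℤ, 1 ≤ a → ∀ v ∈ A.gr a, ∀ nu ∈ GG A 1,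
      nu (rs A ((1 + xL) ^ a * xL ^ (-2 : ℤ)) v e) =
        nu (rs A ((1 + xL) ^ a * xL ^ (-2 : ℤ)) v A.vac) := by
  obtain ⟨X, hX⟩ := exists_reg A
  obtain ⟨e, he0, he⟩ := exists_eprime h h1 hc hR X hX
  refine ⟨e, he0, fun a _ v hv nu hnu => ?_⟩
  obtain ⟨y, hy⟩ := rv_surj A (Finsupp.single 1 nu) (fun r => by
    by_cases hr : r = 1
    · subst hr
      rw [Finsupp.single_eq_same]
      exact hnu
    · rw [Finsupp.single_eq_of_ne hr]
      exact Submodule.zero_mem _)
  have hy1 : y ∈ X.gr 1 := by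
    rw [hX.gr, hy, Finsupp.single_eq_same]
  have hg0 : X.Y v a y ∈ X.gr 0 := by
    have := X.graded a a 1 v _ hv hy1
    have e1 : (1 : ℤ) + a - a - 1 = 0 := by ring
    rwa [e1] at this
  have h2 := reg_zm X hX (X.Y v a y) hg0 e
  rw [he a v hv y hy1, reg_one X hX y hy1 a v hv, reg_one X hX y hy1 a v hv, hy,
    Finsupp.single_eq_same] at h2
  exact (neg_injective h2).symm

end ZJ

end Pool.Agent.DERVR
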