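import Pool.Agent.DERVR.RDefs
import Pool.Agent.DERV.BRV

/-!
# Project DERV, part I: FDA : cofiniteness of all `C_r`
-/

set_option autoImplicit false

universe u w

open Finset

namespace Pool.Agent.DERVR

open Pool.Agent.VOAut Pool.Agent.DERV

variable {V : Type u} [AddCommGroup V] [Module ℂ V]

section FDA

variable {A : VOA V}

theorem fda_mem (r : ℕ) (u v : V) : A.Y u (-(r : ℤ)) v ∈ CC A r :=
  Submodule.subset_span ⟨u, v, rfl⟩

theorem fda_succ (r : ℕ) (hr : 1 ≤ r) : CC A (r + 1) ≤ CC A r := by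
  unfold CC
  rw [Submodule.span_le]
  rintro x ⟨u, v, rfl⟩
  have h := A.translation u (-(r : ℤ))
  have h1 : A.Y (A.Y A.om 0 u) (-(r : ℤ)) v = (r : ℂ) • A.Y u (-((r + 1 : ℕ) : ℤ)) v := by
    rw [h]
    push_cast
    rw [neg_neg]
    have e : -(r : ℤ) - 1 = -1 + -(r : ℤ) := by ring
    rw [LinearMap.smul_apply, e, neg_add_rev]
  have hr0 : (r : ℂ) ≠ 0 := by exact_mod_cast (by omega : r ≠ 0)
  have h2 : A.Y u (-((r + 1 : ℕ) : ℤ)) v = (r : ℂ)⁻¹ • A.Y (A.Y A.om 0 u) (-(r : ℤ)) v := by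
    rw [h1, smul_smul, inv_mul_cancel₀ hr0, one_smul]
  show A.Y u (-((r + 1 : ℕ) : ℤ)) v ∈ Submodule.span ℂ _
  rw [h2]
  exact Submodule.smul_mem _ _ (Submodule.subset_span ⟨_, v, rfl⟩)

theorem fda_anti (r s : ℕ) (hr : 1 ≤ r) (hs : r ≤ s) : CC A s ≤ CC A r := by
  induction s, hs using Nat.le_induction with
  | base => exact le_rfl
  | succ s hs ih => exact (fda_succ s (by omega)).trans ih

/-- All modes with a small index map into `CC`. -/
theorem fda_mode (r : ℕ) (hr : 1 ≤ r) (m : ℤ) (hm : m ≤ -(r : ℤ)) (u v : V) :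
    A.Y u m v ∈ CC A r := by
  have h1 : m = -(((-m).toNat : ℕ) : ℤ) := by omega
  rw [h1]
  exact fda_anti r _ hr (by omega) (fda_mem _ u v)

theorem fda_assoc (u v w : V) (l n : ℤ) (K1 : ℕ) : ∃ K : ℕ, K1 ≤ K ∧ 1 ≤ K ∧
    A.Y (A.Y u l v) n w = ∑ i ∈ range K, ((-1 : ℂ) ^ i * ((Ring.choose l i : ℤ) : ℂ)) •
      (A.Y u (l - i) (A.Y v (n + i) w) - (-1 : ℂ) ^ l • A.Y v (n + l - i) (A.Y u i w)) := by
  obtain ⟨K, h1, h2⟩ := ((A.jac_ev u v w l 0 n).and
    (Filter.eventually_ge_atTop (max K1 1))).exists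
  refine ⟨K, (le_max_left _ _).trans h2, (le_max_right _ _).trans h2, ?_⟩
  have h3 : ∑ i ∈ range K, A.jl u v w l 0 n i = A.Y (A.Y u l v) n w := by
    rw [Finset.sum_eq_single 0]
    · unfold VOA.jl
      rw [Ring.choose_zero_right]
      simp
    · intro i _ hi
      unfold VOA.jl
      rw [Ring.choose_zero_pos _ (Nat.pos_of_ne_zero hi)]
      simp
    · intro h
      exact absurd (Finset.mem_range.2 (lt_of_lt_of_le (by norm_num)
        ((le_max_right _ _).trans h2))) h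
  rw [← h3, h1]
  apply Finset.sum_congr rfl
  intro i _
  unfold VOA.jr
  rw [zero_add, zero_add]

/-- `(p_(-r) q)_(-r) v = p_(-r) q_(-r) v` modulo `C_(r+1)`. -/
theorem fda_a (r : ℕ) (hr : 2 ≤ r) (p q v : V) :
    A.Y (A.Y p (-(r : ℤ)) q) (-(r : ℤ)) v - A.Y p (-(r : ℤ)) (A.Y q (-(r : ℤ)) v) ∈
      CC A (r + 1) := by
  obtain ⟨K, -, hK, h⟩ := fda_assoc p q v (-(r : ℤ)) (-(r : ℤ)) 0 (A := A)
  obtain ⟨K', rfl⟩ : ∃ K', K = K' + 1 := ⟨K - 1, by omega⟩
  rw [h, Finset.sum_range_succ']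
  have h1 : ∀ i ∈ range K', ((-1 : ℂ) ^ (i + 1) * ((Ring.choose (-(r : ℤ)) (i + 1) : ℤ) : ℂ)) •
      (A.Y p (-(r : ℤ) - ((i + 1 : ℕ) : ℤ)) (A.Y q (-(r : ℤ) + ((i + 1 : ℕ) : ℤ)) v) -
        (-1 : ℂ) ^ (-(r : ℤ)) • A.Y q (-(r : ℤ) + -(r : ℤ) - ((i + 1 : ℕ) : ℤ))
          (A.Y p ((i + 1 : ℕ) : ℤ) v)) ∈ CC A (r + 1) := by
    intro i _
    refine Submodule.smul_mem _ _ (Submodule.sub_mem _ ?_ (Submodule.smul_mem _ _ ?_))
    · exact fda_mode (r + 1) (by omega) _ (by push_cast; omega) _ _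
    · exact fda_mode (r + 1) (by omega) _ (by push_cast; omega) _ _
  have h2 := Submodule.sum_mem _ h1
  have h3 : A.Y q (-(r : ℤ) + -(r : ℤ)) (A.Y p 0 v) ∈ CC A (r + 1) :=
    fda_mode (r + 1) (by omega) _ (by push_cast; omega) _ _
  have h4 := Submodule.sub_mem _ h2 (Submodule.smul_mem _ ((-1 : ℂ) ^ (-(r : ℤ))) h3)
  convert h4 using 1
  rw [Ring.choose_zero_right]
  push_cast
  simp only [pow_zero, one_mul, sub_zero, add_zero, one_smul]
  abel

theorem fda_b (r : ℕ) (hr : 2 ≤ r) (p q v : V) :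
    A.Y p (-(r : ℤ)) (A.Y q (-(r : ℤ)) v) ∈ CC A (r + 1) := by
  obtain ⟨K, hK1, hK, h⟩ := fda_assoc p q v (-1) (-2 * (r : ℤ) + 1) r (A := A)
  have h0 : A.Y (A.Y p (-1) q) (-2 * (r : ℤ) + 1) v ∈ CC A (r + 1) :=
    fda_mode (r + 1) (by omega) _ (by push_cast; omega) _ _
  rw [h, ← Finset.add_sum_erase (range K) _ (Finset.mem_range.2 (by omega : r - 1 < K))] at h0
  have h1 : ∀ i ∈ (range K).erase (r - 1), ((-1 : ℂ) ^ i * ((Ring.choose (-1 : ℤ) i : ℤ) : ℂ)) •
      (A.Y p (-1 - (i : ℤ)) (A.Y q (-2 * (r : ℤ) + 1 + (i : ℤ)) v) -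
        (-1 : ℂ) ^ (-1 : ℤ) • A.Y q (-2 * (r : ℤ) + 1 + -1 - (i : ℤ)) (A.Y p (i : ℤ) v)) ∈
      CC A (r + 1) := by
    intro i hi
    have hi1 : i ≠ r - 1 := Finset.ne_of_mem_erase hi
    refine Submodule.smul_mem _ _ (Submodule.sub_mem _ ?_ (Submodule.smul_mem _ _ ?_))
    · by_cases hir : r ≤ i
      · exact fda_mode (r + 1) (by omega) _ (by push_cast; omega) _ _
      · have hir2 : i + 2 ≤ r := by omega
        obtain ⟨J, hJ⟩ := (A.comm_ev p q v (-1 - (i : ℤ)) (-2 * (r : ℤ) + 1 + (i : ℤ))).exists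
        rw [sub_eq_iff_eq_add] at hJ
        rw [hJ]
        refine Submodule.add_mem _ (Submodule.sum_mem _ fun j _ => Submodule.smul_mem _ _ ?_) ?_
        · exact fda_mode (r + 1) (by omega) _ (by push_cast; omega) _ _
        · exact fda_mode (r + 1) (by omega) _ (by push_cast; omega) _ _
    · exact fda_mode (r + 1) (by omega) _ (by push_cast; omega) _ _
  have h2 := (Submodule.add_mem_iff_left _ (Submodule.sum_mem _ h1)).1 h0
  have e1 : (-1 : ℂ) ^ (r - 1) * ((Ring.choose (-1 : ℤ) (r - 1) : ℤ) : ℂ) ≠ 0 := by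
    have h1 : Ring.choose (-1 : ℤ) (r - 1) = (-1) ^ (r - 1) := by
      rw [Ring.choose_neg', Ring.multichoose_one, Units.smul_def, Int.coe_negOnePow_natCast]
      simp
    rw [h1]
    push_cast
    rw [← mul_pow]
    norm_num
  have h3 := (Submodule.smul_mem_iff _ e1).1 h2
  have e2 : ((r - 1 : ℕ) : ℤ) = (r : ℤ) - 1 := by omega
  rw [e2] at h3
  have h4 : A.Y q (-2 * (r : ℤ) + 1 + -1 - ((r : ℤ) - 1)) (A.Y p ((r : ℤ) - 1) v) ∈ CC A (r + 1) :=
    fda_mode (r + 1) (by omega) _ (by push_cast; omega) _ _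
  have h5 := Submodule.add_mem _ h3 (Submodule.smul_mem _ ((-1 : ℂ) ^ (-1 : ℤ)) h4)
  rw [sub_add_cancel] at h5
  have e3 : -1 - ((r : ℤ) - 1) = -(r : ℤ) := by ring
  have e4 : -2 * (r : ℤ) + 1 + ((r : ℤ) - 1) = -(r : ℤ) := by ring
  rwa [e3, e4] at h5

/-- The product `p_(-r) v` as a bilinear map. -/
noncomputable def fdaB (A : VOA V) (r : ℕ) : V →ₗ[ℂ] V →ₗ[ℂ] V :=
  (LinearMap.proj (-(r : ℤ))) ∘ₗ A.Y

theorem fdaB_apply (r : ℕ) (u v : V) : fdaB A r u v = A.Y u (-(r : ℤ)) v := rfl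

theorem fda_step (r : ℕ) (hr : 2 ≤ r) (W : Submodule ℂ V) (hW : CC A r ⊔ W = ⊤) :
    CC A (r + 1) ⊔ (W ⊔ Submodule.map₂ (fdaB A r) W W) = ⊤ := by
  -- vectors of `C_r` act trivially on both sides
  have hu : ∀ x ∈ CC A r, ∀ v, A.Y x (-(r : ℤ)) v ∈ CC A (r + 1) := by
    intro x hx v
    unfold CC at hx
    induction hx using Submodule.span_induction with
    | mem x hx =>
      obtain ⟨p, q, rfl⟩ := hx
      have h1 := Submodule.add_mem _ (fda_a r hr p q v (A := A)) (fda_b r hr p q v)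
      rwa [sub_add_cancel] at h1
    | zero =>
      rw [map_zero, Pi.zero_apply, LinearMap.zero_apply]
      exact Submodule.zero_mem _
    | add x y _ _ hx hy =>
      rw [map_add, Pi.add_apply, LinearMap.add_apply]
      exact Submodule.add_mem _ hx hy
    | smul c x _ hx =>
      rw [map_smul, Pi.smul_apply, LinearMap.smul_apply]
      exact Submodule.smul_mem _ _ hx
  have hv : ∀ x ∈ CC A r, ∀ p, A.Y p (-(r : ℤ)) x ∈ CC A (r + 1) := by
    intro x hx p
    unfold CC at hx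
    induction hx using Submodule.span_induction with
    | mem x hx =>
      obtain ⟨q, v, rfl⟩ := hx
      exact fda_b r hr p q v
    | zero => rw [map_zero]; exact Submodule.zero_mem _
    | add x y _ _ hx hy => rw [map_add]; exact Submodule.add_mem _ hx hy
    | smul c x _ hx => rw [map_smul]; exact Submodule.smul_mem _ _ hx
  have hCr : CC A r ≤ CC A (r + 1) ⊔ Submodule.map₂ (fdaB A r) W W := by
    show Submodule.span ℂ _ ≤ _
    rw [Submodule.span_le]
    rintro x ⟨u, v, rfl⟩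
    have hu1 : u ∈ CC A r ⊔ W := by rw [hW]; exact Submodule.mem_top
    have hv1 : v ∈ CC A r ⊔ W := by rw [hW]; exact Submodule.mem_top
    obtain ⟨a, ha, b, hb, rfl⟩ := Submodule.mem_sup.1 hu1
    obtain ⟨c, hc, d, hd, rfl⟩ := Submodule.mem_sup.1 hv1
    have e : A.Y (a + b) (-(r : ℤ)) (c + d) =
        (A.Y a (-(r : ℤ)) (c + d) + A.Y b (-(r : ℤ)) c) + fdaB A r b d := by
      rw [fdaB_apply, map_add A.Y, Pi.add_apply, LinearMap.add_apply, map_add (A.Y b (-(r : ℤ)))]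
      abel
    show A.Y (a + b) (-(r : ℤ)) (c + d) ∈ _
    rw [e]
    refine Submodule.add_mem _ (Submodule.mem_sup_left ?_) (Submodule.mem_sup_right ?_)
    · exact Submodule.add_mem _ (hu a ha _) (hv c hc _)
    · exact Submodule.apply_mem_map₂ _ hb hd
  rw [eq_top_iff, ← hW]
  refine sup_le (hCr.trans ?_) ?_
  · exact sup_le_sup le_rfl le_sup_right
  · exact le_sup_left.trans le_sup_right

theorem fda_split (C : Submodule ℂ V) (h : FiniteDimensional ℂ (V ⧸ C)) :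
    ∃ W : Submodule ℂ V, W.FG ∧ C ⊔ W = ⊤ := by
  obtain ⟨d, s, hs⟩ := Module.Finite.exists_fin (R := ℂ) (M := V ⧸ C)
  choose t ht using fun i => Submodule.mkQ_surjective C (s i)
  refine ⟨Submodule.span ℂ (Set.range t), Submodule.fg_span (Set.finite_range t), ?_⟩
  rw [← Submodule.map_mkQ_eq_top, Submodule.map_span, ← hs]
  congr 1
  rw [← Set.range_comp]
  congr 1
  funext i
  exact ht i

theorem fda_fin (C W : Submodule ℂ V) (hW : W.FG) (h : C ⊔ W = ⊤) :
    FiniteDimensional ℂ (V ⧸ C) := by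
  rw [← Submodule.map_mkQ_eq_top] at h
  have h1 : (⊤ : Submodule ℂ (V ⧸ C)).FG := by
    rw [← h]
    exact hW.map _
  exact ⟨h1⟩

theorem CC_cofinite (hc : C2 A) (r : ℕ) (hr : 2 ≤ r) : FiniteDimensional ℂ (V ⧸ CC A r) := by
  induction r, hr using Nat.le_induction with
  | base =>
    unfold C2 at hc
    unfold CC
    exact_mod_cast hc
  | succ r hr ih =>
    obtain ⟨W, hW, hs⟩ := fda_split _ ih
    exact fda_fin _ _ (hW.sup (hW.map₂ _ hW)) (fda_step r hr W hs)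

theorem fda_proj (r : ℕ) (n : ℤ) (x : V) (hx : x ∈ CC A r) : pr A n x ∈ CC A r := by
  unfold CC at hx
  induction hx using Submodule.span_induction with
  | mem x hx =>
    obtain ⟨u, v, rfl⟩ := hx
    refine hom_ind A (P := fun u => ∀ v, pr A n (A.Y u (-(r : ℤ)) v) ∈ CC A r) u ?_ ?_ ?_ v
    · intro v
      rw [map_zero, Pi.zero_apply, LinearMap.zero_apply, map_zero]
      exact Submodule.zero_mem _
    · intro x y hx hy v
      rw [map_add, Pi.add_apply, LinearMap.add_apply, map_add]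
      exact Submodule.add_mem _ (hx v) (hy v)
    · intro a p hp v
      refine hom_ind A (P := fun v => pr A n (A.Y p (-(r : ℤ)) v) ∈ CC A r) v ?_ ?_ ?_
      · rw [map_zero, map_zero]
        exact Submodule.zero_mem _
      · intro x y hx hy
        rw [map_add, map_add]
        exact Submodule.add_mem _ hx hy
      · intro b q hq
        have h1 := A.graded a (-(r : ℤ)) b p q hp hq
        show hcomp A.internal n (A.Y p (-(r : ℤ)) q) ∈ CC A r
        rw [hcomp_of_mem A.internal n _ _ h1]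
        split_ifs with h
        · exact fda_mem r p q
        · exact Submodule.zero_mem _
  | zero => rw [map_zero]; exact Submodule.zero_mem _
  | add x y _ _ hx hy => rw [map_add]; exact Submodule.add_mem _ hx hy
  | smul c x _ hx => rw [map_smul]; exact Submodule.smul_mem _ _ hx

theorem CC_large (hc : C2 A) (r : ℕ) (hr : 2 ≤ r) : ∃ N : ℤ, ∀ n : ℤ, N ≤ n → A.gr n ≤ CC A r := by
  obtain ⟨W, hW, hs⟩ := fda_split _ (CC_cofinite hc r hr)
  obtain ⟨s, hsW⟩ := hW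
  have hbd : ∀ x : V, ∃ N : ℤ, ∀ n : ℤ, N ≤ n → pr A n x = 0 := by
    intro x
    obtain ⟨M, hM⟩ := (hcomp_fin A.internal x).bddAbove
    refine ⟨M + 1, fun n hn => ?_⟩
    by_contra h
    have := hM h
    omega
  choose Nf hNf using hbd
  obtain ⟨N, hN⟩ : ∃ N : ℤ, ∀ x ∈ s, Nf x ≤ N := by
    obtain ⟨M, hM⟩ := (s.finite_toSet.image Nf).bddAbove
    exact ⟨M, fun x hx => hM ⟨x, hx, rfl⟩⟩
  refine ⟨N, fun n hn v hv => ?_⟩
  have hpv : pr A n v = v := by
    show hcomp A.internal n v = v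
    rw [hcomp_of_mem A.internal n n v hv, if_pos rfl]
  have hle : CC A r ⊔ W ≤ (CC A r).comap (pr A n) := by
    refine sup_le (fun x hx => fda_proj r n x hx) ?_
    rw [← hsW, Submodule.span_le]
    intro x hx
    show pr A n x ∈ CC A r
    rw [hNf x n ((hN x hx).trans hn)]
    exact Submodule.zero_mem _
  rw [hs] at hle
  have h1 : pr A n v ∈ CC A r := hle Submodule.mem_top
  rwa [hpv] at h1

end FDA

end Pool.Agent.DERVR
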