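import Pool.Agent.DERVR.SERI
import Pool.Agent.DERV.CRS

/-!
# Project DERV, part I: GBI : generalised Borcherds identity
-/

set_option autoImplicit false

universe u w

open Finset

namespace Pool.Agent.DERVR

open Pool.Agent.VOAut Pool.Agent.DERV

variable {V : Type u} [AddCommGroup V] [Module ℂ V]

section GBI

variable (A : VOA V)

theorem gbi_OG_x {N : ℤ} (n : ℤ) {f : LaurentSeries ℂ} (hf : OG N f) : OG (n + N) (xL ^ n * f) := by
  rw [xL_zpow]
  exact (OG_single n 1).mul hf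

theorem gbi_OG_pw (s : ℤ) (K : ℕ) : OG (K : ℤ) ((1 + xL) ^ s -
    ∑ k ∈ range K, cc ((Ring.choose s k : ℤ) : ℂ) * xL ^ (k : ℤ)) := by
  intro i hi
  rw [HahnSeries.coeff_sub, HahnSeries.coeff_sum, pw_coeff]
  simp only [coeff_cc_mul, xL_zpow]
  by_cases h : i < 0
  · rw [if_pos h, Finset.sum_eq_zero, sub_zero]
    intro k _
    rw [HahnSeries.coeff_single_of_ne (by omega), mul_zero]
  · rw [if_neg h, Finset.sum_eq_single i.toNat]
    · have e : ((i.toNat : ℕ) : ℤ) = i := Int.toNat_of_nonneg (not_lt.1 h)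
      rw [e, HahnSeries.coeff_single_same, mul_one, sub_self]
    · intro k _ hk
      rw [HahnSeries.coeff_single_of_ne (by omega), mul_zero]
    · intro h'
      exact absurd (Finset.mem_range.2 (by omega)) h'

/-- Expansion of a factor `(1 + x) ^ s`. -/
theorem rs_pw (s : ℤ) (f : LaurentSeries ℂ) (u v : V) :
    rs A ((1 + xL) ^ s * f) u v =
      ∑ᶠ k : ℕ, ((Ring.choose s k : ℤ) : ℂ) • rs A (xL ^ (k : ℤ) * f) u v := by
  obtain ⟨N, hN⟩ := rs_van A u v
  set K : ℕ := (N - f.order).toNat with hK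
  have hKN : N ≤ K + f.order := by
    have := Int.self_le_toNat (N - f.order)
    omega
  rw [finsum_eq_range _ K]
  · have h1 : OG N (((1 + xL) ^ s - ∑ k ∈ range K, cc ((Ring.choose s k : ℤ) : ℂ) * xL ^ (k : ℤ)) *
        f) := ((gbi_OG_pw s K).mul (OG_order f)).mono hKN
    have h2 := hN _ h1
    rw [sub_mul, rs_sub_f, sub_eq_zero] at h2
    rw [h2, Finset.sum_mul]
    have h3 : ∀ (t : Finset ℕ) (g : ℕ → LaurentSeries ℂ), rs A (∑ k ∈ t, g k) u v =
        ∑ k ∈ t, rs A (g k) u v := fun t g => rs_sum_f A t g u v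
    rw [h3]
    apply Finset.sum_congr rfl
    intro k _
    rw [mul_assoc, rs_cc]
  · intro k hk
    have h1 : OG N (xL ^ (k : ℤ) * f) := by
      apply (gbi_OG_x (k : ℤ) (OG_order f)).mono
      have : (K : ℤ) ≤ k := by exact_mod_cast hk
      omega
    rw [hN _ h1, smul_zero]

/-- Left side. -/
noncomputable def gbiL (φ ψ : LaurentSeries ℂ) (l : ℤ) (u v w : V) (i : ℕ) : V :=
  rs A (LaurentSeries.hasseDeriv ℂ i φ * ψ) (A.Y u (l + i) v) w

/-- Right side. -/
noncomputable def gbiR (φ ψ : LaurentSeries ℂ) (l : ℤ) (u v w : V) (i : ℕ) : V :=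
  ((-1 : ℂ) ^ i * ((Ring.choose l i : ℤ) : ℂ)) •
      (rs A (xL ^ (l - i) * φ) u (rs A (xL ^ (i : ℤ) * ψ) v w) -
        (-1 : ℂ) ^ l • rs A (xL ^ (l - i) * ψ) v (rs A (xL ^ (i : ℤ) * φ) u w))

theorem gbi_rs_zero_v (f : LaurentSeries ℂ) (u : V) : rs A f u 0 = 0 := map_zero (rsv A f u)

theorem gbi_x_zero (f : LaurentSeries ℂ) (u v : V) : ∃ K : ℕ, ∀ i : ℕ, K ≤ i →
    rs A (xL ^ (i : ℤ) * f) u v = 0 := by
  obtain ⟨N, hN⟩ := rs_van A u v
  refine ⟨(N - f.order).toNat, fun i hi => hN _ ?_⟩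
  apply (gbi_OG_x (i : ℤ) (OG_order f)).mono
  have := Int.self_le_toNat (N - f.order)
  have : (((N - f.order).toNat : ℕ) : ℤ) ≤ i := by exact_mod_cast hi
  omega

theorem gbiL_fin (φ ψ : LaurentSeries ℂ) (l : ℤ) (u v w : V) :
    (Function.support (gbiL A φ ψ l u v w)).Finite := by
  obtain ⟨I, hI⟩ := A.trunc_nat u v l
  refine (Set.finite_Iio I).subset ?_
  intro i hi
  rw [Function.mem_support] at hi
  rw [Set.mem_Iio]
  by_contra h
  apply hi
  unfold gbiL
  rw [hI i (not_lt.1 h), rs_zero_u]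

theorem gbiR_fin (φ ψ : LaurentSeries ℂ) (l : ℤ) (u v w : V) :
    (Function.support (gbiR A φ ψ l u v w)).Finite := by
  obtain ⟨K1, h1⟩ := gbi_x_zero A ψ v w
  obtain ⟨K2, h2⟩ := gbi_x_zero A φ u w
  refine (Set.finite_Iio (max K1 K2)).subset ?_
  intro i hi
  rw [Function.mem_support] at hi
  rw [Set.mem_Iio]
  by_contra h
  apply hi
  unfold gbiR
  rw [h1 i (by omega), h2 i (by omega), gbi_rs_zero_v, gbi_rs_zero_v, smul_zero, sub_zero,
    smul_zero]

theorem gbi_mono (c c' : ℂ) (m n l : ℤ) (u v w : V) :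
    ∑ᶠ i, gbiL A (cc c * HahnSeries.single m 1) (cc c' * HahnSeries.single n 1) l u v w i =
      ∑ᶠ i, gbiR A (cc c * HahnSeries.single m 1) (cc c' * HahnSeries.single n 1) l u v w i := by
  have hL : ∀ i, gbiL A (cc c * HahnSeries.single m 1) (cc c' * HahnSeries.single n 1) l u v w i =
      (c * c') • (((Ring.choose m i : ℤ) : ℂ) • A.Y (A.Y u (l + i) v) (m + n - i) w) := by
    intro i
    unfold gbiL
    rw [crs_hasse_cc, LaurentSeries.hasseDeriv_single, mul_mul_mul_comm, ← map_mul,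
      HahnSeries.single_mul_single, rs_cc, rs_single]
    have e : m - (i : ℤ) + n = m + n - (i : ℤ) := by ring
    rw [e]
    congr 2
    simp
  have hR : ∀ i, gbiR A (cc c * HahnSeries.single m 1) (cc c' * HahnSeries.single n 1) l u v w i =
      (c * c') • (((-1 : ℂ) ^ i * ((Ring.choose l i : ℤ) : ℂ)) •
      (A.Y u (m + l - i) (A.Y v (n + i) w) -
        (-1 : ℂ) ^ l • A.Y v (n + l - i) (A.Y u (m + i) w))) := by
    intro i
    unfold gbiR
    have e0 : ∀ (a k b : ℤ) (d : ℂ) (x y : V), k + a = b →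
        rs A (xL ^ k * (cc d * HahnSeries.single a 1)) x y = d • A.Y x b y := by
      intro a k b d x y hb
      rw [xL_zpow, mul_left_comm, HahnSeries.single_mul_single, rs_cc, rs_single, hb, mul_one,
        one_smul]
    rw [e0 n (i : ℤ) (n + i) c' v w (by ring), e0 m (l - i) (m + l - i) c u _ (by ring),
      e0 m (i : ℤ) (m + i) c u w (by ring), e0 n (l - i) (n + l - i) c' v _ (by ring)]
    rw [map_smul, map_smul, smul_smul c c', smul_smul c' c, mul_comm c' c,
      smul_comm ((-1 : ℂ) ^ l) (c * c'), ← smul_sub, smul_comm]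
  simp only [hL, hR]
  rw [← smul_finsum, ← smul_finsum, A.jacobi]

theorem gbi (φ ψ : LaurentSeries ℂ) (l : ℤ) (u v w : V) :
    ∑ᶠ i : ℕ, rs A (LaurentSeries.hasseDeriv ℂ i φ * ψ) (A.Y u (l + i) v) w =
    ∑ᶠ i : ℕ, ((-1 : ℂ) ^ i * ((Ring.choose l i : ℤ) : ℂ)) •
      (rs A (xL ^ (l - i) * φ) u (rs A (xL ^ (i : ℤ) * ψ) v w) -
        (-1 : ℂ) ^ l • rs A (xL ^ (l - i) * ψ) v (rs A (xL ^ (i : ℤ) * φ) u w)) := by
  change ∑ᶠ i, gbiL A φ ψ l u v w i = ∑ᶠ i, gbiR A φ ψ l u v w i
  rw [← sub_eq_zero]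
  obtain ⟨I, hI⟩ := A.trunc_nat u v l
  choose N hN using fun i : ℕ => rs_van A (A.Y u (l + i) v) w
  obtain ⟨Nuw, hNuw⟩ := rs_van A u w
  obtain ⟨Nvw, hNvw⟩ := rs_van A v w
  -- first reduction: the series phi
  obtain ⟨K1, hK1⟩ := gbi_x_zero A ψ v w
  choose N1 hN1 using fun i : ℕ => rs_van A u (rs A (xL ^ (i : ℤ) * ψ) v w)
  obtain ⟨B1, hB1⟩ := crs_bound (fun i => N i + i - ψ.order) I
  obtain ⟨B2, hB2⟩ := crs_bound (fun i => N1 i + i - l) K1
  refine apx (fun f => ∑ᶠ i, gbiL A f ψ l u v w i - ∑ᶠ i, gbiR A f ψ l u v w i)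
      (max Nuw (max B1 B2)) ?_ ?_ ?_ φ
  · intro a b
    have e1 : ∑ᶠ i, gbiL A (a + b) ψ l u v w i =
        ∑ᶠ i, gbiL A a ψ l u v w i + ∑ᶠ i, gbiL A b ψ l u v w i := by
      rw [← finsum_add_distrib (gbiL_fin A a ψ l u v w) (gbiL_fin A b ψ l u v w)]
      apply finsum_congr
      intro i
      unfold gbiL
      rw [map_add, add_mul, rs_add_f]
    have e2 : ∑ᶠ i, gbiR A (a + b) ψ l u v w i =
        ∑ᶠ i, gbiR A a ψ l u v w i + ∑ᶠ i, gbiR A b ψ l u v w i := by
      rw [← finsum_add_distrib (gbiR_fin A a ψ l u v w) (gbiR_fin A b ψ l u v w)]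
      apply finsum_congr
      intro i
      unfold gbiR
      simp only [mul_add, rs_add_f, rs_add_v, smul_add, smul_sub]
      abel
    simp only [e1, e2]
    abel
  · intro a ha
    have e1 : ∑ᶠ i, gbiL A a ψ l u v w i = 0 := by
      rw [finsum_eq_zero_of_forall_eq_zero]
      intro i
      unfold gbiL
      by_cases hi : i < I
      · apply hN i
        have h1 : OG (B1 - i) (LaurentSeries.hasseDeriv ℂ i a) :=
          crs_OG_hasse i (ha.mono ((le_max_left _ _).trans (le_max_right _ _)))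
        apply (h1.mul (OG_order ψ)).mono
        have h3 : N i + i - ψ.order ≤ B1 := hB1 i hi
        omega
      · rw [hI i (not_lt.1 hi), rs_zero_u]
    have e2 : ∑ᶠ i, gbiR A a ψ l u v w i = 0 := by
      rw [finsum_eq_zero_of_forall_eq_zero]
      intro i
      unfold gbiR
      have h1 : rs A (xL ^ (i : ℤ) * a) u w = 0 := by
        apply hNuw
        apply (gbi_OG_x (i : ℤ) (ha.mono (le_max_left _ _))).mono
        omega
      have h2 : rs A (xL ^ (l - i) * a) u (rs A (xL ^ (i : ℤ) * ψ) v w) = 0 := by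
        by_cases hi : i < K1
        · apply hN1 i
          apply (gbi_OG_x (l - i) (ha.mono ((le_max_right _ _).trans (le_max_right _ _)))).mono
          have h3 : N1 i + i - l ≤ B2 := hB2 i hi
          omega
        · rw [hK1 i (not_lt.1 hi), gbi_rs_zero_v]
      rw [h1, h2, gbi_rs_zero_v, smul_zero, sub_zero, smul_zero]
    simp only [e1, e2, sub_zero]
  · intro c m
    set a : LaurentSeries ℂ := cc c * HahnSeries.single m 1 with ha
    obtain ⟨K2, hK2⟩ := gbi_x_zero A a u w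
    choose M1 hM1 using fun i : ℕ => rs_van A v (rs A (xL ^ (i : ℤ) * a) u w)
    obtain ⟨C1, hC1⟩ := crs_bound (fun i => N i - (LaurentSeries.hasseDeriv ℂ i a).order) I
    obtain ⟨C2, hC2⟩ := crs_bound (fun i => M1 i + i - l) K2
    refine apx (fun g => ∑ᶠ i, gbiL A a g l u v w i - ∑ᶠ i, gbiR A a g l u v w i)
      (max Nvw (max C1 C2)) ?_ ?_ ?_ ψ
    · intro b b'
      have e1 : ∑ᶠ i, gbiL A a (b + b') l u v w i =
          ∑ᶠ i, gbiL A a b l u v w i + ∑ᶠ i, gbiL A a b' l u v w i := by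
        rw [← finsum_add_distrib (gbiL_fin A a b l u v w) (gbiL_fin A a b' l u v w)]
        apply finsum_congr
        intro i
        unfold gbiL
        rw [mul_add, rs_add_f]
      have e2 : ∑ᶠ i, gbiR A a (b + b') l u v w i =
          ∑ᶠ i, gbiR A a b l u v w i + ∑ᶠ i, gbiR A a b' l u v w i := by
        rw [← finsum_add_distrib (gbiR_fin A a b l u v w) (gbiR_fin A a b' l u v w)]
        apply finsum_congr
        intro i
        unfold gbiR
        simp only [mul_add, rs_add_f, rs_add_v, smul_add, smul_sub]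
        abel
      simp only [e1, e2]
      abel
    · intro b hb
      have e1 : ∑ᶠ i, gbiL A a b l u v w i = 0 := by
        rw [finsum_eq_zero_of_forall_eq_zero]
        intro i
        unfold gbiL
        by_cases hi : i < I
        · apply hN i
          apply ((OG_order (LaurentSeries.hasseDeriv ℂ i a)).mul
            (hb.mono ((le_max_left _ _).trans (le_max_right _ _)))).mono
          have h3 : N i - (LaurentSeries.hasseDeriv ℂ i a).order ≤ C1 := hC1 i hi
          omega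
        · rw [hI i (not_lt.1 hi), rs_zero_u]
      have e2 : ∑ᶠ i, gbiR A a b l u v w i = 0 := by
        rw [finsum_eq_zero_of_forall_eq_zero]
        intro i
        unfold gbiR
        have h1 : rs A (xL ^ (i : ℤ) * b) v w = 0 := by
          apply hNvw
          apply (gbi_OG_x (i : ℤ) (hb.mono (le_max_left _ _))).mono
          omega
        have h2 : rs A (xL ^ (l - i) * b) v (rs A (xL ^ (i : ℤ) * a) u w) = 0 := by
          by_cases hi : i < K2
          · apply hM1 i
            apply (gbi_OG_x (l - i) (hb.mono ((le_max_right _ _).trans (le_max_right _ _)))).mono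
            have h3 : M1 i + i - l ≤ C2 := hC2 i hi
            omega
          · rw [hK2 i (not_lt.1 hi), gbi_rs_zero_v]
        rw [h1, h2, gbi_rs_zero_v, smul_zero, sub_zero, smul_zero]
      simp only [e1, e2, sub_zero]
    · intro c' n
      rw [sub_eq_zero, ha]
      exact gbi_mono A c c' m n l u v w

end GBI

end Pool.Agent.DERVR
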