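import Pool.Agent.DERVR.SERT
import Pool.Agent.DERVR.GBI
import Pool.Agent.DERV.BRV

/-!
# Project DERV, part I: RA : the action is independent of the test function
-/

set_option autoImplicit false

universe u w

open Finset

namespace Pool.Agent.DERVR

open Pool.Agent.VOAut Pool.Agent.DERV

/-- Coefficients of `(y - 1) ^ (-M)`. -/
private noncomputable def ra_e (M k : ℕ) : ℂ := (-1 : ℂ) ^ M * (((M + k - 1).choose k : ℕ) : ℂ)

private theorem ra_e_zero (M : ℕ) : ra_e M 0 = (-1 : ℂ) ^ M := by
  unfold ra_e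
  rw [Nat.choose_zero_right]
  simp

private theorem ra_e_succ (M k : ℕ) : ra_e M (k + 1) = ra_e (M + 1) k - ra_e (M + 1) (k + 1) := by
  unfold ra_e
  have h : (M + 1 + (k + 1) - 1).choose (k + 1) = (M + 1 + k - 1).choose k + (M + (k + 1) - 1).choose (k + 1) := by
    have e1 : M + 1 + (k + 1) - 1 = (M + k) + 1 := by omega
    have e2 : M + 1 + k - 1 = M + k := by omega
    have e3 : M + (k + 1) - 1 = M + k := by omega
    rw [e1, e2, e3, Nat.choose_succ_succ]
  rw [h]
  push_cast
  ring

/-- The left side. -/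
private noncomputable def ra_L (g : ℤ → ℂ) (N : ℕ) (m : ℤ) (M : ℕ) : ℂ :=
  ∑ k ∈ range N, ra_e M k * g (m + k)

private theorem ra_L_ext (g : ℤ → ℂ) (t : ℤ) (hg : ∀ s, t ≤ s → g s = 0) (m : ℤ) (M N N' : ℕ)
    (h : t - m ≤ N) (h' : t - m ≤ N') : ra_L g N m M = ra_L g N' m M := by
  have key : ∀ N N' : ℕ, t - m ≤ N → N ≤ N' → ra_L g N m M = ra_L g N' m M := by
    intro N N' h hN
    unfold ra_L
    apply Finset.sum_subset
    · intro x hx
      rw [mem_range] at hx ⊢
      omega
    · intro x _ hx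
      rw [mem_range] at hx
      rw [hg _ (by omega), mul_zero]
  rcases le_total N N' with h1 | h1
  · exact key N N' h h1
  · exact (key N' N h' h1).symm

private theorem ra_L_rec (g : ℤ → ℂ) (t : ℤ) (hg : ∀ s, t ≤ s → g s = 0) (m : ℤ) (M : ℕ)
    (N N1 N2 : ℕ) (h : t - m ≤ N) (h1 : t - (m + 1) ≤ N1) (h2 : t - m ≤ N2) :
    ra_L g N m M = ra_L g N1 (m + 1) (M + 1) - ra_L g N2 m (M + 1) := by
  rw [ra_L_ext g t hg m M N (N + 1) h (by push_cast; omega),
    ra_L_ext g t hg (m + 1) (M + 1) N1 N h1 (by omega),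
    ra_L_ext g t hg m (M + 1) N2 (N + 1) h2 (by push_cast; omega)]
  unfold ra_L
  rw [Finset.sum_range_succ' _ N, Finset.sum_range_succ' _ N, ra_e_zero, ra_e_zero]
  have e : ∀ k ∈ range N, ra_e M (k + 1) * g (m + ((k + 1 : ℕ) : ℤ)) =
      ra_e (M + 1) k * g (m + 1 + k) - ra_e (M + 1) (k + 1) * g (m + ((k + 1 : ℕ) : ℤ)) := by
    intro k _
    rw [ra_e_succ]
    have : m + ((k + 1 : ℕ) : ℤ) = m + 1 + k := by push_cast; ring
    rw [this]
    ring
  rw [Finset.sum_congr rfl e, Finset.sum_sub_distrib]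
  ring

private noncomputable def ra_E (q : ℕ) : PowerSeries ℂ :=
  PowerSeries.mk fun k => (((q + k - 1).choose k : ℕ) : ℂ)

private theorem ra_E_step (q : ℕ) : (1 - PowerSeries.X) * ra_E (q + 1) = ra_E q := by
  ext k
  rw [sub_mul, one_mul, map_sub]
  cases k with
  | zero =>
    rw [PowerSeries.coeff_zero_X_mul]
    simp [ra_E]
  | succ k =>
    rw [PowerSeries.coeff_succ_X_mul]
    unfold ra_E
    rw [PowerSeries.coeff_mk, PowerSeries.coeff_mk, PowerSeries.coeff_mk]
    have e1 : q + 1 + (k + 1) - 1 = (q + k) + 1 := by omega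
    have e2 : q + 1 + k - 1 = q + k := by omega
    have e3 : q + (k + 1) - 1 = q + k := by omega
    rw [e1, e2, e3, Nat.choose_succ_succ]
    push_cast
    ring

private theorem ra_E_pow (q : ℕ) : (1 - PowerSeries.X) ^ q * ra_E q = 1 := by
  induction q with
  | zero =>
    rw [pow_zero, one_mul]
    ext k
    unfold ra_E
    rw [PowerSeries.coeff_mk, PowerSeries.coeff_one]
    cases k with
    | zero => simp
    | succ k =>
      rw [if_neg (Nat.succ_ne_zero k), Nat.choose_eq_zero_of_lt (by omega), Nat.cast_zero]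
  | succ q ih =>
    rw [pow_succ, mul_assoc, ra_E_step, ih]

private theorem ra_binom (q i : ℕ) : PowerSeries.coeff i ((1 - PowerSeries.X : PowerSeries ℂ) ^ q) =
    (-1 : ℂ) ^ i * ((q.choose i : ℕ) : ℂ) := by
  induction q generalizing i with
  | zero =>
    rw [pow_zero, PowerSeries.coeff_one]
    cases i with
    | zero => simp
    | succ k => simp
  | succ q ih =>
    rw [pow_succ, mul_sub, mul_one, map_sub]
    cases i with
    | zero =>
      rw [PowerSeries.coeff_zero_mul_X, ih]
      simp
    | succ k =>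
      rw [PowerSeries.coeff_succ_mul_X, ih, ih, Nat.choose_succ_succ]
      push_cast
      ring

private theorem ra_conv (q n : ℕ) : ∑ p ∈ antidiagonal n,
    ((-1 : ℂ) ^ p.1 * ((q.choose p.1 : ℕ) : ℂ)) * (((q + p.2 - 1).choose p.2 : ℕ) : ℂ) =
      if n = 0 then 1 else 0 := by
  have h := congrArg (PowerSeries.coeff n) (ra_E_pow q)
  rw [PowerSeries.coeff_mul, PowerSeries.coeff_one] at h
  rw [← h]
  apply Finset.sum_congr rfl
  intro p _
  rw [ra_binom]
  unfold ra_E
  rw [PowerSeries.coeff_mk]

private theorem ra_abs (q : ℕ) (t : ℤ) (c : ℤ → ℕ → ℂ)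
    (hrec : ∀ m M, c m M = c (m + 1) (M + 1) - c m (M + 1))
    (hK : ∀ m (M : ℕ), t ≤ m → m - M ≤ t - q - 1 → c m M = 0)
    (g : ℤ → ℂ) (hg : ∀ m, g m = ∑ i ∈ range (t - m).toNat,
      (-(-1 : ℂ) ^ q * (-1 : ℂ) ^ i * ((q.choose i : ℕ) : ℂ)) * c (m + i) q)
    (m : ℤ) (M : ℕ) (hm : m - M ≤ t - q - 1) :
    ra_L g (t - m).toNat m M = - c m M := by
  have hg0 : ∀ s, t ≤ s → g s = 0 := by
    intro s hs
    rw [hg, Int.toNat_of_nonpos (by omega), Finset.range_zero, Finset.sum_empty]
  -- nonnegative part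
  have h0 : ∀ m (M : ℕ), t ≤ m → m - M ≤ t - q - 1 → ra_L g (t - m).toNat m M = - c m M := by
    intro m M h1 h2
    rw [hK m M h1 h2, Int.toNat_of_nonpos (by omega)]
    simp [ra_L]
  -- the case M = q
  have hq : ∀ m : ℤ, ra_L g (t - m).toNat m q = - c m q ∨ t ≤ m := by
    intro m
    by_cases h : t ≤ m
    · exact Or.inr h
    left
    obtain ⟨N, hN⟩ : ∃ N : ℕ, t - m = N + 1 := ⟨(t - m - 1).toNat, by omega⟩
    have e0 : (t - m).toNat = N + 1 := by omega
    rw [e0]
    unfold ra_L
    have e1 : ∀ k ∈ range (N + 1), ra_e q k * g (m + k) = ∑ i ∈ range (N + 1 - k),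
        (((-1 : ℂ) ^ i * ((q.choose i : ℕ) : ℂ)) * (((q + k - 1).choose k : ℕ) : ℂ)) *
          (-c (m + ((i + k : ℕ) : ℤ)) q) := by
      intro k hk
      rw [mem_range] at hk
      rw [hg, Finset.mul_sum]
      have e2 : (t - (m + k)).toNat = N + 1 - k := by omega
      rw [e2]
      apply Finset.sum_congr rfl
      intro i _
      unfold ra_e
      have e3 : m + (k : ℤ) + i = m + ((i + k : ℕ) : ℤ) := by push_cast; ring
      rw [e3]
      have e4 : (-1 : ℂ) ^ q * (-1 : ℂ) ^ q = 1 := by
        rw [← mul_pow]; norm_num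
      linear_combination (-(((q + k - 1).choose k : ℕ) : ℂ) * (-1 : ℂ) ^ i * ((q.choose i : ℕ) : ℂ) *
        c (m + ((i + k : ℕ) : ℤ)) q) * e4
    rw [Finset.sum_congr rfl e1]
    have e5 : ∑ k ∈ range (N + 1), ∑ i ∈ range (N + 1 - k),
        (((-1 : ℂ) ^ i * ((q.choose i : ℕ) : ℂ)) * (((q + k - 1).choose k : ℕ) : ℂ)) *
          (-c (m + ((i + k : ℕ) : ℤ)) q) =
        ∑ n ∈ range (N + 1), ∑ p ∈ antidiagonal n,
          (((-1 : ℂ) ^ p.1 * ((q.choose p.1 : ℕ) : ℂ)) * (((q + p.2 - 1).choose p.2 : ℕ) : ℂ)) *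
          (-c (m + n) q) := by
      rw [Finset.sum_sigma', Finset.sum_sigma']
      refine Finset.sum_bij' (fun x _ => ⟨x.2 + x.1, (x.2, x.1)⟩) (fun x _ => ⟨x.2.2, x.2.1⟩) ?_ ?_ ?_ ?_ ?_
      · rintro ⟨k, i⟩ h
        simp only [mem_sigma, mem_range] at h
        rw [mem_sigma, mem_range, HasAntidiagonal.mem_antidiagonal]
        refine ⟨?_, rfl⟩
        show i + k < N + 1
        omega
      · rintro ⟨n, ⟨i, k⟩⟩ h
        simp only [mem_sigma, mem_range, HasAntidiagonal.mem_antidiagonal] at h
        rw [mem_sigma, mem_range, mem_range]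
        show k < N + 1 ∧ i < N + 1 - k
        omega
      · rintro ⟨k, i⟩ h
        rfl
      · rintro ⟨n, ⟨i, k⟩⟩ h
        simp only [mem_sigma, mem_range, HasAntidiagonal.mem_antidiagonal] at h ⊢
        obtain ⟨_, rfl⟩ := h
        rfl
      · rintro ⟨k, i⟩ h
        rfl
    rw [e5]
    have e6 : ∀ n ∈ range (N + 1), ∑ p ∈ antidiagonal n,
          (((-1 : ℂ) ^ p.1 * ((q.choose p.1 : ℕ) : ℂ)) * (((q + p.2 - 1).choose p.2 : ℕ) : ℂ)) *
          (-c (m + n) q) = if n = 0 then - c m q else 0 := by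
      intro n _
      rw [← Finset.sum_mul, ra_conv]
      split_ifs with h
      · subst h
        simp
      · rw [zero_mul]
    rw [Finset.sum_congr rfl e6, Finset.sum_ite_eq' (range (N + 1)) 0, if_pos (by simp)]
  -- M below q
  have hlow : ∀ j M : ℕ, M + j = q → ∀ m : ℤ, m - M ≤ t - q - 1 →
      ra_L g (t - m).toNat m M = - c m M := by
    intro j
    induction j with
    | zero =>
      intro M hM m hm
      have : M = q := by omega
      subst this
      rcases hq m with h | h
      · exact h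
      · exact h0 m M h hm
    | succ j ih =>
      intro M hM m hm
      rw [ra_L_rec g t hg0 m M _ (t - (m + 1)).toNat (t - m).toNat (Int.self_le_toNat _)
        (Int.self_le_toNat _) (Int.self_le_toNat _), ih (M + 1) (by omega) (m + 1) (by push_cast; omega),
        ih (M + 1) (by omega) m (by push_cast; omega), hrec m M]
      ring
  -- M above q
  have hhigh : ∀ j : ℕ, ∀ m : ℤ, m - (q + j : ℕ) ≤ t - q - 1 →
      ra_L g (t - m).toNat m (q + j) = - c m (q + j) := by
    intro j
    induction j with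
    | zero =>
      intro m hm
      exact hlow 0 q (by omega) m (by simpa using hm)
    | succ j ih =>
      have h1 : ∀ i : ℕ, ∀ m : ℤ, t - m ≤ i → m - (q + (j + 1) : ℕ) ≤ t - q - 1 →
          ra_L g (t - m).toNat m (q + (j + 1)) = - c m (q + (j + 1)) := by
        intro i
        induction i with
        | zero =>
          intro m hi hm
          exact h0 m _ (by simpa using hi) hm
        | succ i ih2 =>
          intro m hi hm
          by_cases h : t ≤ m
          · exact h0 m _ h hm
          have h2 := ra_L_rec g t hg0 m (q + j) (t - m).toNat (t - (m + 1)).toNat (t - m).toNat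
            (Int.self_le_toNat _) (Int.self_le_toNat _) (Int.self_le_toNat _)
          have h3 := ih2 (m + 1) (by push_cast at hi; omega) (by push_cast; omega)
          have h4 := ih m (by push_cast; omega)
          have h5 := hrec m (q + j)
          have e : q + j + 1 = q + (j + 1) := by ring
          rw [e] at h2 h5
          rw [h3, h4] at h2
          linear_combination h2 + h5
      intro m hm
      exact h1 (t - m).toNat m (Int.self_le_toNat _) hm
  rcases le_total M q with h | h
  · exact hlow (q - M) M (by omega) m hm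
  · obtain ⟨j, rfl⟩ := Nat.exists_eq_add_of_le h
    exact hhigh j m hm

variable {V : Type u} [AddCommGroup V] [Module ℂ V]

section RA

variable (A : VOA V)

theorem GG_neg (r : ℤ) (hr : r < 0) : GG A r = ⊥ := by
  rw [eq_bot_iff]
  intro β hβ
  rw [Submodule.mem_bot]
  ext u
  have h := hβ 0 A.vac (vac_mem A) u (-1) 1 (by omega) (by norm_num)
  have h1 : rs A (ft (-1) 1) A.vac u = u := by
    unfold rs
    rw [finsum_eq_single _ (-1)]
    · rw [A.vacuum, if_pos rfl]
      have h2 : (ft (-1) 1).coeff (-1) = 1 := by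
        have h3 : ft (-1) 1 = xL ^ (-(1 : ℤ)) * (1 + xL) ^ (-1 : ℤ) := by
          unfold ft
          rw [pow_one, zpow_neg_one xL, mul_comm]
        rw [h3, xmul_coeff, pw_coeff]
        simp
      rw [h2, one_smul]
    · intro i hi
      rw [A.vacuum, if_neg hi, smul_zero]
  rw [h1] at h
  rw [h, LinearMap.zero_apply]

theorem ac_zero (r a m : ℤ) (v : V) (hm : a + r ≤ m) : ac A r a m v = 0 := by
  unfold ac
  rw [Int.toNat_of_nonpos (by omega), Finset.range_zero, Finset.sum_empty]

theorem ac_indep (r a : ℤ) (v : V) (hv : v ∈ A.gr a) (β : Module.Dual ℂ V) (hβ : β ∈ GG A r)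
    (m : ℤ) (M : ℕ) (hm : m - M ≤ a - 2) (u : V) :
    ∑ k ∈ range (a + r - m).toNat, ((-1 : ℂ) ^ M * (((M + k - 1).choose k : ℕ) : ℂ)) *
      ac A r a (m + k) v β u = -β (rs A (ft m M) v u) := by
  rcases lt_or_ge r 0 with hr | hr
  · rw [GG_neg A r hr, Submodule.mem_bot] at hβ
    rw [hβ, LinearMap.zero_apply, neg_zero]
    apply Finset.sum_eq_zero
    intro k _
    rw [map_zero, LinearMap.zero_apply, mul_zero]
  obtain ⟨q, hq⟩ : ∃ q : ℕ, (q : ℤ) = r + 1 := ⟨(r + 1).toNat, by omega⟩
  have hq' : (r + 1).toNat = q := by omega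
  refine ra_abs q (a + r) (fun m M => β (rs A (ft m M) v u)) ?_ ?_
    (fun s => ac A r a s v β u) ?_ m M (by omega)
  · intro m M
    show β (rs A (ft m M) v u) = β (rs A (ft (m + 1) (M + 1)) v u) - β (rs A (ft m (M + 1)) v u)
    rw [← map_sub, ← rsL_apply, ← rsL_apply, ← rsL_apply, ← LinearMap.sub_apply,
      ← LinearMap.sub_apply, ← map_sub, ← ft_rec]
  · intro m M h1 h2
    exact hβ a v hv u m M h1 (by omega)
  · intro m
    show ac A r a m v β u = _
    rw [ac_apply, hq']
    apply Finset.sum_congr rfl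
    intro i _
    have e : (-1 : ℂ) ^ r = -(-1 : ℂ) ^ q := by
      have : r = (q : ℤ) - 1 := by omega
      rw [this, zpow_sub_one₀ (by norm_num), zpow_natCast]
      norm_num
    rw [e]

/-- For every test function of degree at most `a - 2`: the functional
`f ↦ - β(Res f Y(v, x) u)` depends only on the expansion at `y = 0`. -/
theorem ac_test (r a : ℤ) (v : V) (hv : v ∈ A.gr a) (β : Module.Dual ℂ V) (hβ : β ∈ GG A r)
    (F : TF) (hF : F ∈ DgT (a - 2)) (u : V) :
    ∑ᶠ s : ℤ, (eyT F).coeff s * ac A r a s v β u = -β (rs A (exT F) v u) := by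
  have hfin : ∀ f : LaurentSeries ℂ,
      (Function.support fun s : ℤ => f.coeff s * ac A r a s v β u).Finite := by
    intro f
    refine (Set.finite_Ico f.order (a + r)).subset ?_
    intro i hi
    rw [Function.mem_support] at hi
    constructor
    · by_contra h
      apply hi
      rw [HahnSeries.coeff_eq_zero_of_lt_order (not_le.1 h), zero_mul]
    · by_contra h
      apply hi
      rw [ac_zero A r a i v (not_lt.1 h)]
      simp
  unfold DgT at hF
  rw [Finsupp.supported_eq_span_single] at hF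
  induction hF using Submodule.span_induction with
  | mem x hx =>
    obtain ⟨⟨m, M⟩, hp, rfl⟩ := hx
    have hp' : m - M ≤ a - 2 := hp
    have e1 : eyT (Finsupp.single (m, M) 1) = fy m M := by
      unfold eyT
      rw [Finsupp.linearCombination_single, one_smul]
    have e2 : exT (Finsupp.single (m, M) 1) = ft m M := by
      unfold exT
      rw [Finsupp.linearCombination_single, one_smul]
    rw [e1, e2, ← ac_indep A r a v hv β hβ m M hp' u]
    rw [finsum_eq_sum_of_support_subset (s := (range (a + r - m).toNat).map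
      ⟨fun k : ℕ => m + (k : ℤ), fun x y h => by simpa using h⟩)]
    · rw [Finset.sum_map]
      apply Finset.sum_congr rfl
      intro k _
      show (fy m M).coeff (m + (k : ℤ)) * ac A r a (m + (k : ℤ)) v β u = _
      rw [fy_coeff, if_neg (by omega)]
      have e3 : (m + (k : ℤ) - m).toNat = k := by omega
      rw [e3]
    · intro s hs
      rw [Function.mem_support] at hs
      rw [Finset.coe_map, Set.mem_image]
      have h1 : m ≤ s := by
        by_contra h
        apply hs
        rw [fy_coeff, if_pos (by omega), zero_mul]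
      have h2 : s < a + r := by
        by_contra h
        apply hs
        rw [ac_zero A r a s v (not_lt.1 h)]
        simp
      refine ⟨(s - m).toNat, ?_, ?_⟩
      · rw [Finset.mem_coe, mem_range]
        omega
      · show m + (((s - m).toNat : ℕ) : ℤ) = s
        omega
  | zero =>
    rw [map_zero, map_zero]
    have : rs A 0 v u = 0 := by
      have := rs_smul_f A 0 0 v u
      simpa using this
    rw [this, map_zero, neg_zero]
    simp
  | add F G _ _ ihF ihG =>
    rw [map_add, map_add, rs_add_f, map_add, neg_add, ← ihF, ← ihG, ← finsum_add_distrib (hfin _) (hfin _)]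
    apply finsum_congr
    intro s
    rw [HahnSeries.coeff_add, add_mul]
  | smul c F _ ih =>
    rw [map_smul, map_smul, rs_smul_f, map_smul, ← smul_neg, ← ih, smul_finsum' c (hfin _)]
    apply finsum_congr
    intro s
    rw [HahnSeries.coeff_smul, smul_eq_mul, smul_eq_mul, mul_assoc]

end RA

end Pool.Agent.DERVR
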