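import Pool.Agent.DERVR.RA
import Pool.Agent.VOAut.Deform

/-!
# Project DERV, part I: RB : the two point lemma
-/

set_option autoImplicit false

universe u w

open Finset

namespace Pool.Agent.DERVR

open Pool.Agent.VOAut Pool.Agent.DERV

variable {V : Type u} [AddCommGroup V] [Module ℂ V]

section RB

variable (A : VOA V)

theorem rb_neg (s t : ℕ) :
    Ring.choose (-(s : ℤ)) t = (-1) ^ t * ((s + t - 1).choose t : ℤ) := by
  by_cases hs : s = 0
  · subst hs
    cases t with
    | zero => simp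
    | succ t =>
      simp [Ring.choose_zero_succ, Nat.choose_succ_self]
  · exact choose_neg_nat s t hs

theorem rb_nat (K i k : ℕ) : (K + i - 1).choose i * (K + i + k - 1).choose k =
    (K + k - 1).choose k * (K + k + i - 1).choose i := by
  cases K with
  | zero =>
    cases i with
    | zero => simp
    | succ i =>
      cases k with
      | zero => simp
      | succ k => simp [Nat.choose_succ_self]
  | succ K =>
    have e1 : K + 1 + i - 1 = i + K := by omega
    have e2 : K + 1 + i + k - 1 = k + (i + K) := by omega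
    have e3 : K + 1 + k - 1 = k + K := by omega
    have e4 : K + 1 + k + i - 1 = i + (k + K) := by omega
    rw [e1, e2, e3, e4]
    have h1 := Nat.add_choose_mul_factorial_mul_factorial i K
    have h2 := Nat.add_choose_mul_factorial_mul_factorial k (i + K)
    have h3 := Nat.add_choose_mul_factorial_mul_factorial k K
    have h4 := Nat.add_choose_mul_factorial_mul_factorial i (k + K)
    have e5 : k + (i + K) = i + (k + K) := by omega
    have s1 : (i + K).choose K = (i + K).choose i := by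
      rw [← Nat.choose_symm_add]
    have s2 : (k + (i + K)).choose (i + K) = (k + (i + K)).choose k := by
      rw [← Nat.choose_symm_add]
    have s3 : (k + K).choose K = (k + K).choose k := by
      rw [← Nat.choose_symm_add]
    have s4 : (i + (k + K)).choose (k + K) = (i + (k + K)).choose i := by
      rw [← Nat.choose_symm_add]
    rw [s1] at h1
    rw [s2] at h2
    rw [s3] at h3
    rw [s4] at h4
    have hp : 0 < i.factorial * K.factorial * k.factorial := by positivity
    apply Nat.eq_of_mul_eq_mul_right hp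
    have h5 : (i + K).choose i * (k + (i + K)).choose k *
        (i.factorial * K.factorial * k.factorial) = (k + (i + K)).factorial := by
      rw [← h2, ← h1]
      ring
    have h6 : (k + K).choose k * (i + (k + K)).choose i *
        (i.factorial * K.factorial * k.factorial) = (i + (k + K)).factorial := by
      rw [← h4, ← h3]
      ring
    rw [h5, h6, e5]

theorem rb_choose (K i k : ℕ) :
    ((Ring.choose (-(K : ℤ)) i : ℤ) : ℂ) * (((K + i + k - 1).choose k : ℕ) : ℂ) =
    (((K + k - 1).choose k : ℕ) : ℂ) * ((Ring.choose (-(K : ℤ) - k) i : ℤ) : ℂ) := by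
  have e : -(K : ℤ) - k = -((K + k : ℕ) : ℤ) := by push_cast; ring
  rw [e, rb_neg, rb_neg]
  have h := rb_nat K i k
  have h' : (((K + i - 1).choose i : ℕ) : ℂ) * (((K + i + k - 1).choose k : ℕ) : ℂ) =
    (((K + k - 1).choose k : ℕ) : ℂ) * (((K + k + i - 1).choose i : ℕ) : ℂ) := by
    exact_mod_cast h
  push_cast
  linear_combination (-1 : ℂ) ^ i * h'

theorem rb_van (f : LaurentSeries ℂ) (u v : V) :
    ∃ I : ℕ, ∀ i : ℕ, I ≤ i → rs A (xL ^ (i : ℤ) * f) u v = 0 := by
  obtain ⟨N, hN⟩ := rs_congr A u v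
  refine ⟨(N - f.order).toNat, fun i hi => ?_⟩
  rw [hN _ 0]
  · have h := rsL_apply A 0 u v
    rw [map_zero] at h
    rw [← h]
    rfl
  · intro j hj
    rw [xmul_coeff, OG_order f (j - i) (by omega), HahnSeries.coeff_zero]

theorem rb_single (p : ℤ × ℕ) : exT (Finsupp.single p 1) = ft p.1 p.2 := by
  unfold exT
  rw [Finsupp.linearCombination_single, one_smul]

theorem rb_single_y (p : ℤ × ℕ) : eyT (Finsupp.single p 1) = fy p.1 p.2 := by
  unfold eyT
  rw [Finsupp.linearCombination_single, one_smul]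

theorem rb_ex (j : ℕ) (F : TF) :
    exT (mulT (Finsupp.single ((0 : ℤ), j) 1) F) = xL ^ (-(j : ℤ)) * exT F := by
  rw [ex_mul, rb_single]
  unfold ft
  rw [zpow_zero, one_mul, zpow_neg, zpow_natCast, inv_pow]

theorem rb_ey (j : ℕ) (F : TF) :
    eyT (mulT (Finsupp.single ((0 : ℤ), j) 1) F) = fy 0 j * eyT F := by
  rw [ey_mul, rb_single_y]

theorem rb_Dg (j : ℕ) (d : ℤ) (F : TF) (hF : F ∈ DgT d) :
    mulT (Finsupp.single ((0 : ℤ), j) 1) F ∈ DgT (d - j) := by
  have h1 : (Finsupp.single ((0 : ℤ), j) 1 : TF) ∈ DgT (-(j : ℤ)) := by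
    unfold DgT
    apply Finsupp.single_mem_supported
    show (0 : ℤ) - j ≤ -(j : ℤ)
    omega
  have h2 := mul_Dg _ _ _ _ h1 hF
  rwa [show -(j : ℤ) + d = d - j by ring] at h2

theorem rb_mono {d e : ℤ} (h : d ≤ e) {F : TF} (hF : F ∈ DgT d) : F ∈ DgT e := by
  unfold DgT at *
  refine Finsupp.supported_mono ?_ hF
  intro p hp
  exact le_trans hp h

theorem rb_fy_OG (j : ℕ) : OG 0 (fy 0 j) := by
  intro s hs
  rw [fy_coeff, if_pos hs]

theorem rb_finsum (n : ℤ) (N : ℕ) (f : ℤ → ℂ) (h : ∀ s, (s < n ∨ n + N ≤ s) → f s = 0) :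
    ∑ᶠ s, f s = ∑ k ∈ range N, f (n + k) := by
  rw [finsum_eq_sum_of_support_subset f (s := (range N).image (fun k : ℕ => n + (k : ℤ)))]
  · rw [Finset.sum_image]
    intro x _ y _ hxy
    simpa using hxy
  · intro s hs
    rw [Function.mem_support] at hs
    have h1 : ¬(s < n ∨ n + N ≤ s) := fun h2 => hs (h s h2)
    push Not at h1
    rw [Finset.coe_image]
    refine ⟨(s - n).toNat, ?_, ?_⟩
    · rw [Finset.coe_range, Set.mem_Iio]
      omega
    · show n + ((s - n).toNat : ℤ) = s
      omega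

/-- The first product vanishes. -/
theorem rb_first (r a : ℤ) (K j : ℕ) (hj : K ≤ j) (v : V) (hv : v ∈ A.gr a)
    (β : Module.Dual ℂ V) (hβ : β ∈ GG A r) (F : TF) (hF : F ∈ DgT (a - 2 + K))
    (hF0 : ∀ s < a + r, (eyT F).coeff s = 0) (u : V) :
    β (rs A (xL ^ (-(j : ℤ)) * exT F) v u) = 0 := by
  have h1 := ac_test A r a v hv β hβ (mulT (Finsupp.single ((0 : ℤ), j) 1) F)
    (rb_mono (by omega) (rb_Dg j _ F hF)) u
  rw [rb_ex, rb_ey] at h1
  have h2 : OG (0 + (a + r)) (fy 0 j * eyT F) := (rb_fy_OG j).mul hF0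
  have h3 : ∑ᶠ s : ℤ, (fy 0 j * eyT F).coeff s * ac A r a s v β u = 0 := by
    apply finsum_eq_zero_of_forall_eq_zero
    intro s
    by_cases hs : s < a + r
    · rw [h2 s (by omega), zero_mul]
    · rw [ac_zero A r a s v (by omega), LinearMap.zero_apply, LinearMap.zero_apply, mul_zero]
  rw [h3] at h1
  exact neg_eq_zero.1 h1.symm

theorem rb_coeff (B n : ℤ) (j : ℕ) (H : LaurentSeries ℂ)
    (hH : ∀ s < B, H.coeff s = if s = n then 1 else 0) (hn : n < B) (s : ℤ) (hs : s < B) :
    (fy 0 j * H).coeff s = if s < n then 0 else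
      (-1 : ℂ) ^ j * (((j + (s - n).toNat - 1).choose (s - n).toNat : ℕ) : ℂ) := by
  have h1 : H = xL ^ n + (H - xL ^ n) := by ring
  have h2 : OG B (H - xL ^ n) := by
    intro t ht
    rw [HahnSeries.coeff_sub, hH t ht, xL_zpow]
    by_cases h : t = n
    · subst h
      simp
    · rw [if_neg h, HahnSeries.coeff_single_of_ne h, sub_zero]
  have h3 : fy 0 j * H = xL ^ n * fy 0 j + fy 0 j * (H - xL ^ n) := by ring
  rw [h3, HahnSeries.coeff_add, ((rb_fy_OG j).mul h2) s (by omega), add_zero, xmul_coeff, fy_coeff]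
  by_cases h : s < n
  · rw [if_pos h, if_pos (by omega)]
  · rw [if_neg h, if_neg (by omega), sub_zero]

/-- The second product. -/
theorem rb_second (r b n : ℤ) (j : ℕ) (w : V) (hw : w ∈ A.gr b)
    (β : Module.Dual ℂ V) (hβ : β ∈ GG A r) (G : TF) (hG : G ∈ DgT (b - 2))
    (hGn : ∀ s < b + r, (eyT G).coeff s = if s = n then 1 else 0) (u : V) :
    β (rs A (xL ^ (-(j : ℤ)) * exT G) w u) = -∑ k ∈ range (b + r - n).toNat,
      (-1 : ℂ) ^ j * (((j + k - 1).choose k : ℕ) : ℂ) * ac A r b (n + k) w β u := by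
  have h1 := ac_test A r b w hw β hβ (mulT (Finsupp.single ((0 : ℤ), j) 1) G)
    (rb_mono (by omega) (rb_Dg j _ G hG)) u
  rw [rb_ex, rb_ey] at h1
  rw [← neg_eq_iff_eq_neg, ← h1]
  by_cases hn : n < b + r
  · rw [rb_finsum n (b + r - n).toNat]
    · apply Finset.sum_congr rfl
      intro k hk
      rw [Finset.mem_range] at hk
      rw [rb_coeff (b + r) n j _ hGn hn (n + k) (by omega), if_neg (by omega)]
      have e : (n + (k : ℤ) - n).toNat = k := by omega
      rw [e]
    · intro s hs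
      rcases hs with hs | hs
      · rw [rb_coeff (b + r) n j _ hGn hn s (by omega), if_pos hs, zero_mul]
      · rw [ac_zero A r b s w (by omega), LinearMap.zero_apply, LinearMap.zero_apply, mul_zero]
  · have e : (b + r - n).toNat = 0 := by omega
    rw [e, Finset.range_zero, Finset.sum_empty]
    have h2 : OG (b + r) (eyT G) := by
      intro s hs
      rw [hGn s hs, if_neg (by omega)]
    apply finsum_eq_zero_of_forall_eq_zero
    intro s
    by_cases hs : s < b + r
    · rw [((rb_fy_OG j).mul h2) s (by omega), zero_mul]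
    · rw [ac_zero A r b s w (by omega), LinearMap.zero_apply, LinearMap.zero_apply, mul_zero]

theorem two_pt (r a b n : ℤ) (K : ℕ) (v w : V) (hv : v ∈ A.gr a) (hw : w ∈ A.gr b)
    (β : Module.Dual ℂ V) (hβ : β ∈ GG A r) (F G : TF) (hF : F ∈ DgT (a - 2 + K))
    (hF0 : ∀ s < a + r, (eyT F).coeff s = 0) (hG : G ∈ DgT (b - 2))
    (hGn : ∀ s < b + r, (eyT G).coeff s = if s = n then 1 else 0) (u : V) :
    β (∑ᶠ i : ℕ, rs A (LaurentSeries.hasseDeriv ℂ i (exT F) * exT G)
        (A.Y v (-(K : ℤ) + i) w) u) =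
      ∑ k ∈ range (b + r - n).toNat, (((K + k - 1).choose k : ℕ) : ℂ) *
        ac A r b (n + k) w β (rs A ((1 + xL) ^ (-(K : ℤ) - k) * exT F) v u) := by
  obtain ⟨I1, hI1⟩ := rb_van A (exT F) v u
  obtain ⟨I2, hI2⟩ := rb_van A (exT G) w u
  set I := max I1 I2 with hI
  have hz : ∀ f : LaurentSeries ℂ, ∀ x : V, rs A f x 0 = 0 := by
    intro f x
    exact map_zero (rsv A f x)
  rw [gbi, finsum_eq_range _ I]
  · rw [map_sum]
    have h1 : ∀ i ∈ range I, β (((-1 : ℂ) ^ i * ((Ring.choose (-(K : ℤ)) i : ℤ) : ℂ)) •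
        (rs A (xL ^ (-(K : ℤ) - i) * exT F) v (rs A (xL ^ (i : ℤ) * exT G) w u) -
          (-1 : ℂ) ^ (-(K : ℤ)) • rs A (xL ^ (-(K : ℤ) - i) * exT G) w
            (rs A (xL ^ (i : ℤ) * exT F) v u))) =
        ∑ k ∈ range (b + r - n).toNat, (((K + k - 1).choose k : ℕ) : ℂ) *
          (((Ring.choose (-(K : ℤ) - k) i : ℤ) : ℂ) *
            ac A r b (n + k) w β (rs A (xL ^ (i : ℤ) * exT F) v u)) := by
      intro i _
      have e : -(K : ℤ) - i = -((K + i : ℕ) : ℤ) := by push_cast; ring
      rw [e, map_smul, map_sub, map_smul,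
        rb_first A r a K (K + i) (by omega) v hv β hβ F hF hF0,
        rb_second A r b n (K + i) w hw β hβ G hG hGn, smul_eq_mul, smul_eq_mul, zero_sub,
        mul_neg ((-1 : ℂ) ^ (-(K : ℤ))), neg_neg, Finset.mul_sum, Finset.mul_sum]
      apply Finset.sum_congr rfl
      intro k _
      have h2 := rb_choose K i k
      have h3 : (-1 : ℂ) ^ i * (-1 : ℂ) ^ (-(K : ℤ)) * (-1 : ℂ) ^ (K + i) = 1 := by
        rw [zpow_neg, zpow_natCast, pow_add, ← inv_pow]
        have h4 : ((-1 : ℂ)⁻¹) = -1 := by norm_num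
        rw [h4]
        have h5 : ((-1 : ℂ) ^ i) * ((-1 : ℂ) ^ i) = 1 := by
          rw [← mul_pow]; norm_num
        have h6 : ((-1 : ℂ) ^ K) * ((-1 : ℂ) ^ K) = 1 := by
          rw [← mul_pow]; norm_num
        linear_combination ((-1 : ℂ) ^ i) * ((-1 : ℂ) ^ i) * h6 + h5
      generalize ((Ring.choose (-(K : ℤ)) i : ℤ) : ℂ) = c1 at *
      generalize (((K + i + k - 1).choose k : ℕ) : ℂ) = c2 at *
      generalize (((K + k - 1).choose k : ℕ) : ℂ) = c3 at *
      generalize ((Ring.choose (-(K : ℤ) - k) i : ℤ) : ℂ) = c4 at *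
      generalize (ac A r b (n + k) w) β (rs A (xL ^ (i : ℤ) * exT F) v u) = X at *
      generalize (-1 : ℂ) ^ (-(K : ℤ)) = s1 at *
      linear_combination (c1 * c2 * X) * h3 + X * h2
    rw [Finset.sum_congr rfl h1, Finset.sum_comm]
    apply Finset.sum_congr rfl
    intro k _
    rw [← Finset.mul_sum, rs_pw, finsum_eq_range _ I]
    · rw [map_sum]
      congr 1
      apply Finset.sum_congr rfl
      intro i _
      rw [map_smul, smul_eq_mul]
    · intro i hi
      rw [hI1 i (by omega), smul_zero]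
  · intro i hi
    rw [hI1 i (by omega), hI2 i (by omega), hz, hz, smul_zero, sub_zero, smul_zero]

end RB

end Pool.Agent.DERVR
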