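import Pool.Agent.DERVR.RC

/-!
# Project DERV, part I: RD : commutator formula
-/

set_option autoImplicit false

universe u w

open Finset

namespace Pool.Agent.DERVR

open Pool.Agent.VOAut Pool.Agent.DERV

variable {V : Type u} [AddCommGroup V] [Module ℂ V]

section RD

theorem rd_split (P : LaurentSeries ℂ) (c : ℂ) (p k : ℤ)
    (hP : ∀ s < k, P.coeff s = if s = p then c else 0) :
    ∃ P' : LaurentSeries ℂ, OG k P' ∧ P = cc c * HahnSeries.single p 1 + P' := by
  refine ⟨P - cc c * HahnSeries.single p 1, fun s hs => ?_, by ring⟩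
  rw [HahnSeries.coeff_sub, hP s hs, coeff_cc_mul]
  by_cases h : s = p
  · subst h
    rw [if_pos rfl, HahnSeries.coeff_single_same, mul_one, sub_self]
  · rw [if_neg h, HahnSeries.coeff_single_of_ne h, mul_zero, sub_zero]

theorem rd_mul (P Q : LaurentSeries ℂ) (c : ℂ) (p n k1 k2 K : ℤ)
    (hP : ∀ s < k1, P.coeff s = if s = p then c else 0)
    (hQ : ∀ s < k2, Q.coeff s = if s = n then 1 else 0) (hn : n ≤ k2) (h1 : K ≤ k1 + n)
    (h2 : K ≤ p + k2) (s : ℤ) (hs : s < K) :
    (P * Q).coeff s = if s = p + n then c else 0 := by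
  obtain ⟨P', hP', eP⟩ := rd_split P c p k1 hP
  obtain ⟨Q', hQ', eQ⟩ := rd_split Q 1 n k2 hQ
  rw [map_one, one_mul] at eQ
  have hQn : OG n Q := by
    rw [eQ]
    exact (OG_single n 1).add (hQ'.mono hn)
  have e : P * Q = cc c * HahnSeries.single (p + n) 1 +
      (cc c * (HahnSeries.single p 1 * Q') + P' * Q) := by
    have e2 : (HahnSeries.single (p + n) 1 : LaurentSeries ℂ) =
        HahnSeries.single p 1 * HahnSeries.single n 1 := by
      rw [HahnSeries.single_mul_single, one_mul]
    have e3 : P * Q = cc c * HahnSeries.single p 1 * Q + P' * Q := by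
      rw [← add_mul, ← eP]
    have e4 : cc c * HahnSeries.single p 1 * Q =
        cc c * HahnSeries.single p 1 * (HahnSeries.single n 1 + Q') := by
      rw [← eQ]
    rw [e3, e4, e2]
    ring
  have h3 : OG K (cc c * (HahnSeries.single p 1 * Q') + P' * Q) := by
    apply OG.add
    · apply OG.cc
      exact ((OG_single p 1).mul hQ').mono h2
    · exact (hP'.mul hQn).mono h1
  rw [e, HahnSeries.coeff_add, h3 s hs, add_zero, coeff_cc_mul]
  by_cases h : s = p + n
  · rw [if_pos h, h, HahnSeries.coeff_single_same, mul_one]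
  · rw [if_neg h, HahnSeries.coeff_single_of_ne h, mul_zero]

theorem rd_hd (F : LaurentSeries ℂ) (m k : ℤ) (i : ℕ)
    (hF : ∀ s < k, F.coeff s = if s = m then 1 else 0) (s : ℤ) (hs : s < k - i) :
    (LaurentSeries.hasseDeriv ℂ i F).coeff s =
      if s = m - i then ((Ring.choose m i : ℤ) : ℂ) else 0 := by
  rw [LaurentSeries.hasseDeriv_coeff, hF (s + i) (by omega)]
  by_cases h : s = m - i
  · have h2 : s + (i : ℤ) = m := by omega
    rw [if_pos h, if_pos h2, h2]
    simp
  · have h2 : ¬ (s + (i : ℤ) = m) := by omega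
    rw [if_neg h, if_neg h2, smul_zero]

variable (A : VOA V)

/-- Evaluation of the left side of `ac_test`. -/
theorem rd_sum (r a m : ℤ) (v : V) (β : Module.Dual ℂ V) (e : LaurentSeries ℂ) (c : ℂ)
    (he : ∀ s < a + r, e.coeff s = if s = m then c else 0) (u : V) :
    ∑ᶠ s : ℤ, e.coeff s * ac A r a s v β u = c * ac A r a m v β u := by
  have hz : ∀ s, a + r ≤ s → ac A r a s v β u = 0 := by
    intro s hs
    rw [ac_zero A r a s v hs]
    rfl
  rw [finsum_eq_single _ m]
  · by_cases h : m < a + r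
    · rw [he m h, if_pos rfl]
    · rw [hz m (not_lt.1 h), mul_zero, mul_zero]
  · intro s hs
    by_cases h : s < a + r
    · rw [he s h, if_neg hs, zero_mul]
    · rw [hz s (not_lt.1 h), mul_zero]

theorem ac_comm (r a b m n : ℤ) (v w : V) (hv : v ∈ A.gr a) (hw : w ∈ A.gr b)
    (β : Module.Dual ℂ V) (hβ : β ∈ GG A r) :
    ac A (r + b - n - 1) a m v (ac A r b n w β) - ac A (r + a - m - 1) b n w (ac A r a m v β) =
      ∑ᶠ i : ℕ, ((Ring.choose m i : ℤ) : ℂ) •
        ac A r (a + b - i - 1) (m + n - i) (A.Y v i w) β := by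
  classical
  obtain ⟨I, hI⟩ := A.trunc_nat v w 0
  have hI' : ∀ i : ℕ, I ≤ i → A.Y v i w = 0 := by
    intro i hi
    have := hI i hi
    rwa [zero_add] at this
  set kF : ℤ := max (a + (r + b - n - 1)) (max (a + r) (a + b + r - 1 - n)) with hkF
  set kG : ℤ := max (b + (r + a - m - 1)) (max (b + r) (max (a + b + r - 1 - m) n)) with hkG
  obtain ⟨F, hF, hF1⟩ := exists_test m kF (a - 2)
  obtain ⟨G, hG, hG1⟩ := exists_test n kG (b - 2)
  have kF1 : a + (r + b - n - 1) ≤ kF := le_max_left _ _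
  have kF2 : a + r ≤ kF := (le_max_left _ _).trans (le_max_right _ _)
  have kF3 : a + b + r - 1 - n ≤ kF := (le_max_right _ _).trans (le_max_right _ _)
  have kG1 : b + (r + a - m - 1) ≤ kG := le_max_left _ _
  have kG2 : b + r ≤ kG := (le_max_left _ _).trans (le_max_right _ _)
  have kG3 : a + b + r - 1 - m ≤ kG :=
    ((le_max_left _ _).trans (le_max_right _ _)).trans (le_max_right _ _)
  have kG4 : n ≤ kG := ((le_max_right _ _).trans (le_max_right _ _)).trans (le_max_right _ _)
  ext u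
  have hγ := ac_level A r b n w hw β hβ
  have hδ := ac_level A r a m v hv β hβ
  have a1 : ∀ x, ac A r b n w β x = -β (rs A (exT G) w x) := by
    intro x
    rw [← ac_test A r b w hw β hβ G hG x,
      rd_sum A r b n w β (eyT G) 1 (fun s hs => hG1 s (by omega)) x, one_mul]
  have a2 : ∀ x, ac A r a m v β x = -β (rs A (exT F) v x) := by
    intro x
    rw [← ac_test A r a v hv β hβ F hF x,
      rd_sum A r a m v β (eyT F) 1 (fun s hs => hF1 s (by omega)) x, one_mul]
  have a3 : ac A (r + b - n - 1) a m v (ac A r b n w β) u =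
      -(ac A r b n w β) (rs A (exT F) v u) := by
    rw [← ac_test A (r + b - n - 1) a v hv _ hγ F hF u,
      rd_sum A (r + b - n - 1) a m v _ (eyT F) 1 (fun s hs => hF1 s (by omega)) u, one_mul]
  have a4 : ac A (r + a - m - 1) b n w (ac A r a m v β) u =
      -(ac A r a m v β) (rs A (exT G) w u) := by
    rw [← ac_test A (r + a - m - 1) b w hw _ hδ G hG u,
      rd_sum A (r + a - m - 1) b n w _ (eyT G) 1 (fun s hs => hG1 s (by omega)) u, one_mul]
  have a5 : ∀ i : ℕ, ((Ring.choose m i : ℤ) : ℂ) *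
      ac A r (a + b - i - 1) (m + n - i) (A.Y v i w) β u =
      -β (rs A (LaurentSeries.hasseDeriv ℂ i (exT F) * exT G) (A.Y v i w) u) := by
    intro i
    have hvw : A.Y v i w ∈ A.gr (a + b - i - 1) := by
      have := A.graded a i b v w hv hw
      have e : b + a - (i : ℤ) - 1 = a + b - i - 1 := by ring
      rwa [e] at this
    have hd : mulT (hdT i F) G ∈ DgT ((a + b - i - 1) - 2) := by
      have h1 := mul_Dg (a - 2 - i) (b - 2) _ _ (hd_Dg i (a - 2) F hF) hG
      refine Finsupp.supported_mono ?_ h1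
      intro p hp
      rw [Set.mem_ofPred_eq] at hp ⊢
      omega
    have h2 := ac_test A r (a + b - i - 1) (A.Y v i w) hvw β hβ (mulT (hdT i F) G) hd u
    rw [ex_mul, ex_hd] at h2
    rw [← h2, rd_sum A r (a + b - i - 1) (m + n - i) (A.Y v i w) β _
      ((Ring.choose m i : ℤ) : ℂ) ?_ u]
    intro s hs
    rw [ey_mul, ey_hd]
    have h3 := rd_mul (LaurentSeries.hasseDeriv ℂ i (eyT F)) (eyT G) ((Ring.choose m i : ℤ) : ℂ)
      (m - i) n (kF - i) kG (a + b - i - 1 + r) (fun s hs => rd_hd (eyT F) m kF i hF1 s hs) hG1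
      kG4 (by omega) (by omega) s hs
    rw [h3]
    have e : m - (i : ℤ) + n = m + n - i := by ring
    rw [e]
  have a6 : (∑ᶠ i : ℕ, ((Ring.choose m i : ℤ) : ℂ) •
        ac A r (a + b - i - 1) (m + n - i) (A.Y v i w) β) =
      ∑ i ∈ range I, ((Ring.choose m i : ℤ) : ℂ) •
        ac A r (a + b - i - 1) (m + n - i) (A.Y v i w) β := by
    apply finsum_eq_range
    intro i hi
    rw [hI' i hi]
    ext x
    rw [LinearMap.smul_apply, ac_apply, Finset.sum_eq_zero, smul_zero, LinearMap.zero_apply]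
    intro j _
    rw [rs_zero_u, map_zero, mul_zero]
  rw [a6, LinearMap.sub_apply, a3, a4, a1, a2, LinearMap.sum_apply]
  have a7 : ∑ i ∈ range I, (((Ring.choose m i : ℤ) : ℂ) •
        ac A r (a + b - i - 1) (m + n - i) (A.Y v i w) β) u =
      -β (∑ i ∈ range I, rs A (LaurentSeries.hasseDeriv ℂ i (exT F) * exT G) (A.Y v i w) u) := by
    rw [map_sum, ← Finset.sum_neg_distrib]
    apply Finset.sum_congr rfl
    intro i _
    rw [LinearMap.smul_apply, smul_eq_mul, a5]
  rw [a7, ← comm_rs A (exT F) (exT G) v w u I hI', map_sub]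
  ring

end RD

end Pool.Agent.DERVR
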