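import Pool.Agent.DERV.BAS

/-!
# Project DERV: the regular representation, definitions
-/

set_option autoImplicit false

universe u

open Finset

namespace Pool.Agent.DERVR

open Pool.Agent.VOAut Pool.Agent.DERV

variable {V : Type u} [AddCommGroup V] [Module ℂ V]

/-- The test functions `(1 + x) ^ m x ^ (-M)`. -/
noncomputable def ft (m : ℤ) (M : ℕ) : LaurentSeries ℂ := (1 + xL) ^ m * (xL⁻¹) ^ M

/-- The space `𝒢_r` of functionals. -/
def GG (A : VOA V) (r : ℤ) : Submodule ℂ (Module.Dual ℂ V) where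
  carrier := {β | ∀ (a : ℤ) (v : V), v ∈ A.gr a → ∀ (u : V) (m : ℤ) (M : ℕ), a + r ≤ m →
    m - M ≤ a - 2 → β (rs A (ft m M) v u) = 0}
  zero_mem' := fun _ _ _ _ _ _ _ _ => rfl
  add_mem' := by
    intro β γ hβ hγ a v hv u m M h1 h2
    rw [LinearMap.add_apply, hβ a v hv u m M h1 h2, hγ a v hv u m M h1 h2, add_zero]
  smul_mem' := by
    intro c β hβ a v hv u m M h1 h2
    rw [LinearMap.smul_apply, hβ a v hv u m M h1 h2, smul_zero]

/-- The action of `v_m` (`v` of weight `a`) on functionals of level `r`. -/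
noncomputable def ac (A : VOA V) (r a m : ℤ) (v : V) : Module.Dual ℂ V →ₗ[ℂ] Module.Dual ℂ V :=
  ∑ i ∈ range (a + r - m).toNat,
    ((-1 : ℂ) ^ r * (-1 : ℂ) ^ i * (((r + 1).toNat.choose i : ℕ) : ℂ)) •
      (rsv A (ft (m + i) (r + 1).toNat) v).dualMap

theorem ac_apply (A : VOA V) (r a m : ℤ) (v : V) (β : Module.Dual ℂ V) (u : V) :
    ac A r a m v β u = ∑ i ∈ range (a + r - m).toNat,
      ((-1 : ℂ) ^ r * (-1 : ℂ) ^ i * (((r + 1).toNat.choose i : ℕ) : ℂ)) *
        β (rs A (ft (m + i) (r + 1).toNat) v u) := by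
  unfold ac
  rw [LinearMap.sum_apply, LinearMap.sum_apply]
  rfl

/-- The space of the regular representation: finitely supported families of functionals. -/
def MM (A : VOA V) : Submodule ℂ (ℤ →₀ Module.Dual ℂ V) where
  carrier := {F | ∀ r, F r ∈ GG A r}
  zero_mem' := fun r => (GG A r).zero_mem
  add_mem' := fun hF hG r => (GG A r).add_mem (hF r) (hG r)
  smul_mem' := fun c _ hF r => (GG A r).smul_mem c (hF r)

/-- The underlying space of the regular representation. -/
def RM (A : VOA V) : Type u := MM A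

noncomputable instance (A : VOA V) : AddCommGroup (RM A) := inferInstanceAs (AddCommGroup (MM A))

noncomputable instance (A : VOA V) : Module ℂ (RM A) := inferInstanceAs (Module ℂ (MM A))

/-- The coordinates of an element of the regular representation. -/
noncomputable def rv (A : VOA V) : RM A →ₗ[ℂ] (ℤ →₀ Module.Dual ℂ V) := (MM A).subtype

theorem rv_inj (A : VOA V) : Function.Injective (rv A) := Subtype.val_injective

theorem rv_mem (A : VOA V) (y : RM A) (r : ℤ) : rv A y r ∈ GG A r := y.2 r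

theorem rv_surj (A : VOA V) (F : ℤ →₀ Module.Dual ℂ V) (hF : ∀ r, F r ∈ GG A r) :
    ∃ y, rv A y = F := ⟨⟨F, hF⟩, rfl⟩

/-- The characterisation of the module structure on `RM A`: the piece of degree `r` is `𝒢_r` and
`v_m` (`v` of weight `a`) acts from `𝒢_r` to `𝒢_(r+a-m-1)` by `ac`. -/
structure IsReg (A : VOA V) (X : AdmissibleModule A (RM A)) : Prop where
  act : ∀ (a r m : ℤ) (v : V) (β : Module.Dual ℂ V) (y : RM A), v ∈ A.gr a →
    rv A y = Finsupp.single r β → rv A (X.Y v m y) = Finsupp.single (r + a - m - 1) (ac A r a m v β)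
  gr : ∀ (r : ℤ) (y : RM A), y ∈ X.gr r ↔ rv A y = Finsupp.single r (rv A y r)

/-- Expansion at `y = 0` of `y ^ m (y - 1) ^ (-M)` (the variable `y` is written `xL`). -/
noncomputable def fy (m : ℤ) (M : ℕ) : LaurentSeries ℂ := xL ^ m * ((xL - 1)⁻¹) ^ M

/-- The space of test functions, with basis `(m, M)` (standing for `y ^ m (y - 1) ^ (-M)`). -/
abbrev TF : Type := (ℤ × ℕ) →₀ ℂ

/-- Expansion of test functions at `x = y - 1 = 0`. -/
noncomputable def exT : TF →ₗ[ℂ] LaurentSeries ℂ :=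
  Finsupp.linearCombination ℂ (fun p : ℤ × ℕ => ft p.1 p.2)

/-- Expansion of test functions at `y = 0`. -/
noncomputable def eyT : TF →ₗ[ℂ] LaurentSeries ℂ :=
  Finsupp.linearCombination ℂ (fun p : ℤ × ℕ => fy p.1 p.2)

/-- Test functions of degree at most `d` at infinity. -/
def DgT (d : ℤ) : Submodule ℂ TF := Finsupp.supported ℂ ℂ {p : ℤ × ℕ | p.1 - p.2 ≤ d}

/-- Product of test functions. -/
noncomputable def mulT : TF →ₗ[ℂ] TF →ₗ[ℂ] TF :=
  Finsupp.linearCombination ℂ (fun p : ℤ × ℕ => Finsupp.lmapDomain ℂ ℂ (fun q : ℤ × ℕ => p + q))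

/-- The Hasse derivatives of test functions. -/
noncomputable def hdT (i : ℕ) : TF →ₗ[ℂ] TF :=
  Finsupp.linearCombination ℂ (fun p : ℤ × ℕ => ∑ j ∈ range (i + 1),
    (((Ring.choose p.1 j : ℤ) : ℂ) * ((Ring.choose (-(p.2 : ℤ)) (i - j) : ℤ) : ℂ)) •
      (Finsupp.single (p.1 - (j : ℤ), p.2 + (i - j)) (1 : ℂ) : TF))

/-- The span of all `u_{-r} v`. -/
def CC (A : VOA V) (r : ℕ) : Submodule ℂ V :=
  Submodule.span ℂ {x : V | ∃ u v : V, x = A.Y u (-(r : ℤ)) v}

/-- Vectors of degree zero on which all zero modes act as on the vacuum. -/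
def IsVac {A : VOA V} {M : Type u} [AddCommGroup M] [Module ℂ M] (X : AdmissibleModule A M)
    (x : M) : Prop :=
  x ∈ X.gr 0 ∧ x ≠ 0 ∧ ∀ v, zm X v x = al0 A v • x

/-- The span of all single modes applied to a subspace. -/
def gsub {A : VOA V} {M : Type u} [AddCommGroup M] [Module ℂ M] (X : AdmissibleModule A M)
    (U : Submodule ℂ M) : Submodule ℂ M :=
  Submodule.span ℂ {x | ∃ (v : V) (n : ℤ) (y : M), y ∈ U ∧ x = X.Y v n y}

end Pool.Agent.DERVR
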