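import Pool.Agent.DERVR.RC

/-!
# Project DERV, part I: RE : associativity for negative l
-/

set_option autoImplicit false

universe u w

open Finset

namespace Pool.Agent.DERVR

open Pool.Agent.VOAut Pool.Agent.DERV

variable {V : Type u} [AddCommGroup V] [Module ℂ V]

section RE

variable (A : VOA V)

theorem re_ac_zero (r a m : ℤ) : ac A r a m 0 = 0 := by
  apply LinearMap.ext
  intro β
  apply LinearMap.ext
  intro u
  rw [ac_apply, LinearMap.zero_apply, LinearMap.zero_apply]
  apply Finset.sum_eq_zero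
  intro i _
  rw [rs_zero_u, map_zero, mul_zero]

theorem re_test (r a : ℤ) (v : V) (hv : v ∈ A.gr a) (β : Module.Dual ℂ V) (hβ : β ∈ GG A r)
    (F : TF) (hF : F ∈ DgT (a - 2)) (p : ℤ) (c : ℂ)
    (h : ∀ s < a + r, (eyT F).coeff s = if s = p then c else 0) (u : V) :
    -β (rs A (exT F) v u) = c * ac A r a p v β u := by
  rw [← ac_test A r a v hv β hβ F hF u, finsum_eq_single _ p]
  · rcases lt_or_ge p (a + r) with hp | hp
    · rw [h p hp, if_pos rfl]
    · rw [ac_zero A r a p v hp, LinearMap.zero_apply, LinearMap.zero_apply, mul_zero, mul_zero]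
  · intro s hs
    rcases lt_or_ge s (a + r) with hp | hp
    · rw [h s hp, if_neg hs, zero_mul]
    · rw [ac_zero A r a s v hp, LinearMap.zero_apply, LinearMap.zero_apply, mul_zero]

theorem re_choose (K i : ℕ) : (-1 : ℂ) ^ i * ((Ring.choose (-(K : ℤ)) i : ℤ) : ℂ) =
    (((K + i - 1).choose i : ℕ) : ℂ) := by
  rcases Nat.eq_zero_or_pos (K + i) with h0 | h0
  · have h1 : K = 0 := by omega
    have h2 : i = 0 := by omega
    subst h1 h2
    simp
  · have e : (K : ℤ) + i - 1 = ((K + i - 1 : ℕ) : ℤ) := by omega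
    rw [Ring.choose_neg, e, Ring.choose_natCast]
    rw [Units.smul_def, smul_eq_mul, Int.coe_negOnePow_natCast]
    push_cast
    rw [← mul_assoc, ← mul_pow]
    simp

/-- The coefficients of the product test function. -/
theorem re_prod (f g : LaurentSeries ℂ) (m n k1 k2 : ℤ) (i : ℕ) (N : ℤ)
    (hf : ∀ s < k1, f.coeff s = if s = m then 1 else 0)
    (hg : ∀ s < k2, g.coeff s = if s = n then 1 else 0) (h1 : N ≤ m - i + k2) (h2 : N ≤ k1 - i + n)
    (h3 : N ≤ k1 - i + k2) (s : ℤ) (hs : s < N) :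
    (LaurentSeries.hasseDeriv ℂ i f * g).coeff s =
      if s = m + n - i then ((Ring.choose m i : ℤ) : ℂ) else 0 := by
  have hf' : OG k1 (f - HahnSeries.single m 1) := by
    intro j hj
    rw [HahnSeries.coeff_sub, hf j hj, HahnSeries.coeff_single]
    split_ifs <;> simp
  have hg' : OG k2 (g - HahnSeries.single n 1) := by
    intro j hj
    rw [HahnSeries.coeff_sub, hg j hj, HahnSeries.coeff_single]
    split_ifs <;> simp
  have ef : LaurentSeries.hasseDeriv ℂ i f = HahnSeries.single (m - i) ((Ring.choose m i : ℤ) : ℂ) +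
      LaurentSeries.hasseDeriv ℂ i (f - HahnSeries.single m 1) := by
    rw [map_sub, LaurentSeries.hasseDeriv_single, zsmul_eq_mul, mul_one, add_sub_cancel]
  have eg : g = HahnSeries.single n 1 + (g - HahnSeries.single n 1) := by rw [add_sub_cancel]
  rw [ef, eg, add_mul, mul_add, mul_add, HahnSeries.single_mul_single, HahnSeries.coeff_add,
    HahnSeries.coeff_add, HahnSeries.coeff_add]
  have z1 := (OG_single (m - i) ((Ring.choose m i : ℤ) : ℂ)).mul hg' s (by omega)
  have z2 := (crs_OG_hasse i hf').mul (OG_single n (1 : ℂ)) s (by omega)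
  have z3 := (crs_OG_hasse i hf').mul hg' s (by omega)
  rw [z1, z2, z3, HahnSeries.coeff_single, mul_one, add_zero, add_zero, add_zero]
  congr 1
  rw [eq_iff_iff]
  constructor <;> intro h <;> omega

theorem ac_assoc (r a b m n : ℤ) (K : ℕ) (v w : V) (hv : v ∈ A.gr a) (hw : w ∈ A.gr b)
    (β : Module.Dual ℂ V) (hβ : β ∈ GG A r) (hm : a + r ≤ m) :
    ∑ᶠ i : ℕ, ((Ring.choose m i : ℤ) : ℂ) •
        ac A r (a + b + K - i - 1) (m + n - i) (A.Y v (-(K : ℤ) + i) w) β =
      ∑ᶠ i : ℕ, ((-1 : ℂ) ^ i * ((Ring.choose (-(K : ℤ)) i : ℤ) : ℂ)) •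
        ac A (r + b - n - i - 1) a (m - K - i) v (ac A r b (n + i) w β) := by
  obtain ⟨k1, hk1⟩ : ∃ k1 : ℤ, a + r ≤ k1 ∧ m + 1 ≤ k1 ∧ a + b + K - 1 + r - n ≤ k1 :=
    ⟨max (max (a + r) (m + 1)) (a + b + K - 1 + r - n), by omega, by omega, by omega⟩
  obtain ⟨k2, hk2⟩ : ∃ k2 : ℤ, b + r ≤ k2 ∧ n + 1 ≤ k2 ∧ a + b + K - 1 + r - m ≤ k2 :=
    ⟨max (max (b + r) (n + 1)) (a + b + K - 1 + r - m), by omega, by omega, by omega⟩
  obtain ⟨F, hF, hFc⟩ := exists_test m k1 (a - 2)
  obtain ⟨G, hG, hGc⟩ := exists_test n k2 (b - 2)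
  have mono : ∀ (d e : ℤ) (H : TF), d ≤ e → H ∈ DgT d → H ∈ DgT e := fun d e H hde hH =>
    Finsupp.supported_mono (fun p hp => le_trans hp hde) hH
  obtain ⟨N, hN⟩ := A.trunc v w
  have hYz : ∀ i : ℕ, (N + K).toNat ≤ i → A.Y v (-(K : ℤ) + i) w = 0 := fun i hi => hN _ (by omega)
  apply LinearMap.ext
  intro u
  have key := two_pt A r a b n K v w hv hw β hβ F G (mono _ _ F (by omega) hF)
    (fun s hs => by rw [hFc s (by omega), if_neg (by omega)]) hG
    (fun s hs => hGc s (by omega)) u
  -- the left side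
  have hL : β (∑ᶠ i : ℕ, rs A (LaurentSeries.hasseDeriv ℂ i (exT F) * exT G)
        (A.Y v (-(K : ℤ) + i) w) u) = -(∑ᶠ i : ℕ, ((Ring.choose m i : ℤ) : ℂ) •
        ac A r (a + b + K - i - 1) (m + n - i) (A.Y v (-(K : ℤ) + i) w) β) u := by
    rw [finsum_eq_sum_of_support_subset (s := range (N + K).toNat), finsum_eq_sum_of_support_subset
      (s := range (N + K).toNat), map_sum, LinearMap.sum_apply, ← Finset.sum_neg_distrib]
    · apply Finset.sum_congr rfl
      intro i _
      have hmem : A.Y v (-(K : ℤ) + i) w ∈ A.gr (a + b + K - i - 1) := by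
        have := A.graded a (-(K : ℤ) + i) b v w hv hw
        have e : a + b + K - i - 1 = b + a - (-(K : ℤ) + i) - 1 := by ring
        rw [e]
        exact this
      have h1 := re_test A r (a + b + K - i - 1) (A.Y v (-(K : ℤ) + i) w) hmem β hβ
        (mulT (hdT i F) G) (mono _ _ _ (by omega) (mul_Dg _ _ _ _ (hd_Dg i _ _ hF) hG)) (m + n - i)
        ((Ring.choose m i : ℤ) : ℂ) (fun s hs => by
          rw [ey_mul, ey_hd]
          exact re_prod (eyT F) (eyT G) m n k1 k2 i (a + b + K - i - 1 + r) hFc hGc (by omega)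
            (by omega) (by omega) s hs) u
      rw [ex_mul, ex_hd] at h1
      rw [LinearMap.smul_apply, smul_eq_mul, ← h1, neg_neg]
    · intro i hi
      rw [Function.mem_support] at hi
      rw [Finset.coe_range, Set.mem_Iio]
      by_contra h
      apply hi
      rw [hYz i (not_lt.1 h), re_ac_zero, LinearMap.zero_apply, smul_zero]
    · intro i hi
      rw [Function.mem_support] at hi
      rw [Finset.coe_range, Set.mem_Iio]
      by_contra h
      apply hi
      rw [hYz i (not_lt.1 h), rs_zero_u]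
  have hR : ∑ k ∈ range (b + r - n).toNat, (((K + k - 1).choose k : ℕ) : ℂ) *
        ac A r b (n + k) w β (rs A ((1 + xL) ^ (-(K : ℤ) - k) * exT F) v u) =
      -(∑ᶠ i : ℕ, ((-1 : ℂ) ^ i * ((Ring.choose (-(K : ℤ)) i : ℤ) : ℂ)) •
        ac A (r + b - n - i - 1) a (m - K - i) v (ac A r b (n + i) w β)) u := by
    rw [finsum_eq_sum_of_support_subset (s := range (b + r - n).toNat), LinearMap.sum_apply,
      ← Finset.sum_neg_distrib]
    · apply Finset.sum_congr rfl
      intro k _
      have hγ : ac A r b (n + k) w β ∈ GG A (r + b - n - k - 1) := by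
        have := ac_level A r b (n + k) w hw β hβ
        have e : r + b - n - k - 1 = r + b - (n + k) - 1 := by ring
        rw [e]
        exact this
      have hD : (Finsupp.single (-(K : ℤ) - k, 0) (1 : ℂ) : TF) ∈ DgT (-(K : ℤ) - k) := by
        apply Finsupp.single_mem_supported
        show (-(K : ℤ) - k) - ((0 : ℕ) : ℤ) ≤ -(K : ℤ) - k
        simp
      have hex : exT (Finsupp.single (-(K : ℤ) - k, 0) (1 : ℂ) : TF) = (1 + xL) ^ (-(K : ℤ) - k) := by
        unfold exT
        rw [Finsupp.linearCombination_single, one_smul]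
        show (1 + xL) ^ (-(K : ℤ) - k) * (xL⁻¹) ^ 0 = _
        rw [pow_zero, mul_one]
      have hey : eyT (Finsupp.single (-(K : ℤ) - k, 0) (1 : ℂ) : TF) = xL ^ (-(K : ℤ) - k) := by
        unfold eyT
        rw [Finsupp.linearCombination_single, one_smul]
        show xL ^ (-(K : ℤ) - k) * ((xL - 1)⁻¹) ^ 0 = _
        rw [pow_zero, mul_one]
      have h1 := re_test A (r + b - n - k - 1) a v hv (ac A r b (n + k) w β) hγ
        (mulT (Finsupp.single (-(K : ℤ) - k, 0) (1 : ℂ) : TF) F)
        (mono _ _ _ (by omega) (mul_Dg _ _ _ _ hD hF)) (m - K - k) 1 (fun s hs => by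
          rw [ey_mul, hey, xmul_coeff, hFc _ (by omega)]
          congr 1
          rw [eq_iff_iff]
          constructor <;> intro h <;> omega) u
      rw [ex_mul, hex, one_mul] at h1
      rw [LinearMap.smul_apply, smul_eq_mul, re_choose, ← h1]
      ring
    · intro i hi
      rw [Function.mem_support] at hi
      rw [Finset.coe_range, Set.mem_Iio]
      by_contra h
      apply hi
      rw [ac_zero A r b (n + i) w (by omega), LinearMap.zero_apply, map_zero, smul_zero]
  rw [hL, hR] at key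
  exact neg_injective key

end RE

end Pool.Agent.DERVR
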