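import Pool.Agent.DERVR.RD
import Pool.Agent.DERVR.RE

/-!
# Project DERV, part I: RF : Borcherds identity
-/

set_option autoImplicit false

universe u w

open Finset

namespace Pool.Agent.DERVR

open Pool.Agent.VOAut Pool.Agent.DERV

section RFgen

variable {W : Type*} [AddCommGroup W] [Module ℂ W]

/-- Left side of the component identity. -/
noncomputable def rfL (P : ℤ → ℤ → W) (l m n : ℤ) : W :=
  ∑ᶠ i : ℕ, ((Ring.choose m i : ℤ) : ℂ) • P (l + i) (m + n - i)

/-- The terms of the right side. -/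
noncomputable def rfT (Q R : ℤ → ℤ → W) (l m n : ℤ) (i : ℕ) : W :=
  Q (m + l - i) (n + i) - (-1 : ℂ) ^ l • R (n + l - i) (m + i)

/-- Right side of the component identity. -/
noncomputable def rfR (Q R : ℤ → ℤ → W) (l m n : ℤ) : W :=
  ∑ᶠ i : ℕ, ((-1 : ℂ) ^ i * ((Ring.choose l i : ℤ) : ℂ)) • rfT Q R l m n i

theorem rf_fin (c : ℕ → ℂ) (D : ℕ → W) (K : ℕ) (hK : ∀ i : ℕ, K ≤ i → D i = 0) :
    ∑ᶠ i : ℕ, c i • D i = ∑ i ∈ range K, c i • D i := by
  apply finsum_eq_sum_of_support_subset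
  intro i hi
  rw [Function.mem_support] at hi
  rw [Finset.coe_range, Set.mem_Iio]
  by_contra h
  apply hi
  rw [hK i (not_lt.1 h), smul_zero]

theorem rf_pascal (m : ℤ) (D : ℕ → W) (K : ℕ) :
    ∑ i ∈ range (K + 1), (((Ring.choose (m + 1) i : ℤ) : ℂ)) • D i =
      ∑ i ∈ range (K + 1), (((Ring.choose m i : ℤ) : ℂ)) • D i +
        ∑ i ∈ range K, (((Ring.choose m i : ℤ) : ℂ)) • D (i + 1) := by
  rw [Finset.sum_range_succ', Finset.sum_range_succ' (fun i =>
    (((Ring.choose m i : ℤ) : ℂ)) • D i)]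
  have : ∀ i ∈ range K, (((Ring.choose (m + 1) (i + 1) : ℤ) : ℂ)) • D (i + 1) =
      (((Ring.choose m (i + 1) : ℤ) : ℂ)) • D (i + 1) + (((Ring.choose m i : ℤ) : ℂ)) • D (i + 1) := by
    intro i _
    rw [Ring.choose_succ_succ, ← add_smul]
    congr 1
    push_cast
    ring
  rw [Finset.sum_congr rfl this, Finset.sum_add_distrib]
  simp only [Ring.choose_zero_right]
  abel

theorem rf_pascal_neg (l : ℤ) (D : ℕ → W) (K : ℕ) :
    ∑ i ∈ range (K + 1), ((-1 : ℂ) ^ i * ((Ring.choose (l + 1) i : ℤ) : ℂ)) • D i =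
      ∑ i ∈ range (K + 1), ((-1 : ℂ) ^ i * ((Ring.choose l i : ℤ) : ℂ)) • D i -
        ∑ i ∈ range K, ((-1 : ℂ) ^ i * ((Ring.choose l i : ℤ) : ℂ)) • D (i + 1) := by
  have h := rf_pascal l (fun i => (-1 : ℂ) ^ i • D i) K
  simp only [smul_smul, pow_succ] at h
  simp only [mul_comm _ ((-1 : ℂ) ^ _ * -1)] at h
  simp only [mul_comm ((Ring.choose _ _ : ℤ) : ℂ)] at h
  rw [h, sub_eq_add_neg, ← Finset.sum_neg_distrib]
  congr 1
  apply Finset.sum_congr rfl
  intro i _
  rw [← neg_smul]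
  congr 1
  ring

theorem rfL_succ (P : ℤ → ℤ → W) (N : ℤ) (hP : ∀ j, N ≤ j → ∀ p, P j p = 0) (l m n : ℤ) :
    rfL P (l + 1) m n = rfL P l (m + 1) n - rfL P l m (n + 1) := by
  unfold rfL
  set K : ℕ := (N - l).toNat with hK
  have hK' : N ≤ l + K := by omega
  rw [rf_fin _ (fun i : ℕ => P (l + 1 + i) (m + n - i)) K (fun i hi => hP _ (by omega) _),
    rf_fin _ (fun i : ℕ => P (l + i) (m + 1 + n - i)) (K + 1) (fun i hi => hP _ (by omega) _),
    rf_fin _ (fun i : ℕ => P (l + i) (m + (n + 1) - i)) (K + 1) (fun i hi => hP _ (by omega) _),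
    rf_pascal]
  have e1 : ∀ i : ℕ, P (l + i) (m + 1 + n - i) = P (l + i) (m + (n + 1) - i) := fun i => by
    congr 1
    ring
  have e2 : ∀ i : ℕ, P (l + (i + 1 : ℕ)) (m + 1 + n - (i + 1 : ℕ)) = P (l + 1 + i) (m + n - i) :=
    fun i => by
      congr 1
      · push_cast
        ring
      · push_cast
        ring
  have s1 : ∑ i ∈ range (K + 1), ((Ring.choose m i : ℤ) : ℂ) • P (l + i) (m + 1 + n - i) =
      ∑ i ∈ range (K + 1), ((Ring.choose m i : ℤ) : ℂ) • P (l + i) (m + (n + 1) - i) :=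
    Finset.sum_congr rfl (fun i _ => by rw [e1 i])
  have s2 : ∑ i ∈ range K, ((Ring.choose m i : ℤ) : ℂ) •
      P (l + (i + 1 : ℕ)) (m + 1 + n - (i + 1 : ℕ)) =
      ∑ i ∈ range K, ((Ring.choose m i : ℤ) : ℂ) • P (l + 1 + i) (m + n - i) :=
    Finset.sum_congr rfl (fun i _ => by rw [e2 i])
  rw [s1, s2, add_sub_cancel_left]

theorem rfR_fin (Q R : ℤ → ℤ → W) (B A' : ℤ) (hQ : ∀ q, B ≤ q → ∀ p, Q p q = 0)
    (hR : ∀ q, A' ≤ q → ∀ p, R p q = 0) (l m n : ℤ) (K : ℕ) (h1 : B ≤ n + K) (h2 : A' ≤ m + K) :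
    rfR Q R l m n = ∑ i ∈ range K, ((-1 : ℂ) ^ i * ((Ring.choose l i : ℤ) : ℂ)) • rfT Q R l m n i := by
  unfold rfR
  apply rf_fin
  intro i hi
  unfold rfT
  rw [hQ _ (by omega), hR _ (by omega), smul_zero, sub_zero]

theorem rfR_succ (Q R : ℤ → ℤ → W) (B A' : ℤ) (hQ : ∀ q, B ≤ q → ∀ p, Q p q = 0)
    (hR : ∀ q, A' ≤ q → ∀ p, R p q = 0) (l m n : ℤ) :
    rfR Q R (l + 1) m n = rfR Q R l (m + 1) n - rfR Q R l m (n + 1) := by
  set K : ℕ := (B - n).toNat + (A' - m).toNat with hK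
  have h1 : B ≤ n + K := by omega
  have h2 : A' ≤ m + K := by omega
  rw [rfR_fin Q R B A' hQ hR (l + 1) m n (K + 1) (by push_cast; omega) (by push_cast; omega),
    rfR_fin Q R B A' hQ hR l (m + 1) n (K + 1) (by push_cast; omega) (by push_cast; omega),
    rfR_fin Q R B A' hQ hR l m (n + 1) (K + 1) (by push_cast; omega) (by push_cast; omega),
    rf_pascal_neg]
  have hs : ∀ l' : ℤ, (-1 : ℂ) ^ (l' + 1) = -(-1 : ℂ) ^ l' := fun l' => by
    rw [zpow_add₀ (by norm_num), zpow_one]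
    ring
  have e0 : ∑ i ∈ range K, ((-1 : ℂ) ^ i * ((Ring.choose l i : ℤ) : ℂ)) • rfT Q R (l + 1) m n (i + 1) =
      ∑ i ∈ range (K + 1), ((-1 : ℂ) ^ i * ((Ring.choose l i : ℤ) : ℂ)) •
        rfT Q R (l + 1) m n (i + 1) := by
    rw [Finset.sum_range_succ, left_eq_add]
    unfold rfT
    rw [hQ _ (by push_cast; omega), hR _ (by push_cast; omega), smul_zero, sub_zero, smul_zero]
  rw [e0, ← Finset.sum_sub_distrib, ← Finset.sum_sub_distrib]
  apply Finset.sum_congr rfl
  intro i _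
  rw [← smul_sub, ← smul_sub]
  congr 1
  unfold rfT
  rw [hs]
  have a1 : m + (l + 1) - (i : ℤ) = m + 1 + l - i := by ring
  have a2 : n + (l + 1) - (i : ℤ) = n + 1 + l - i := by ring
  have a3 : m + (l + 1) - ((i + 1 : ℕ) : ℤ) = m + l - i := by push_cast; ring
  have a4 : n + (l + 1) - ((i + 1 : ℕ) : ℤ) = n + l - i := by push_cast; ring
  have a5 : n + ((i + 1 : ℕ) : ℤ) = n + 1 + i := by push_cast; ring
  have a6 : m + ((i + 1 : ℕ) : ℤ) = m + 1 + i := by push_cast; ring
  rw [a1, a2, a3, a4, a5, a6, neg_smul, neg_smul]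
  abel

/-- The induction that gives the identity for all `l`. -/
theorem rf_gen (P Q R : ℤ → ℤ → W) (N B A' : ℤ) (hP : ∀ j, N ≤ j → ∀ p, P j p = 0)
    (hQ : ∀ q, B ≤ q → ∀ p, Q p q = 0) (hR : ∀ q, A' ≤ q → ∀ p, R p q = 0)
    (h0 : ∀ m n, rfL P 0 m n = rfR Q R 0 m n)
    (hneg : ∀ (K : ℕ) (m n : ℤ), A' ≤ m → rfL P (-(K : ℤ)) m n = rfR Q R (-(K : ℤ)) m n)
    (l m n : ℤ) : rfL P l m n = rfR Q R l m n := by
  have hpos : ∀ (k : ℕ) (m n : ℤ), rfL P (k : ℤ) m n = rfR Q R (k : ℤ) m n := by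
    intro k
    induction k with
    | zero => intro m n; simpa using h0 m n
    | succ k ih =>
      intro m n
      push_cast
      rw [rfL_succ P N hP, rfR_succ Q R B A' hQ hR, ih, ih]
  have hn : ∀ (k : ℕ) (m n : ℤ), rfL P (-(k : ℤ)) m n = rfR Q R (-(k : ℤ)) m n := by
    intro k
    induction k with
    | zero => intro m n; simpa using h0 m n
    | succ k ih =>
      have key : ∀ (j : ℕ) (m n : ℤ), A' ≤ m + j →
          rfL P (-((k + 1 : ℕ) : ℤ)) m n = rfR Q R (-((k + 1 : ℕ) : ℤ)) m n := by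
        intro j
        induction j with
        | zero => intro m n hm; exact hneg (k + 1) m n (by simpa using hm)
        | succ j ihj =>
          intro m n hm
          have e1 := rfL_succ P N hP (-((k + 1 : ℕ) : ℤ)) m (n - 1)
          have e2 := rfR_succ Q R B A' hQ hR (-((k + 1 : ℕ) : ℤ)) m (n - 1)
          have e3 : -((k + 1 : ℕ) : ℤ) + 1 = -(k : ℤ) := by push_cast; ring
          rw [e3, sub_add_cancel] at e1 e2
          rw [ih, ihj (m + 1) (n - 1) (by push_cast at hm ⊢; omega)] at e1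
          rw [e1] at e2
          have := sub_right_injective e2
          exact this
      intro m n
      exact key (A' - m).toNat m n (by omega)
  rcases Int.eq_nat_or_neg l with ⟨k, hk | hk⟩
  · rw [hk]; exact hpos k m n
  · rw [hk]; exact hn k m n

end RFgen

variable {V : Type u} [AddCommGroup V] [Module ℂ V]

section RF

variable (A : VOA V)

theorem rf_ac_zero (r a m : ℤ) : ac A r a m 0 = 0 := by
  apply LinearMap.ext
  intro β
  apply LinearMap.ext
  intro u
  rw [ac_apply, LinearMap.zero_apply, LinearMap.zero_apply]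
  apply Finset.sum_eq_zero
  intro i _
  rw [rs_zero_u, map_zero, mul_zero]

theorem ac_borcherds (r a b l m n : ℤ) (v w : V) (hv : v ∈ A.gr a) (hw : w ∈ A.gr b)
    (β : Module.Dual ℂ V) (hβ : β ∈ GG A r) :
    ∑ᶠ i : ℕ, ((Ring.choose m i : ℤ) : ℂ) •
        ac A r (a + b - l - i - 1) (m + n - i) (A.Y v (l + i) w) β =
      ∑ᶠ i : ℕ, ((-1 : ℂ) ^ i * ((Ring.choose l i : ℤ) : ℂ)) •
        (ac A (r + b - n - i - 1) a (m + l - i) v (ac A r b (n + i) w β) -
          (-1 : ℂ) ^ l • ac A (r + a - m - i - 1) b (n + l - i) w (ac A r a (m + i) v β)) := by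
  set P : ℤ → ℤ → Module.Dual ℂ V := fun j p => ac A r (a + b - j - 1) p (A.Y v j w) β with hPd
  set Q : ℤ → ℤ → Module.Dual ℂ V := fun p q => ac A (r + b - q - 1) a p v (ac A r b q w β) with hQd
  set R : ℤ → ℤ → Module.Dual ℂ V := fun p q => ac A (r + a - q - 1) b p w (ac A r a q v β) with hRd
  obtain ⟨N, hN⟩ := A.trunc v w
  have hP : ∀ j, N ≤ j → ∀ p, P j p = 0 := by
    intro j hj p
    show ac A r (a + b - j - 1) p (A.Y v j w) β = 0
    rw [hN j hj, rf_ac_zero, LinearMap.zero_apply]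
  have hQ : ∀ q, b + r ≤ q → ∀ p, Q p q = 0 := by
    intro q hq p
    show ac A (r + b - q - 1) a p v (ac A r b q w β) = 0
    rw [ac_zero A r b q w hq, LinearMap.zero_apply, map_zero]
  have hR : ∀ q, a + r ≤ q → ∀ p, R p q = 0 := by
    intro q hq p
    show ac A (r + a - q - 1) b p w (ac A r a q v β) = 0
    rw [ac_zero A r a q v hq, LinearMap.zero_apply, map_zero]
  have h0 : ∀ m n, rfL P 0 m n = rfR Q R 0 m n := by
    intro m n
    have h := ac_comm A r a b m n v w hv hw β hβ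
    have e1 : rfL P 0 m n = ∑ᶠ i : ℕ, ((Ring.choose m i : ℤ) : ℂ) •
        ac A r (a + b - i - 1) (m + n - i) (A.Y v i w) β := by
      unfold rfL
      apply finsum_congr
      intro i
      show _ • ac A r (a + b - (0 + i) - 1) (m + n - i) (A.Y v (0 + i) w) β = _
      rw [zero_add]
    have e2 : rfR Q R 0 m n = Q m n - R n m := by
      unfold rfR
      rw [finsum_eq_single _ 0]
      · unfold rfT
        simp
      · intro i hi
        rw [Ring.choose_zero_pos ℤ (Nat.pos_of_ne_zero hi), Int.cast_zero, mul_zero, zero_smul]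
    rw [e1, e2, ← h]
  have hneg : ∀ (K : ℕ) (m n : ℤ), a + r ≤ m → rfL P (-(K : ℤ)) m n = rfR Q R (-(K : ℤ)) m n := by
    intro K m n hm
    have h := ac_assoc A r a b m n K v w hv hw β hβ hm
    have e1 : rfL P (-(K : ℤ)) m n = ∑ᶠ i : ℕ, ((Ring.choose m i : ℤ) : ℂ) •
        ac A r (a + b + K - i - 1) (m + n - i) (A.Y v (-(K : ℤ) + i) w) β := by
      unfold rfL
      apply finsum_congr
      intro i
      show _ • ac A r (a + b - (-(K : ℤ) + i) - 1) (m + n - i) (A.Y v (-(K : ℤ) + i) w) β = _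
      have : a + b - (-(K : ℤ) + i) - 1 = a + b + K - i - 1 := by ring
      rw [this]
    have e2 : rfR Q R (-(K : ℤ)) m n = ∑ᶠ i : ℕ, ((-1 : ℂ) ^ i * ((Ring.choose (-(K : ℤ)) i : ℤ) : ℂ)) •
        ac A (r + b - n - i - 1) a (m - K - i) v (ac A r b (n + i) w β) := by
      unfold rfR
      apply finsum_congr
      intro i
      congr 1
      unfold rfT
      rw [hR _ (by omega), smul_zero, sub_zero]
      show ac A (r + b - (n + i) - 1) a (m + -(K : ℤ) - i) v (ac A r b (n + i) w β) = _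
      have t1 : r + b - (n + i) - 1 = r + b - n - i - 1 := by ring
      have t2 : m + -(K : ℤ) - i = m - K - i := by ring
      rw [t1, t2]
    rw [e1, e2, h]
  have h := rf_gen P Q R N (b + r) (a + r) hP hQ hR h0 hneg l m n
  have e1 : rfL P l m n = ∑ᶠ i : ℕ, ((Ring.choose m i : ℤ) : ℂ) •
        ac A r (a + b - l - i - 1) (m + n - i) (A.Y v (l + i) w) β := by
    unfold rfL
    apply finsum_congr
    intro i
    show _ • ac A r (a + b - (l + i) - 1) (m + n - i) (A.Y v (l + i) w) β = _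
    have : a + b - (l + i) - 1 = a + b - l - i - 1 := by ring
    rw [this]
  have e2 : rfR Q R l m n = ∑ᶠ i : ℕ, ((-1 : ℂ) ^ i * ((Ring.choose l i : ℤ) : ℂ)) •
        (ac A (r + b - n - i - 1) a (m + l - i) v (ac A r b (n + i) w β) -
          (-1 : ℂ) ^ l • ac A (r + a - m - i - 1) b (n + l - i) w (ac A r a (m + i) v β)) := by
    unfold rfR
    apply finsum_congr
    intro i
    congr 1
    show ac A (r + b - (n + i) - 1) a (m + l - i) v (ac A r b (n + i) w β) -
      (-1 : ℂ) ^ l • ac A (r + a - (m + i) - 1) b (n + l - i) w (ac A r a (m + i) v β) = _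
    have t1 : r + b - (n + i) - 1 = r + b - n - i - 1 := by ring
    have t2 : r + a - (m + i) - 1 = r + a - m - i - 1 := by ring
    rw [t1, t2]
  rw [← e1, ← e2, h]

/-- Finite differences of binomial coefficients. -/
theorem rf_diff (r : ℕ) (x : ℤ) :
    ∑ i ∈ range (r + 2), (-1 : ℤ) ^ i * ((r + 1).choose i : ℤ) * Ring.choose (x + i) r = 0 := by
  have step : ∀ (k s : ℕ) (x : ℤ), ∑ i ∈ range (k + 2), (-1 : ℤ) ^ i * ((k + 1).choose i : ℤ) *
      Ring.choose (x + i) s = ∑ i ∈ range (k + 1), (-1 : ℤ) ^ i * (k.choose i : ℤ) *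
        (Ring.choose (x + i) s - Ring.choose (x + i + 1) s) := by
    intro k s x
    rw [Finset.sum_range_succ']
    have e : ∀ i ∈ range (k + 1), (-1 : ℤ) ^ (i + 1) * ((k + 1).choose (i + 1) : ℤ) *
        Ring.choose (x + ((i + 1 : ℕ) : ℤ)) s = -((-1 : ℤ) ^ i * (k.choose i : ℤ) *
          Ring.choose (x + i + 1) s) + (-1 : ℤ) ^ (i + 1) * (k.choose (i + 1) : ℤ) *
            Ring.choose (x + ((i + 1 : ℕ) : ℤ)) s := by
      intro i _
      rw [Nat.choose_succ_succ]
      have : x + ((i + 1 : ℕ) : ℤ) = x + i + 1 := by push_cast; ring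
      rw [this]
      push_cast
      ring
    rw [Finset.sum_congr rfl e, Finset.sum_add_distrib, Finset.sum_neg_distrib]
    have e2 : ∑ i ∈ range (k + 1), (-1 : ℤ) ^ (i + 1) * (k.choose (i + 1) : ℤ) *
        Ring.choose (x + ((i + 1 : ℕ) : ℤ)) s + (-1 : ℤ) ^ 0 * ((k + 1).choose 0 : ℤ) *
          Ring.choose (x + ((0 : ℕ) : ℤ)) s = ∑ i ∈ range (k + 1), (-1 : ℤ) ^ i * (k.choose i : ℤ) *
            Ring.choose (x + i) s := by
      rw [Finset.sum_range_succ, Nat.choose_succ_self, Finset.sum_range_succ' (fun i : ℕ =>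
        (-1 : ℤ) ^ i * (k.choose i : ℤ) * Ring.choose (x + i) s)]
      simp
    rw [add_assoc, e2]
    simp only [mul_sub, Finset.sum_sub_distrib]
    ring
  induction r generalizing x with
  | zero =>
    rw [step]
    simp
  | succ r ih =>
    rw [step]
    have h := ih x
    rw [← neg_eq_zero, ← Finset.sum_neg_distrib] at h
    rw [← h]
    apply Finset.sum_congr rfl
    intro i _
    rw [Ring.choose_succ_succ]
    ring

theorem rf_choose_neg_one (s : ℕ) : Ring.choose (-1 : ℤ) s = (-1) ^ s := by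
  induction s with
  | zero => simp
  | succ s ih =>
    have h := Ring.choose_succ_succ (-1 : ℤ) s
    rw [show (-1 : ℤ) + 1 = 0 by norm_num, Ring.choose_zero_succ, ih] at h
    rw [pow_succ]
    linarith

theorem ac_vac (r n : ℤ) (β : Module.Dual ℂ V) (hβ : β ∈ GG A r) :
    ac A r 0 n A.vac β = if n = -1 then β else 0 := by
  rcases lt_or_ge r 0 with hr | hr
  · rw [GG_neg A r hr] at hβ
    rw [(Submodule.mem_bot ℂ).1 hβ, map_zero]
    split_ifs <;> rfl
  obtain ⟨s, rfl⟩ := Int.eq_ofNat_of_zero_le hr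
  have hrs : ∀ (f : LaurentSeries ℂ) (u : V), rs A f A.vac u = f.coeff (-1) • u := by
    intro f u
    unfold rs
    rw [finsum_eq_single _ (-1)]
    · rw [A.vacuum, if_pos rfl]
    · intro i hi
      rw [A.vacuum, if_neg hi, smul_zero]
  have hcf : ∀ m : ℤ, (ft m (s + 1)).coeff (-1) = ((Ring.choose m s : ℤ) : ℂ) := by
    intro m
    unfold ft
    rw [mul_comm, inv_pow, ← zpow_natCast, ← zpow_neg, xmul_coeff, pw_coeff, if_neg (by push_cast; omega)]
    congr 3
    push_cast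
    omega
  have hsum : ∀ u : V, ac A (s : ℤ) 0 n A.vac β u = (((-1 : ℤ) ^ s *
      ∑ i ∈ range ((s : ℤ) - n).toNat, (-1 : ℤ) ^ i * ((s + 1).choose i : ℤ) * Ring.choose (n + i) s : ℤ) : ℂ)
        * β u := by
    intro u
    rw [ac_apply, zero_add]
    push_cast
    rw [Finset.mul_sum, Finset.sum_mul]
    apply Finset.sum_congr rfl
    intro i _
    have e : ((s : ℤ) + 1).toNat = s + 1 := by omega
    rw [e, hrs, hcf, map_smul, smul_eq_mul, zpow_natCast]
    ring
  have hval : ((-1 : ℤ) ^ s * ∑ i ∈ range ((s : ℤ) - n).toNat, (-1 : ℤ) ^ i * ((s + 1).choose i : ℤ) *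
      Ring.choose (n + i) s : ℤ) = if n = -1 then 1 else 0 := by
    have hz : ∀ t : ℤ, 0 ≤ t → t < s → Ring.choose t s = 0 := by
      intro t h1 h2
      obtain ⟨k, rfl⟩ := Int.eq_ofNat_of_zero_le h1
      rw [Ring.choose_natCast, Nat.choose_eq_zero_of_lt (by omega), Nat.cast_zero]
    by_cases hn : n = -1
    · rw [if_pos hn]
      subst hn
      have e : ((s : ℤ) - -1).toNat = s + 1 := by omega
      rw [e, Finset.sum_range_succ', Finset.sum_eq_zero]
      · rw [zero_add, Nat.choose_zero_right, pow_zero, Nat.cast_zero, add_zero, Nat.cast_one, one_mul,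
          one_mul]
        have : Ring.choose (-1 : ℤ) s = (-1) ^ s := rf_choose_neg_one s
        rw [this, ← mul_pow]
        simp
      · intro i hi
        rw [Finset.mem_range] at hi
        rw [hz _ (by push_cast; omega) (by push_cast; omega), mul_zero]
    · rw [if_neg hn]
      rcases lt_or_ge n 0 with h1 | h1
      · have hsub : range (s + 2) ⊆ range ((s : ℤ) - n).toNat := by
          rw [Finset.range_subset_range]
          omega
        rw [← Finset.sum_subset hsub, rf_diff, mul_zero]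
        intro i _ hi
        rw [Finset.mem_range, not_lt] at hi
        rw [Nat.choose_eq_zero_of_lt (by omega), Nat.cast_zero, mul_zero, zero_mul]
      · rw [Finset.sum_eq_zero, mul_zero]
        intro i hi
        rw [Finset.mem_range] at hi
        rw [hz _ (by omega) (by omega), mul_zero]
  apply LinearMap.ext
  intro u
  rw [hsum, hval]
  split_ifs
  · simp
  · simp

end RF

end Pool.Agent.DERVR
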