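import Pool.Agent.DERVR.RF

/-!
# Project DERV, part I: RG : the regular representation
-/

set_option autoImplicit false

universe u w

open Finset

namespace Pool.Agent.DERVR

open Pool.Agent.VOAut Pool.Agent.DERV

variable {V : Type u} [AddCommGroup V] [Module ℂ V]

section RG

variable (A : VOA V)

/-- the action of the modes of vectors of weight `a` on functionals, linear in the vector -/
noncomputable def rg_acL (r a m : ℤ) : V →ₗ[ℂ] Module.Dual ℂ V →ₗ[ℂ] Module.Dual ℂ V where
  toFun v := ac A r a m v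
  map_add' v w := by
    apply LinearMap.ext; intro β
    apply LinearMap.ext; intro u
    simp only [LinearMap.add_apply, ac_apply, rs_add_u, map_add, mul_add, sum_add_distrib]
  map_smul' c v := by
    apply LinearMap.ext; intro β
    apply LinearMap.ext; intro u
    simp only [LinearMap.smul_apply, ac_apply, rs_smul_u, map_smul, smul_eq_mul, mul_sum,
      RingHom.id_apply]
    exact sum_congr rfl fun i _ => by ring

theorem rg_ac_zero_vec (r a m : ℤ) : ac A r a m 0 = 0 := (rg_acL A r a m).map_zero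

/-- the modes of vectors of weight `a` on families of functionals -/
noncomputable def rg_op (a m : ℤ) :
    V →ₗ[ℂ] (ℤ →₀ Module.Dual ℂ V) →ₗ[ℂ] (ℤ →₀ Module.Dual ℂ V) where
  toFun v := Finsupp.lsum ℂ fun r => Finsupp.lsingle (r + a - m - 1) ∘ₗ rg_acL A r a m v
  map_add' v w := by
    apply Finsupp.lhom_ext
    intro r β
    simp only [Finsupp.lsum_single, LinearMap.comp_apply, map_add, LinearMap.add_apply]
  map_smul' c v := by
    apply Finsupp.lhom_ext
    intro r β
    simp only [Finsupp.lsum_single, LinearMap.comp_apply, map_smul, LinearMap.smul_apply,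
      RingHom.id_apply]

theorem rg_op_single (a m r : ℤ) (v : V) (β : Module.Dual ℂ V) :
    rg_op A a m v (Finsupp.single r β) = Finsupp.single (r + a - m - 1) (ac A r a m v β) := by
  show (Finsupp.lsum ℂ fun r => Finsupp.lsingle (r + a - m - 1) ∘ₗ rg_acL A r a m v)
    (Finsupp.single r β) = _
  rw [Finsupp.lsum_single]
  rfl

/-- the modes on families of functionals -/
noncomputable def rg_L (m : ℤ) :
    V →ₗ[ℂ] (ℤ →₀ Module.Dual ℂ V) →ₗ[ℂ] (ℤ →₀ Module.Dual ℂ V) :=
  (DirectSum.toModule ℂ ℤ _ (fun a => (rg_op A a m).comp (A.gr a).subtype)) ∘ₗ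
    (LinearEquiv.ofBijective (DirectSum.coeLinearMap A.gr) A.internal).symm.toLinearMap

theorem rg_L_of_mem (a m : ℤ) (v : V) (hv : v ∈ A.gr a) : rg_L A m v = rg_op A a m v := by
  have h1 : (LinearEquiv.ofBijective (DirectSum.coeLinearMap A.gr) A.internal).symm v =
      DirectSum.lof ℂ ℤ (fun i => A.gr i) a ⟨v, hv⟩ := by
    rw [LinearEquiv.symm_apply_eq]
    exact (DirectSum.coeLinearMap_lof A.gr a ⟨v, hv⟩).symm
  unfold rg_L
  rw [LinearMap.comp_apply, LinearEquiv.coe_coe, h1, DirectSum.toModule_lof]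
  rfl

theorem rg_single_mem (s : ℤ) (γ : Module.Dual ℂ V) (hγ : γ ∈ GG A s) :
    Finsupp.single s γ ∈ MM A := by
  intro t
  rw [Finsupp.single_apply]
  split_ifs with h
  · rw [← h]; exact hγ
  · exact (GG A t).zero_mem

theorem rg_pres (m : ℤ) (v : V) : ∀ F ∈ MM A, rg_L A m v F ∈ MM A := by
  refine hom_ind A v (P := fun v => ∀ F ∈ MM A, rg_L A m v F ∈ MM A) ?_ ?_ ?_
  · intro F _
    rw [map_zero, LinearMap.zero_apply]
    exact (MM A).zero_mem
  · intro x y hx hy F hF
    rw [map_add, LinearMap.add_apply]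
    exact (MM A).add_mem (hx F hF) (hy F hF)
  · intro a x hx F hF
    have h1 : rg_op A a m x F =
        ∑ r ∈ F.support, rg_op A a m x (Finsupp.single r (F r)) := by
      conv_lhs => rw [← Finsupp.sum_single F]
      unfold Finsupp.sum
      rw [map_sum]
    rw [rg_L_of_mem A a m x hx, h1]
    refine Submodule.sum_mem _ fun r _ => ?_
    rw [rg_op_single]
    exact rg_single_mem A _ _ (ac_level A r a m x hx _ (hF r))

theorem rg_ex (m : ℤ) (v : V) (y : RM A) : ∃ z : RM A, rv A z = rg_L A m v (rv A y) :=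
  rv_surj A _ (rg_pres A m v (rv A y) (rv_mem A y))

/-- the modes on the regular representation, as functions -/
noncomputable def rg_f (m : ℤ) (v : V) (y : RM A) : RM A := (rg_ex A m v y).choose

theorem rg_f_spec (m : ℤ) (v : V) (y : RM A) : rv A (rg_f A m v y) = rg_L A m v (rv A y) :=
  (rg_ex A m v y).choose_spec

/-- the modes on the regular representation -/
noncomputable def rg_Y (m : ℤ) : V →ₗ[ℂ] Module.End ℂ (RM A) where
  toFun v :=
    { toFun := fun y => rg_f A m v y
      map_add' := fun x y => by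
        apply rv_inj A
        rw [map_add, rg_f_spec, rg_f_spec, rg_f_spec, map_add, map_add]
      map_smul' := fun c x => by
        apply rv_inj A
        rw [map_smul, rg_f_spec, rg_f_spec, map_smul, map_smul, RingHom.id_apply] }
  map_add' v w := by
    apply LinearMap.ext; intro y
    apply rv_inj A
    show rv A (rg_f A m (v + w) y) = rv A (rg_f A m v y + rg_f A m w y)
    rw [map_add, rg_f_spec, rg_f_spec, rg_f_spec, map_add, LinearMap.add_apply]
  map_smul' c v := by
    apply LinearMap.ext; intro y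
    apply rv_inj A
    show rv A (rg_f A m (c • v) y) = rv A (c • rg_f A m v y)
    rw [map_smul, rg_f_spec, rg_f_spec, map_smul, LinearMap.smul_apply]

theorem rg_Y_spec (m : ℤ) (v : V) (y : RM A) : rv A (rg_Y A m v y) = rg_L A m v (rv A y) :=
  rg_f_spec A m v y

theorem rg_act (a r m s : ℤ) (v : V) (β : Module.Dual ℂ V) (y : RM A) (hv : v ∈ A.gr a)
    (hy : rv A y = Finsupp.single r β) (hs : r + a - m - 1 = s) :
    rv A (rg_Y A m v y) = Finsupp.single s (ac A r a m v β) := by
  rw [rg_Y_spec, hy, rg_L_of_mem A a m v hv, rg_op_single, hs]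

/-- the homogeneous pieces -/
noncomputable def rg_gr (n : ℤ) : Submodule ℂ (RM A) :=
  (LinearMap.range (Finsupp.lsingle n : Module.Dual ℂ V →ₗ[ℂ] (ℤ →₀ Module.Dual ℂ V))).comap
    (rv A)

theorem rg_mem_gr (n : ℤ) (y : RM A) :
    y ∈ rg_gr A n ↔ rv A y = Finsupp.single n (rv A y n) := by
  unfold rg_gr
  rw [Submodule.mem_comap, LinearMap.mem_range]
  constructor
  · rintro ⟨β, hβ⟩
    rw [← hβ, Finsupp.lsingle_apply, Finsupp.single_eq_same]
  · intro h
    exact ⟨rv A y n, h.symm⟩

theorem rg_mem_gr' (n : ℤ) (y : RM A) (β : Module.Dual ℂ V) (h : rv A y = Finsupp.single n β) :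
    y ∈ rg_gr A n := by
  rw [rg_mem_gr, h, Finsupp.single_eq_same]

theorem rg_iSup : ⨆ n, rg_gr A n = ⊤ := by
  rw [eq_top_iff]
  intro y _
  have h1 : ∀ r : ℤ, ∃ z : RM A, rv A z = Finsupp.single r (rv A y r) := fun r =>
    rv_surj A _ (rg_single_mem A r _ (rv_mem A y r))
  choose z hz using h1
  have h2 : y = ∑ r ∈ (rv A y).support, z r := by
    apply rv_inj A
    rw [map_sum, sum_congr rfl fun r _ => hz r]
    exact (Finsupp.sum_single (rv A y)).symm
  rw [h2]
  refine Submodule.sum_mem _ fun r _ => ?_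
  exact Submodule.mem_iSup_of_mem r (rg_mem_gr' A r _ _ (hz r))

theorem rg_internal : DirectSum.IsInternal (rg_gr A) := by
  apply DirectSum.isInternal_submodule_of_iSupIndep_of_iSup_eq_top
  · rw [iSupIndep_def]
    intro i
    rw [Submodule.disjoint_def]
    intro y hy hy2
    have h1 : ⨆ j, ⨆ (_ : j ≠ i), rg_gr A j ≤
        LinearMap.ker ((Finsupp.lapply i : (ℤ →₀ Module.Dual ℂ V) →ₗ[ℂ] Module.Dual ℂ V) ∘ₗ
          rv A) := by
      refine iSup_le fun j => iSup_le fun hj => ?_
      intro z hz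
      rw [LinearMap.mem_ker, LinearMap.comp_apply, Finsupp.lapply_apply,
        (rg_mem_gr A j z).1 hz, Finsupp.single_apply, if_neg hj]
    have h2 : rv A y i = 0 := h1 hy2
    apply rv_inj A
    rw [(rg_mem_gr A i y).1 hy, h2, Finsupp.single_zero, map_zero]
  · exact rg_iSup A

/-- induction over homogeneous elements of the regular representation -/
theorem rg_ind {P : RM A → Prop} (y : RM A) (h0 : P 0) (hadd : ∀ x y, P x → P y → P (x + y))
    (hh : ∀ r : ℤ, ∀ x ∈ rg_gr A r, P x) : P y := by
  have hv : y ∈ ⨆ n, rg_gr A n := by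
    rw [rg_iSup]
    exact Submodule.mem_top
  exact Submodule.iSup_induction (fun n => rg_gr A n) (motive := P) hv (fun n x hx => hh n x hx)
    h0 hadd

theorem rg_trunc (u : V) (x : RM A) : ∃ N : ℤ, ∀ n : ℤ, N ≤ n → rg_Y A n u x = 0 := by
  refine hom_ind A u (P := fun u => ∃ N : ℤ, ∀ n : ℤ, N ≤ n → rg_Y A n u x = 0) ?_ ?_ ?_
  · exact ⟨0, fun n _ => by rw [map_zero, LinearMap.zero_apply]⟩
  · rintro u u' ⟨N, hN⟩ ⟨N', hN'⟩
    refine ⟨max N N', fun n hn => ?_⟩
    rw [map_add, LinearMap.add_apply, hN n (le_trans (le_max_left _ _) hn),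
      hN' n (le_trans (le_max_right _ _) hn), add_zero]
  · intro a u hu
    refine rg_ind A x (P := fun x => ∃ N : ℤ, ∀ n : ℤ, N ≤ n → rg_Y A n u x = 0) ?_ ?_ ?_
    · exact ⟨0, fun n _ => map_zero _⟩
    · rintro y y' ⟨N, hN⟩ ⟨N', hN'⟩
      refine ⟨max N N', fun n hn => ?_⟩
      rw [map_add, hN n (le_trans (le_max_left _ _) hn),
        hN' n (le_trans (le_max_right _ _) hn), add_zero]
    · intro r y hy
      refine ⟨a + r, fun n hn => ?_⟩
      apply rv_inj A
      rw [rg_act A a r n _ u _ y hu ((rg_mem_gr A r y).1 hy) rfl, ac_zero A r a n u hn,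
        LinearMap.zero_apply, Finsupp.single_zero, map_zero]

theorem rg_vac_mem : A.vac ∈ A.gr 0 := by
  rw [A.mem_gr, A.creation A.om 1 (by norm_num)]
  simp

theorem rg_vacuum (n : ℤ) (x : RM A) : rg_Y A n A.vac x = if n = -1 then x else 0 := by
  refine rg_ind A x (P := fun x => rg_Y A n A.vac x = if n = -1 then x else 0) ?_ ?_ ?_
  · simp
  · intro y y' h h'
    rw [map_add, h, h']
    split_ifs <;> simp
  · intro r y hy
    have hy' := (rg_mem_gr A r y).1 hy
    apply rv_inj A
    rw [rg_act A 0 r n _ A.vac _ y (rg_vac_mem A) hy' rfl,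
      ac_vac A r n _ (rv_mem A y r)]
    split_ifs with h
    · subst h
      rw [show r + 0 - -1 - 1 = r by ring]
      exact hy'.symm
    · rw [Finsupp.single_zero, map_zero]

/-- left side of the Jacobi identity -/
noncomputable def rg_jl (l m n : ℤ) (u v : V) (x : RM A) (i : ℕ) : RM A :=
  ((Ring.choose m i : ℤ) : ℂ) • rg_Y A (m + n - i) (A.Y u (l + i) v) x

/-- right side of the Jacobi identity -/
noncomputable def rg_jr (l m n : ℤ) (u v : V) (x : RM A) (i : ℕ) : RM A :=
  ((-1 : ℂ) ^ i * ((Ring.choose l i : ℤ) : ℂ)) •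
    (rg_Y A (m + l - i) u (rg_Y A (n + i) v x) -
      (-1 : ℂ) ^ l • rg_Y A (n + l - i) v (rg_Y A (m + i) u x))

/-- the Jacobi identity for homogeneous elements, truncated -/
theorem rg_jac_hom (l m n a b r : ℤ) (u v : V) (x : RM A) (hu : u ∈ A.gr a) (hv : v ∈ A.gr b)
    (hx : x ∈ rg_gr A r) :
    ∀ᶠ K in Filter.atTop, ∑ i ∈ range K, rg_jl A l m n u v x i =
      ∑ i ∈ range K, rg_jr A l m n u v x i := by
  have hx' := (rg_mem_gr A r x).1 hx
  set β := rv A x r with hβ
  have hβm : β ∈ GG A r := rv_mem A x r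
  set La : ℕ → Module.Dual ℂ V := fun i => ((Ring.choose m i : ℤ) : ℂ) •
    ac A r (a + b - l - i - 1) (m + n - i) (A.Y u (l + i) v) β with hLa
  set Ra : ℕ → Module.Dual ℂ V := fun i => ((-1 : ℂ) ^ i * ((Ring.choose l i : ℤ) : ℂ)) •
    (ac A (r + b - n - i - 1) a (m + l - i) u (ac A r b (n + i) v β) -
      (-1 : ℂ) ^ l • ac A (r + a - m - i - 1) b (n + l - i) v (ac A r a (m + i) u β)) with hRa
  set D : ℤ := r + a + b - l - m - n - 2 with hD
  have hl : ∀ i, rv A (rg_jl A l m n u v x i) = Finsupp.single D (La i) := by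
    intro i
    have hmem : A.Y u (l + i) v ∈ A.gr (a + b - l - i - 1) := by
      have := A.graded a (l + i) b u v hu hv
      rwa [show b + a - (l + i) - 1 = a + b - l - i - 1 by ring] at this
    unfold rg_jl
    rw [map_smul, rg_act A _ r _ D _ β x hmem hx' (by rw [hD]; ring), Finsupp.smul_single]
  have hr : ∀ i, rv A (rg_jr A l m n u v x i) = Finsupp.single D (Ra i) := by
    intro i
    have h1 : rv A (rg_Y A (n + i) v x) = Finsupp.single (r + b - n - i - 1)
        (ac A r b (n + i) v β) := rg_act A b r _ _ v β x hv hx' (by ring)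
    have h2 : rv A (rg_Y A (m + i) u x) = Finsupp.single (r + a - m - i - 1)
        (ac A r a (m + i) u β) := rg_act A a r _ _ u β x hu hx' (by ring)
    unfold rg_jr
    rw [map_smul, map_sub, map_smul,
      rg_act A a _ _ D u _ _ hu h1 (by rw [hD]; ring),
      rg_act A b _ _ D v _ _ hv h2 (by rw [hD]; ring), Finsupp.smul_single,
      ← Finsupp.single_sub, Finsupp.smul_single]
  obtain ⟨N, hN⟩ := A.trunc_nat u v l
  have hLz : ∀ i, N ≤ i → La i = 0 := by
    intro i hi
    simp only [hLa]
    rw [hN i hi, rg_ac_zero_vec, LinearMap.zero_apply, smul_zero]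
  have hRz : ∀ i, (b + r - n).toNat + (a + r - m).toNat ≤ i → Ra i = 0 := by
    intro i hi
    have e1 := Int.self_le_toNat (b + r - n)
    have e2 := Int.self_le_toNat (a + r - m)
    simp only [hRa]
    rw [ac_zero A r b (n + i) v (by omega), ac_zero A r a (m + i) u (by omega)]
    simp only [LinearMap.zero_apply, map_zero, smul_zero, sub_zero]
  have hB : ∑ᶠ i, La i = ∑ᶠ i, Ra i := ac_borcherds A r a b l m n u v hu hv β hβm
  filter_upwards [finsum_ev La _ hLz, finsum_ev Ra _ hRz] with K h1 h2
  apply rv_inj A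
  rw [map_sum, map_sum, sum_congr rfl fun i _ => hl i, sum_congr rfl fun i _ => hr i]
  have hs : ∀ f : ℕ → Module.Dual ℂ V, ∑ i ∈ range K, Finsupp.single D (f i) =
      Finsupp.single D (∑ i ∈ range K, f i) := fun f =>
    (map_sum (Finsupp.singleAddHom D) f (range K)).symm
  rw [hs, hs, ← h1, ← h2, hB]

theorem rg_jac_ev (l m n : ℤ) (u v : V) (x : RM A) :
    ∀ᶠ K in Filter.atTop, ∑ i ∈ range K, rg_jl A l m n u v x i =
      ∑ i ∈ range K, rg_jr A l m n u v x i := by
  refine hom_ind A u (P := fun u => ∀ᶠ K in Filter.atTop, ∑ i ∈ range K, rg_jl A l m n u v x i =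
      ∑ i ∈ range K, rg_jr A l m n u v x i) ?_ ?_ ?_
  · exact Filter.Eventually.of_forall fun K => sum_congr rfl fun i _ => by
      simp [rg_jl, rg_jr]
  · intro u u' h h'
    filter_upwards [h, h'] with K h1 h2
    have e1 : ∀ i, rg_jl A l m n (u + u') v x i =
        rg_jl A l m n u v x i + rg_jl A l m n u' v x i := by
      intro i
      simp only [rg_jl, map_add, Pi.add_apply, LinearMap.add_apply, smul_add]
    have e2 : ∀ i, rg_jr A l m n (u + u') v x i =
        rg_jr A l m n u v x i + rg_jr A l m n u' v x i := by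
      intro i
      simp only [rg_jr, map_add, LinearMap.add_apply, smul_add, smul_sub]
      abel
    simp only [e1, e2, sum_add_distrib, h1, h2]
  · intro a u hu
    refine hom_ind A v (P := fun v => ∀ᶠ K in Filter.atTop,
      ∑ i ∈ range K, rg_jl A l m n u v x i = ∑ i ∈ range K, rg_jr A l m n u v x i) ?_ ?_ ?_
    · exact Filter.Eventually.of_forall fun K => sum_congr rfl fun i _ => by
        simp [rg_jl, rg_jr]
    · intro v v' h h'
      filter_upwards [h, h'] with K h1 h2
      have e1 : ∀ i, rg_jl A l m n u (v + v') x i =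
          rg_jl A l m n u v x i + rg_jl A l m n u v' x i := by
        intro i
        simp only [rg_jl, map_add, LinearMap.add_apply, smul_add]
      have e2 : ∀ i, rg_jr A l m n u (v + v') x i =
          rg_jr A l m n u v x i + rg_jr A l m n u v' x i := by
        intro i
        simp only [rg_jr, map_add, LinearMap.add_apply, smul_add, smul_sub]
        abel
      simp only [e1, e2, sum_add_distrib, h1, h2]
    · intro b v hv
      refine rg_ind A x (P := fun x => ∀ᶠ K in Filter.atTop,
        ∑ i ∈ range K, rg_jl A l m n u v x i = ∑ i ∈ range K, rg_jr A l m n u v x i) ?_ ?_ ?_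
      · exact Filter.Eventually.of_forall fun K => sum_congr rfl fun i _ => by
          simp [rg_jl, rg_jr]
      · intro x x' h h'
        filter_upwards [h, h'] with K h1 h2
        have e1 : ∀ i, rg_jl A l m n u v (x + x') i =
            rg_jl A l m n u v x i + rg_jl A l m n u v x' i := by
          intro i
          simp only [rg_jl, map_add, smul_add]
        have e2 : ∀ i, rg_jr A l m n u v (x + x') i =
            rg_jr A l m n u v x i + rg_jr A l m n u v x' i := by
          intro i
          simp only [rg_jr, map_add, smul_add, smul_sub]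
          abel
        simp only [e1, e2, sum_add_distrib, h1, h2]
      · intro r x hx
        exact rg_jac_hom A l m n a b r u v x hu hv hx

theorem rg_jacobi (u v : V) (x : RM A) (l m n : ℤ) :
    ∑ᶠ i : ℕ, rg_jl A l m n u v x i = ∑ᶠ i : ℕ, rg_jr A l m n u v x i := by
  obtain ⟨N, hN⟩ := A.trunc_nat u v l
  obtain ⟨N1, hN1⟩ := rg_trunc A v x
  obtain ⟨N2, hN2⟩ := rg_trunc A u x
  refine finsum_eq_of_ev _ _ N ((N1 - n).toNat + (N2 - m).toNat) ?_ ?_ (rg_jac_ev A l m n u v x)
  · intro i hi
    simp only [rg_jl]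
    rw [hN i hi, map_zero, LinearMap.zero_apply, smul_zero]
  · intro i hi
    have e1 := Int.self_le_toNat (N1 - n)
    have e2 := Int.self_le_toNat (N2 - m)
    simp only [rg_jr]
    rw [hN1 (n + i) (by omega), hN2 (m + i) (by omega)]
    simp only [map_zero, smul_zero, sub_zero]

theorem exists_reg : ∃ X : AdmissibleModule A (RM A), IsReg A X := by
  refine ⟨
    { Y := LinearMap.pi fun m => rg_Y A m
      gr := rg_gr A
      trunc := fun u x => rg_trunc A u x
      vacuum := fun n x => rg_vacuum A n x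
      jacobi := fun u v x l m n => rg_jacobi A u v x l m n
      internal := rg_internal A
      nonneg := ?_
      graded := ?_ }, ⟨?_, ?_⟩⟩
  · intro n hn
    rw [eq_bot_iff]
    intro y hy
    have h1 := rv_mem A y n
    rw [GG_neg A n hn, Submodule.mem_bot] at h1
    rw [Submodule.mem_bot]
    apply rv_inj A
    rw [(rg_mem_gr A n y).1 hy, h1, Finsupp.single_zero, map_zero]
  · intro k m i u x hu hx
    exact rg_mem_gr' A _ _ _ (rg_act A k i m _ u _ x hu ((rg_mem_gr A i x).1 hx) rfl)
  · intro a r m v β y hv hy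
    exact rg_act A a r m _ v β y hv hy rfl
  · intro r y
    exact rg_mem_gr A r y

end RG

end Pool.Agent.DERVR
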