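import Pool.Agent.DERVR.RDefs
import Pool.Agent.DERV.SER0

/-!
# Project DERV, part I: SERI : formal Laurent series
-/

set_option autoImplicit false

universe u w

open Finset

namespace Pool.Agent.DERVR

open Pool.Agent.VOAut Pool.Agent.DERV

section SERI

theorem seri_single_mul (m n : ℤ) : (HahnSeries.single m 1 : LaurentSeries ℂ) *
    HahnSeries.single n 1 = HahnSeries.single (m + n) 1 := by
  rw [HahnSeries.single_mul_single, one_mul]

theorem xL_zpow (n : ℤ) : (xL ^ n : LaurentSeries ℂ) = HahnSeries.single n 1 := by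
  induction n with
  | zero => rw [zpow_zero]; rfl
  | succ n ih =>
    rw [zpow_add_one₀ xL_ne, ih]
    exact seri_single_mul _ _
  | pred n ih =>
    apply mul_right_cancel₀ xL_ne
    rw [← zpow_add_one₀ xL_ne, sub_add_cancel, ih]
    have := seri_single_mul (-(n : ℤ) - 1) 1
    rw [sub_add_cancel] at this
    exact this.symm

theorem seri_pw_succ (s i : ℤ) : ((1 + xL) ^ (s + 1) : LaurentSeries ℂ).coeff i =
    ((1 + xL) ^ s : LaurentSeries ℂ).coeff i + ((1 + xL) ^ s : LaurentSeries ℂ).coeff (i - 1) := by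
  rw [zpow_add_one₀ y_ne, mul_add, mul_one, HahnSeries.coeff_add]
  congr 1
  have h : ((1 + xL) ^ s : LaurentSeries ℂ) * xL = HahnSeries.single 1 1 * (1 + xL) ^ s := by
    rw [mul_comm]; rfl
  rw [h, HahnSeries.coeff_single_mul, one_mul]

theorem seri_choose_succ (s i : ℤ) :
    (if i < 0 then (0 : ℂ) else ((Ring.choose (s + 1) i.toNat : ℤ) : ℂ)) =
    (if i < 0 then (0 : ℂ) else ((Ring.choose s i.toNat : ℤ) : ℂ)) +
    (if i - 1 < 0 then (0 : ℂ) else ((Ring.choose s (i - 1).toNat : ℤ) : ℂ)) := by
  rcases lt_trichotomy i 0 with h | h | h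
  · rw [if_pos h, if_pos h, if_pos (by omega), add_zero]
  · subst h
    simp
  · obtain ⟨k, rfl⟩ : ∃ k : ℕ, i = (k : ℤ) + 1 := ⟨(i - 1).toNat, by omega⟩
    rw [if_neg (by omega), if_neg (by omega), if_neg (by omega)]
    have e1 : ((k : ℤ) + 1).toNat = k + 1 := by omega
    have e2 : ((k : ℤ) + 1 - 1).toNat = k := by omega
    rw [e1, e2, Ring.choose_succ_succ]
    push_cast
    ring

theorem pw_coeff (s i : ℤ) : ((1 + xL) ^ s : LaurentSeries ℂ).coeff i =
    if i < 0 then 0 else ((Ring.choose s i.toNat : ℤ) : ℂ) := by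
  induction s generalizing i with
  | zero =>
    rw [zpow_zero, HahnSeries.coeff_one]
    rcases lt_trichotomy i 0 with h | h | h
    · rw [if_pos h, if_neg (by omega)]
    · subst h
      simp
    · rw [if_neg (by omega), if_neg (by omega), Ring.choose_zero_ite, if_neg (by omega)]
      simp
  | succ s ih =>
    rw [seri_pw_succ, ih, ih, seri_choose_succ]
  | pred s ih =>
    have key : ∀ k : ℕ, ∀ i : ℤ, i < k → ((1 + xL) ^ (-(s : ℤ) - 1) : LaurentSeries ℂ).coeff i =
        if i < 0 then 0 else ((Ring.choose (-(s : ℤ) - 1) i.toNat : ℤ) : ℂ) := by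
      intro k
      induction k with
      | zero =>
        intro i hi
        have hi' : i < 0 := by exact_mod_cast hi
        rw [if_pos hi', (LD_y_zpow _).1 i hi']
      | succ k ihk =>
        intro i hi
        push_cast at hi
        have h1 := seri_pw_succ (-(s : ℤ) - 1) i
        have h2 := seri_choose_succ (-(s : ℤ) - 1) i
        rw [sub_add_cancel] at h1 h2
        rw [ih i, ihk (i - 1) (by omega), h2] at h1
        exact (add_right_cancel h1).symm
    exact key (i.toNat + 1) i (by omega)

theorem xmul_coeff (n i : ℤ) (f : LaurentSeries ℂ) : (xL ^ n * f).coeff i = f.coeff (i - n) := by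
  rw [xL_zpow, HahnSeries.coeff_single_mul, one_mul]

theorem pw_mul_coeff (s : ℤ) (f : LaurentSeries ℂ) (i : ℤ) :
    ((1 + xL) ^ s * f).coeff i = ∑ᶠ k : ℕ, ((Ring.choose s k : ℤ) : ℂ) * f.coeff (i - k) := by
  set N : ℕ := (i + 1 - f.order).toNat with hN
  have hf := OG_order f
  set P : LaurentSeries ℂ := ∑ k ∈ range N, cc ((Ring.choose s k : ℤ) : ℂ) *
    HahnSeries.single (k : ℤ) 1 with hP
  have h1 : OG N ((1 + xL) ^ s - P) := by
    intro j hj
    rw [HahnSeries.coeff_sub, hP, HahnSeries.coeff_sum, pw_coeff]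
    simp only [coeff_cc_mul]
    split_ifs with h
    · rw [Finset.sum_eq_zero, sub_zero]
      intro k _
      rw [HahnSeries.coeff_single_of_ne (by omega), mul_zero]
    · obtain ⟨l, rfl⟩ : ∃ l : ℕ, j = (l : ℤ) := ⟨j.toNat, by omega⟩
      rw [Finset.sum_eq_single l]
      · rw [HahnSeries.coeff_single_same, mul_one, Int.toNat_natCast, sub_self]
      · intro b _ hb
        rw [HahnSeries.coeff_single_of_ne (by exact_mod_cast hb.symm), mul_zero]
      · intro h'
        exact absurd (Finset.mem_range.2 (by omega)) h'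
  have h2 : (((1 + xL) ^ s - P) * f).coeff i = 0 := (h1.mul hf) i (by omega)
  rw [sub_mul, HahnSeries.coeff_sub, sub_eq_zero] at h2
  rw [h2, hP, Finset.sum_mul, HahnSeries.coeff_sum]
  rw [finsum_eq_sum_of_support_subset (s := range N)]
  · apply Finset.sum_congr rfl
    intro k _
    rw [mul_assoc, coeff_cc_mul, HahnSeries.coeff_single_mul, one_mul]
  · intro k hk
    rw [Function.mem_support] at hk
    rw [Finset.mem_coe, Finset.mem_range]
    by_contra h
    apply hk
    rw [hf (i - k) (by omega), mul_zero]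

theorem seri_hd_cc_mul (i : ℕ) (c : ℂ) (f : LaurentSeries ℂ) :
    LaurentSeries.hasseDeriv ℂ i (cc c * f) = cc c * LaurentSeries.hasseDeriv ℂ i f := by
  ext j
  rw [LaurentSeries.hasseDeriv_coeff, coeff_cc_mul, coeff_cc_mul, LaurentSeries.hasseDeriv_coeff,
    zsmul_eq_mul, zsmul_eq_mul]
  ring

theorem seri_OG_hd {N : ℤ} {f : LaurentSeries ℂ} (hf : OG N f) (i : ℕ) :
    OG (N - i) (LaurentSeries.hasseDeriv ℂ i f) := by
  intro j hj
  rw [LaurentSeries.hasseDeriv_coeff, hf (j + i) (by omega), smul_zero]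

/-- Leibniz rule for Hasse derivatives. -/
theorem hd_mul (i : ℕ) (f g : LaurentSeries ℂ) : LaurentSeries.hasseDeriv ℂ i (f * g) =
    ∑ j ∈ range (i + 1), LaurentSeries.hasseDeriv ℂ j f * LaurentSeries.hasseDeriv ℂ (i - j) g := by
  suffices h : LaurentSeries.hasseDeriv ℂ i (f * g) -
      ∑ j ∈ range (i + 1), LaurentSeries.hasseDeriv ℂ j f * LaurentSeries.hasseDeriv ℂ (i - j) g
      = 0 from sub_eq_zero.1 h
  ext k
  rw [HahnSeries.coeff_zero]
  refine apx (fun f => (LaurentSeries.hasseDeriv ℂ i (f * g) -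
      ∑ j ∈ range (i + 1), LaurentSeries.hasseDeriv ℂ j f *
        LaurentSeries.hasseDeriv ℂ (i - j) g).coeff k) (k + 1 + i - g.order) ?_ ?_ ?_ f
  · intro a b
    simp only [add_mul, map_add, HahnSeries.coeff_add, HahnSeries.coeff_sub,
      Finset.sum_add_distrib]
    ring
  · intro f hf
    have hg := OG_order g
    have h1 : OG (k + 1) (LaurentSeries.hasseDeriv ℂ i (f * g)) :=
      (seri_OG_hd (hf.mul hg) i).mono (by omega)
    have h2 : OG (k + 1) (∑ j ∈ range (i + 1), LaurentSeries.hasseDeriv ℂ j f *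
        LaurentSeries.hasseDeriv ℂ (i - j) g) := by
      apply OG.sum
      intro j hj
      rw [Finset.mem_range] at hj
      exact ((seri_OG_hd hf j).mul (seri_OG_hd hg (i - j))).mono (by omega)
    exact (h1.sub h2) k (by omega)
  · intro c m
    have e1 : LaurentSeries.hasseDeriv ℂ i (cc c * HahnSeries.single m 1 * g) -
        ∑ j ∈ range (i + 1), LaurentSeries.hasseDeriv ℂ j (cc c * HahnSeries.single m 1) *
          LaurentSeries.hasseDeriv ℂ (i - j) g
        = cc c * (LaurentSeries.hasseDeriv ℂ i (HahnSeries.single m 1 * g) -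
          ∑ j ∈ range (i + 1), LaurentSeries.hasseDeriv ℂ j (HahnSeries.single m (1 : ℂ)) *
          LaurentSeries.hasseDeriv ℂ (i - j) g) := by
      rw [mul_assoc, seri_hd_cc_mul, mul_sub, Finset.mul_sum]
      congr 1
      apply Finset.sum_congr rfl
      intro j _
      rw [seri_hd_cc_mul, mul_assoc]
    rw [e1, coeff_cc_mul]
    suffices h : (LaurentSeries.hasseDeriv ℂ i (HahnSeries.single m 1 * g) -
          ∑ j ∈ range (i + 1), LaurentSeries.hasseDeriv ℂ j (HahnSeries.single m (1 : ℂ)) *
          LaurentSeries.hasseDeriv ℂ (i - j) g).coeff k = 0 by rw [h, mul_zero]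
    refine apx (fun g => (LaurentSeries.hasseDeriv ℂ i (HahnSeries.single m 1 * g) -
          ∑ j ∈ range (i + 1), LaurentSeries.hasseDeriv ℂ j (HahnSeries.single m (1 : ℂ)) *
          LaurentSeries.hasseDeriv ℂ (i - j) g).coeff k) (k + 1 + i - m) ?_ ?_ ?_ g
    · intro a b
      simp only [mul_add, map_add, HahnSeries.coeff_add, HahnSeries.coeff_sub,
        Finset.sum_add_distrib]
      ring
    · intro f hf
      have hg := OG_single m 1
      have h1 : OG (k + 1) (LaurentSeries.hasseDeriv ℂ i
          ((HahnSeries.single m 1 : LaurentSeries ℂ) * f)) :=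
        (seri_OG_hd (hg.mul hf) i).mono (by omega)
      have h2 : OG (k + 1) (∑ j ∈ range (i + 1),
          LaurentSeries.hasseDeriv ℂ j (HahnSeries.single m (1 : ℂ)) *
          LaurentSeries.hasseDeriv ℂ (i - j) f) := by
        apply OG.sum
        intro j hj
        rw [Finset.mem_range] at hj
        exact ((seri_OG_hd hg j).mul (seri_OG_hd hf (i - j))).mono (by omega)
      exact (h1.sub h2) k (by omega)
    · intro c' n
      rw [← single_eq_cc, HahnSeries.single_mul_single, LaurentSeries.hasseDeriv_single, one_mul]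
      have e2 : ∀ j ∈ range (i + 1), LaurentSeries.hasseDeriv ℂ j (HahnSeries.single m (1 : ℂ)) *
          LaurentSeries.hasseDeriv ℂ (i - j) (HahnSeries.single n c') =
          HahnSeries.single (m + n - i)
            (((Ring.choose m j * Ring.choose n (i - j) : ℤ) : ℂ) * c') := by
        intro j hj
        rw [Finset.mem_range] at hj
        rw [LaurentSeries.hasseDeriv_single, LaurentSeries.hasseDeriv_single,
          HahnSeries.single_mul_single]
        have e3 : m - (j : ℤ) + (n - ((i - j : ℕ) : ℤ)) = m + n - i := by omega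
        rw [e3, zsmul_eq_mul, zsmul_eq_mul]
        congr 1
        push_cast
        ring
      rw [Finset.sum_congr rfl e2, HahnSeries.coeff_sub, HahnSeries.coeff_sum]
      by_cases h : k = m + n - i
      · subst h
        simp only [HahnSeries.coeff_single_same]
        rw [zsmul_eq_mul, ← Finset.sum_mul, Ring.add_choose_eq i (Commute.all m n),
          Finset.Nat.sum_antidiagonal_eq_sum_range_succ
            (fun a b => Ring.choose m a * Ring.choose n b)]
        push_cast
        ring
      · simp only [HahnSeries.coeff_single_of_ne h]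
        simp

end SERI

end Pool.Agent.DERVR
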